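import Pool.Agent.Helper40.WT.BorDefs

set_option autoImplicit false

namespace Pool.Agent.Helper40.WT

open Finset

theorem g_nonneg (j : ℕ) {a : ℝ} (ha : 0 ≤ a) : 0 ≤ g j a := by
  cases j with
  | zero =>
    rw [g_zero]
    exact (Real.exp_pos _).le
  | succ j =>
    rw [g_succ]
    positivity

theorem g_zero_zero : g 0 0 = 1 := by
  rw [g_zero, neg_zero, Real.exp_zero]

theorem g_succ_zero (j : ℕ) : g (j + 1) 0 = 0 := by
  rw [g_succ, zero_mul, zero_mul, zero_div]

private theorem Bor_exp (c a : ℝ) :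
    HasDerivAt (fun x : ℝ => Real.exp (-(x + c))) (-Real.exp (-(a + c))) a := by
  have h0 : HasDerivAt (fun x : ℝ => x + c) 1 a := (hasDerivAt_id' a).add_const c
  have h1 : HasDerivAt (fun x : ℝ => Real.exp (-(x + c))) (Real.exp (-(a + c)) * (-1)) a :=
    h0.neg.exp
  have e : Real.exp (-(a + c)) * (-1) = -Real.exp (-(a + c)) := by ring
  rw [e] at h1
  exact h1

theorem g_deriv_zero (a : ℝ) : HasDerivAt (g 0) (-g 0 a) a := by
  have h := Bor_exp 0 a
  have e : (fun x : ℝ => Real.exp (-(x + 0))) = g 0 := by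
    funext x
    rw [g_zero, add_zero]
  rw [e] at h
  rw [g_zero]
  rw [add_zero] at h
  exact h

/-- For `j = 0` and `j ≥ 1` separately: with `y = a + (j+1)`, the derivative of
`a y^j exp(-y)/(j+1)!` is `-g + (y^j + a j y^(j-1)) exp(-y)/(j+1)!`, and
`y + a j = (j+1)(a+1)` when `y = a + j + 1`, so this is `(a+1) y^(j-1) exp(-y)/j! = g j (a+1)`. -/
theorem g_deriv_succ (j : ℕ) (a : ℝ) : HasDerivAt (g (j + 1)) (-g (j + 1) a + g j (a + 1)) a := by
  cases j with
  | zero =>
    have h := (hasDerivAt_id' a).mul (Bor_exp 1 a)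
    have e : g (0 + 1) = fun x : ℝ => x * Real.exp (-(x + 1)) := by
      funext x
      rw [g_succ]
      simp
    have e2 : -g (0 + 1) a + g 0 (a + 1) =
        1 * Real.exp (-(a + 1)) + a * -Real.exp (-(a + 1)) := by
      rw [e, g_zero]
      ring
    rw [e2, e]
    exact h
  | succ k =>
    obtain ⟨c, hc⟩ : ∃ c : ℝ, c = (k : ℝ) + 2 := ⟨_, rfl⟩
    have h0 : HasDerivAt (fun x : ℝ => x + c) 1 a := (hasDerivAt_id' a).add_const c
    have h1 : HasDerivAt (fun x : ℝ => (x + c) ^ (k + 1)) (((k : ℝ) + 1) * (a + c) ^ k) a := by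
      have h := h0.pow (k + 1)
      have e : ((k + 1 : ℕ) : ℝ) * (a + c) ^ (k + 1 - 1) * 1 = ((k : ℝ) + 1) * (a + c) ^ k := by
        rw [Nat.add_sub_cancel]
        push_cast
        ring
      rw [e] at h
      exact h
    have h3 := (((hasDerivAt_id' a).mul h1).mul (Bor_exp c a)).div_const
      (((k + 1 + 1).factorial : ℕ) : ℝ)
    have e : g (k + 1 + 1) = fun x : ℝ =>
        x * (x + c) ^ (k + 1) * Real.exp (-(x + c)) / (((k + 1 + 1).factorial : ℕ) : ℝ) := by
      funext x
      have e0 : x + (((k + 1 : ℕ) : ℝ) + 1) = x + c := by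
        rw [hc]
        push_cast
        ring
      rw [g_succ, e0]
    have e1 : g (k + 1) (a + 1) =
        (a + 1) * (a + c) ^ k * Real.exp (-(a + c)) / (((k + 1).factorial : ℕ) : ℝ) := by
      have e0 : a + 1 + ((k : ℝ) + 1) = a + c := by
        rw [hc]
        ring
      rw [g_succ, e0]
    have hf : (((k + 1 + 1).factorial : ℕ) : ℝ) = ((k : ℝ) + 2) * (((k + 1).factorial : ℕ) : ℝ) := by
      rw [Nat.factorial_succ (k + 1)]
      push_cast
      ring
    have hf0 : (((k + 1).factorial : ℕ) : ℝ) ≠ 0 := by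
      exact_mod_cast (k + 1).factorial_ne_zero
    have hk0 : (k : ℝ) + 2 ≠ 0 := by positivity
    have e2 : -g (k + 1 + 1) a + g (k + 1) (a + 1) =
        ((1 * (a + c) ^ (k + 1) + a * (((k : ℝ) + 1) * (a + c) ^ k)) * Real.exp (-(a + c)) +
          a * (a + c) ^ (k + 1) * -Real.exp (-(a + c))) / (((k + 1 + 1).factorial : ℕ) : ℝ) := by
      rw [e, e1]
      simp only
      rw [hf]
      field_simp
      rw [hc]
      ring
    rw [e2, e]
    exact h3

end Pool.Agent.Helper40.WT
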