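import Mathlib

/-!
# MP_c8f8f3_co, project WT: the potential for every k, definitions

`g j a` is the probability that a critical Poisson queue with initial work `a` has exactly `j`
arrivals before it is empty (Borel-Tanner), `P m a` the probability of fewer than `m` arrivals,
`F m a = E (m - J)^+`.
-/

set_option autoImplicit false

namespace Pool.Agent.Helper40.WT

open Finset

/-- The Borel-Tanner probability. -/
noncomputable def g : ℕ → ℝ → ℝ
  | 0, a => Real.exp (-a)
  | (j + 1), a => a * (a + (j + 1)) ^ j * Real.exp (-(a + (j + 1))) / (j + 1).factorial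

noncomputable def P (m : ℕ) (a : ℝ) : ℝ := ∑ j ∈ range m, g j a

noncomputable def F (m : ℕ) (a : ℝ) : ℝ := ∑ j ∈ range m, ((m : ℝ) - j) * g j a

theorem g_zero (a : ℝ) : g 0 a = Real.exp (-a) := rfl
theorem g_succ (j : ℕ) (a : ℝ) : g (j + 1) a =
    a * (a + (j + 1)) ^ j * Real.exp (-(a + (j + 1))) / (j + 1).factorial := rfl

end Pool.Agent.Helper40.WT
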