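import Pool.Agent.Helper40.WT.Bor

set_option autoImplicit false

namespace Pool.Agent.Helper40.WT

open Finset

theorem P_zero (a : ℝ) : P 0 a = 0 := by
  unfold P
  rw [Finset.range_zero, Finset.sum_empty]

theorem P_succ (m : ℕ) (a : ℝ) : P (m + 1) a = P m a + g m a := by
  unfold P
  rw [Finset.sum_range_succ]

theorem F_zero (a : ℝ) : F 0 a = 0 := by
  unfold F
  rw [Finset.range_zero, Finset.sum_empty]

/-- `F (m+1) = F m + P (m+1)` (the term `j = m` of `F m` would be `0`). -/
theorem F_succ (m : ℕ) (a : ℝ) : F (m + 1) a = F m a + P (m + 1) a := by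
  have h1 : F m a = ∑ j ∈ range (m + 1), ((m : ℝ) - j) * g j a := by
    unfold F
    rw [Finset.sum_range_succ, sub_self, zero_mul, add_zero]
  rw [h1]
  unfold F P
  rw [← Finset.sum_add_distrib]
  refine Finset.sum_congr rfl fun j _ => ?_
  push_cast
  ring

theorem P_at_zero (m : ℕ) : P (m + 1) 0 = 1 := by
  induction m with
  | zero => rw [P_succ, P_zero, g_zero_zero, zero_add]
  | succ k ih => rw [P_succ, ih, g_succ_zero, add_zero]

theorem F_at_zero (m : ℕ) : F m 0 = m := by
  induction m with
  | zero => rw [F_zero, Nat.cast_zero]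
  | succ k ih => rw [F_succ, ih, P_at_zero, Nat.cast_add, Nat.cast_one]

/-- Sum of `g_deriv_zero`, `g_deriv_succ` (`Finset.sum_range_succ'`). -/
theorem P_deriv (m : ℕ) (a : ℝ) : HasDerivAt (P (m + 1)) (-P (m + 1) a + P m (a + 1)) a := by
  induction m with
  | zero =>
    have h1 : P (0 + 1) = g 0 := by
      funext b
      rw [P_succ, P_zero, zero_add]
    rw [h1, P_zero, add_zero]
    exact g_deriv_zero a
  | succ k ih =>
    have h1 : P (k + 1 + 1) = fun b => P (k + 1) b + g (k + 1) b := by
      funext b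
      rw [P_succ]
    have h2 := ih.add (g_deriv_succ k a)
    have h3 : -P (k + 1 + 1) a + P (k + 1) (a + 1) =
        -P (k + 1) a + P k (a + 1) + (-g (k + 1) a + g k (a + 1)) := by
      rw [P_succ (k + 1) a, P_succ k (a + 1)]
      ring
    rw [h3, h1]
    exact h2

/-- Induction on `m` with `F_succ` and `P_deriv`. -/
theorem F_deriv (m : ℕ) (a : ℝ) : HasDerivAt (F (m + 1)) (-F (m + 1) a + F m (a + 1)) a := by
  induction m with
  | zero =>
    have h1 : F (0 + 1) = P (0 + 1) := by
      funext b
      rw [F_succ, F_zero, zero_add]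
    have h2 := P_deriv 0 a
    rw [h1, F_zero]
    rw [P_zero] at h2
    exact h2
  | succ k ih =>
    have h1 : F (k + 1 + 1) = fun b => F (k + 1) b + P (k + 1 + 1) b := by
      funext b
      rw [F_succ]
    have h2 := ih.add (P_deriv (k + 1) a)
    have h3 : -F (k + 1 + 1) a + F (k + 1) (a + 1) =
        -F (k + 1) a + F k (a + 1) + (-P (k + 1 + 1) a + P (k + 1) (a + 1)) := by
      rw [F_succ (k + 1) a, F_succ k (a + 1)]
      ring
    rw [h3, h1]
    exact h2

end Pool.Agent.Helper40.WT
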