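import Mathlib

set_option autoImplicit false

namespace Pool.Agent.Helper40.WT

/-- A function with nonnegative derivative on `[u, v]` is at least its value at `u`. -/
private theorem mono_aux {g g' : ℝ → ℝ} {u v : ℝ} (hg : ∀ a, HasDerivAt g (g' a) a)
    (h : ∀ a, u ≤ a → a ≤ v → 0 ≤ g' a) : ∀ a, u ≤ a → a ≤ v → g u ≤ g a := by
  intro a h1 h2
  have hm : MonotoneOn g (Set.Icc u v) := by
    apply monotoneOn_of_deriv_nonneg (convex_Icc u v)
    · exact fun x _ => (hg x).continuousAt.continuousWithinAt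
    · exact fun x _ => (hg x).differentiableAt.differentiableWithinAt
    · intro x hx
      rw [interior_Icc] at hx
      rw [(hg x).deriv]
      exact h x hx.1.le hx.2.le
  exact hm ⟨le_refl u, h1.trans h2⟩ ⟨h1, h2⟩ h1

/-- Comparison: `exp(a) f(a)` is antitone on `[0, A]`. -/
theorem cmp {f f' : ℝ → ℝ} {A : ℝ} (hf : ∀ a, HasDerivAt f (f' a) a) (h0 : f 0 ≤ 0)
    (h : ∀ a, 0 ≤ a → a ≤ A → f' a + f a ≤ 0) : ∀ a, 0 ≤ a → a ≤ A → f a ≤ 0 := by
  intro a h1 h2
  have hd : ∀ x : ℝ, HasDerivAt (fun y => -(Real.exp y * f y))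
      (-(Real.exp x * f x + Real.exp x * f' x)) x :=
    fun x => ((Real.hasDerivAt_exp x).mul (hf x)).neg
  have h3 := mono_aux (u := 0) (v := A) hd (fun x hx hx' => by
    have h4 := h x hx hx'
    have h5 := Real.exp_pos x
    have h6 : Real.exp x * f x + Real.exp x * f' x = Real.exp x * (f' x + f x) := by ring
    rw [h6]
    have h7 : Real.exp x * (f' x + f x) ≤ 0 := mul_nonpos_of_nonneg_of_nonpos h5.le h4
    linarith) a h1 h2
  simp only [Real.exp_zero, one_mul] at h3
  have h5 := Real.exp_pos a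
  have h6 : Real.exp a * f a ≤ 0 := by linarith
  by_contra hc
  push Not at hc
  have := mul_pos h5 hc
  linarith

/-- Taylor: `f (s + p) ≤ f s + p f'(s) + c p^2 / 2` when `f'' ≤ c` on `[s, s+p]`. -/
theorem taylor {f f' f'' : ℝ → ℝ} {s p c : ℝ} (hp : 0 ≤ p) (hf : ∀ a, HasDerivAt f (f' a) a)
    (hf' : ∀ a, HasDerivAt f' (f'' a) a) (h : ∀ a, s ≤ a → a ≤ s + p → f'' a ≤ c) :
    f (s + p) ≤ f s + p * f' s + c * p ^ 2 / 2 := by
  have hd1 : ∀ x : ℝ, HasDerivAt (fun y => c * (y - s) - f' y) (c - f'' x) x := by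
    intro x
    have h1 : HasDerivAt (fun y : ℝ => c * (y - s)) (c * 1) x :=
      ((hasDerivAt_id x).sub_const s).const_mul c
    rw [mul_one] at h1
    exact h1.sub (hf' x)
  have h1 := mono_aux (u := s) (v := s + p) hd1 (fun a h1 h2 => by
    have := h a h1 h2
    linarith)
  have hd2 : ∀ x : ℝ, HasDerivAt (fun y => c / 2 * (y - s) ^ 2 + (y - s) * f' s - f y)
      (c * (x - s) + f' s - f' x) x := by
    intro x
    have h2 : HasDerivAt (fun y : ℝ => c / 2 * (y - s) ^ 2) (c / 2 * (2 * (x - s) ^ 1 * 1)) x :=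
      (((hasDerivAt_id x).sub_const s).pow 2).const_mul (c / 2)
    have h3 : HasDerivAt (fun y : ℝ => (y - s) * f' s) (1 * f' s) x :=
      ((hasDerivAt_id x).sub_const s).mul_const (f' s)
    have h4 := (h2.add h3).sub (hf x)
    have h5 : c * (x - s) + f' s - f' x = c / 2 * (2 * (x - s) ^ 1 * 1) + 1 * f' s - f' x := by
      ring
    rw [h5]
    exact h4
  have h2 := mono_aux (u := s) (v := s + p) hd2 (fun a h3 h4 => by
    have h5 := h1 a h3 h4
    simp only [sub_self, mul_zero] at h5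
    linarith) (s + p) (by linarith) le_rfl
  simp only [sub_self] at h2
  have e : s + p - s = p := by ring
  rw [e] at h2
  nlinarith

end Pool.Agent.Helper40.WT
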