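import Pool.Agent.Helper40.WC.Sqrt

set_option autoImplicit false

namespace Pool.Agent.Helper40.WT

open Finset Pool.Agent.Helper72.WC Pool.Agent.Helper40.WC

variable {n : ℕ}

/-- The product of `φ` over the two ends of a pair. -/
noncomputable def Hs (φ : Fin n → ℝ) : Sym2 (Fin n) → ℝ :=
  Sym2.lift ⟨fun x y => φ x * φ y, fun x y => mul_comm (φ x) (φ y)⟩

theorem Hs_mk (φ : Fin n → ℝ) (x y : Fin n) : Hs φ s(x, y) = φ x * φ y := rfl

/-- `2 ∑_{e ∈ S} φ(x) φ(y) ≤ (∑ φ)²` for `φ ≥ 0` (each `e = s(x,y)`, `x ≠ y`, is hit by the ordered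
pairs `(x,y)`, `(y,x)`). -/
theorem sum_Hs_le {S : Finset (Sym2 (Fin n))} (hS : ∀ e ∈ S, ¬ e.IsDiag) {φ : Fin n → ℝ}
    (hφ : ∀ x, 0 ≤ φ x) : 2 * ∑ e ∈ S, Hs φ e ≤ (∑ x, φ x) ^ 2 := by
  classical
  have h1 : (∑ x, φ x) ^ 2 = ∑ p : Fin n × Fin n, φ p.1 * φ p.2 := by
    rw [sq, Finset.sum_mul_sum, Fintype.sum_prod_type]
  have h2 : ∑ p ∈ (univ : Finset (Fin n × Fin n)).filter (fun p => s(p.1, p.2) ∈ S),
      φ p.1 * φ p.2 ≤ ∑ p : Fin n × Fin n, φ p.1 * φ p.2 :=
    Finset.sum_le_sum_of_subset_of_nonneg (Finset.filter_subset _ _)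
      fun p _ _ => mul_nonneg (hφ _) (hφ _)
  have h3 : ∑ p ∈ (univ : Finset (Fin n × Fin n)).filter (fun p => s(p.1, p.2) ∈ S),
      φ p.1 * φ p.2 = ∑ e ∈ S, ∑ p ∈ ((univ : Finset (Fin n × Fin n)).filter
        (fun p => s(p.1, p.2) ∈ S)).filter (fun p => s(p.1, p.2) = e), φ p.1 * φ p.2 :=
    (Finset.sum_fiberwise_of_maps_to (fun p hp => (Finset.mem_filter.1 hp).2) _).symm
  rw [h1]
  refine le_trans ?_ h2
  rw [h3, Finset.mul_sum]
  refine Finset.sum_le_sum fun e he => ?_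
  have hd := hS e he
  induction e using Sym2.ind with
  | _ x y =>
    have hxy : x ≠ y := fun h => hd (by rw [h]; exact Sym2.mk_isDiag_iff.2 rfl)
    have h4 : ({(x, y), (y, x)} : Finset (Fin n × Fin n)) ⊆
        ((univ : Finset (Fin n × Fin n)).filter
        (fun p => s(p.1, p.2) ∈ S)).filter (fun p => s(p.1, p.2) = s(x, y)) := by
      intro p hp
      rw [Finset.mem_insert, Finset.mem_singleton] at hp
      rw [Finset.mem_filter, Finset.mem_filter]
      rcases hp with rfl | rfl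
      · exact ⟨⟨mem_univ _, he⟩, rfl⟩
      · have e1 : s(y, x) = s(x, y) := Sym2.eq_swap
        refine ⟨⟨mem_univ _, ?_⟩, e1⟩
        show s(y, x) ∈ S
        rw [e1]
        exact he
    refine le_trans ?_ (Finset.sum_le_sum_of_subset_of_nonneg h4
      fun p _ _ => mul_nonneg (hφ _) (hφ _))
    rw [Finset.sum_pair (by
      intro h
      exact hxy (congrArg Prod.fst h)), Hs_mk]
    linarith [mul_comm (φ x) (φ y)]

private theorem Conv_common {e f : Sym2 (Fin n)} (he : ¬ e.IsDiag) {h : Fin n → ℝ}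
    (h0 : ∀ x, 0 ≤ h x) (h1 : ∀ x, h x ≤ 1) :
    (∑ x, if x ∈ e ∧ x ∈ f then 1 - h x else 0) ≤ (1 - Hs h e) + if f = e then 1 else 0 := by
  classical
  induction e using Sym2.ind with
  | _ a b =>
    have hab : a ≠ b := fun h => he (by rw [h]; exact Sym2.mk_isDiag_iff.2 rfl)
    have e1 : (∑ x, if x ∈ s(a, b) ∧ x ∈ f then 1 - h x else 0) =
        (if a ∈ f then 1 - h a else 0) + (if b ∈ f then 1 - h b else 0) := by
      have e2 : ∀ x, (if x ∈ s(a, b) ∧ x ∈ f then 1 - h x else 0) =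
          (if x = a then (if a ∈ f then 1 - h a else 0) else 0) +
            (if x = b then (if b ∈ f then 1 - h b else 0) else 0) := by
        intro x
        by_cases hxa : x = a
        · subst hxa
          simp [hab]
        · by_cases hxb : x = b
          · subst hxb
            simp [hxa]
          · simp [hxa, hxb]
      simp_rw [e2]
      rw [Finset.sum_add_distrib, Finset.sum_ite_eq', Finset.sum_ite_eq']
      simp
    rw [e1, Hs_mk]
    have a0 := h0 a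
    have a1 := h1 a
    have b0 := h0 b
    have b1 := h1 b
    have ha : h a * h b ≤ h a := by nlinarith
    have hb : h a * h b ≤ h b := by nlinarith
    by_cases hf : f = s(a, b)
    · rw [if_pos hf]
      have c1 : (if a ∈ f then 1 - h a else 0) ≤ 1 - h a := by
        split_ifs <;> linarith
      have c2 : (if b ∈ f then 1 - h b else 0) ≤ 1 - h b := by
        split_ifs <;> linarith
      linarith
    · rw [if_neg hf]
      have hnot : ¬ (a ∈ f ∧ b ∈ f) := fun hh => hf ((Sym2.mem_and_mem_iff hab).1 hh)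
      by_cases haf : a ∈ f
      · have hbf : b ∉ f := fun hb => hnot ⟨haf, hb⟩
        rw [if_pos haf, if_neg hbf]
        linarith
      · rw [if_neg haf]
        split_ifs <;> linarith

/-- As `sum_inc_sq` (with `common_le`): `∑_x j_x² (1 - h x) = ∑_{e,f ∈ B} ∑_{x ∈ e ∩ f} (1 - h x)`,
the terms with `f ≠ e` are at most `1 - Hs h e`, those with `f = e` at most `(1 - Hs h e) + 1`. -/
theorem sum_inc_sq_h {B : Finset (Sym2 (Fin n))} (hB : ∀ e ∈ B, ¬ e.IsDiag) {h : Fin n → ℝ}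
    (h0 : ∀ x, 0 ≤ h x) (h1 : ∀ x, h x ≤ 1) :
    ∑ x, (inc B x : ℝ) ^ 2 * (1 - h x) ≤
      (B.card : ℝ) ^ 2 + B.card - B.card * ∑ e ∈ B, Hs h e := by
  classical
  have a1 : ∀ v, (inc B v : ℝ) ^ 2 * (1 - h v) =
      ∑ e ∈ B, ∑ f ∈ B, if v ∈ e ∧ v ∈ f then 1 - h v else 0 := by
    intro v
    rw [inc_eq_sum]
    push_cast
    rw [sq, sum_mul_sum, sum_mul]
    refine sum_congr rfl fun e _ => ?_
    rw [sum_mul]
    refine sum_congr rfl fun f _ => ?_
    by_cases h : v ∈ e <;> by_cases h' : v ∈ f <;> simp [h, h']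
  have a2 : ∑ v, (inc B v : ℝ) ^ 2 * (1 - h v) =
      ∑ e ∈ B, ∑ f ∈ B, ∑ v, if v ∈ e ∧ v ∈ f then 1 - h v else 0 := by
    simp_rw [a1]
    rw [sum_comm]
    refine sum_congr rfl fun e _ => ?_
    rw [sum_comm]
  rw [a2]
  have a3 : ∀ e ∈ B, (∑ f ∈ B, ∑ v, if v ∈ e ∧ v ∈ f then 1 - h v else 0) ≤
      B.card * (1 - Hs h e) + 1 := by
    intro e he
    calc (∑ f ∈ B, ∑ v, if v ∈ e ∧ v ∈ f then 1 - h v else 0)
        ≤ ∑ f ∈ B, ((1 - Hs h e) + if f = e then 1 else 0) :=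
          sum_le_sum fun f _ => Conv_common (hB e he) h0 h1
      _ = B.card * (1 - Hs h e) + 1 := by
          rw [sum_add_distrib, sum_ite_eq' B e, if_pos he, sum_const, nsmul_eq_mul]
  refine (sum_le_sum a3).trans (le_of_eq ?_)
  rw [sum_add_distrib, ← mul_sum, sum_sub_distrib, sum_const, nsmul_eq_mul]
  ring

end Pool.Agent.Helper40.WT
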