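import Pool.Agent.Helper40.WT.CvxA

set_option autoImplicit false

namespace Pool.Agent.Helper40.WT

open Finset

/-- The derivative of `a ↦ F m (a + c)`. -/
private theorem Cvx_shift (m : ℕ) (c a : ℝ) :
    HasDerivAt (fun x => F (m + 1) (x + c)) (-F (m + 1) (a + c) + F m (a + c + 1)) a :=
  (F_deriv m (a + c)).comp_add_const a c

private theorem Cvx_shift_zero (c a : ℝ) : HasDerivAt (fun x => F 0 (x + c)) 0 a := by
  have h : (fun x : ℝ => F 0 (x + c)) = fun _ => 0 := by
    funext x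
    exact F_zero _
  rw [h]
  exact hasDerivAt_const a 0

/-- As `D_le` in `Hgen`: `cmp` for `-D`, `D_zero_nonneg` at `0`; induction on `m`. -/
theorem D_nonneg (m : ℕ) {a : ℝ} (ha : 0 ≤ a) :
    0 ≤ F (m + 2) a - 2 * F (m + 1) (a + 1) + F m (a + 2) := by
  have h0 : ∀ m : ℕ, -(F (m + 2) 0 - 2 * F (m + 1) (0 + 1) + F m (0 + 2)) ≤ 0 := by
    intro m
    have h := D_zero_nonneg m
    have h1 := F_at_zero (m + 2)
    push_cast at h1
    rw [h1, zero_add, zero_add]
    linarith
  induction m generalizing a with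
  | zero =>
    have hf : ∀ x : ℝ, HasDerivAt
        (fun x : ℝ => -(F (0 + 2) x - 2 * F (0 + 1) (x + 1) + F 0 (x + 2)))
        (-((-F (0 + 2) x + F (0 + 1) (x + 1)) - 2 * (-F (0 + 1) (x + 1) + F 0 (x + 1 + 1)) + 0)) x := by
      intro x
      exact (((F_deriv 1 x).sub ((Cvx_shift 0 1 x).const_mul 2)).add (Cvx_shift_zero 2 x)).neg
    have h := cmp (A := a) hf (h0 0) (by
      intro x hx0 _
      have h1 := F_nonneg 1 (show 0 ≤ x + 1 by linarith)
      rw [F_zero, F_zero]
      simp only [zero_add] at *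
      linarith) a ha le_rfl
    have h2 : -(F (0 + 2) a - 2 * F (0 + 1) (a + 1) + F 0 (a + 2)) ≤ 0 := h
    linarith
  | succ m ih =>
    have hf : ∀ x : ℝ, HasDerivAt
        (fun x : ℝ => -(F (m + 1 + 2) x - 2 * F (m + 1 + 1) (x + 1) + F (m + 1) (x + 2)))
        (-((-F (m + 1 + 2) x + F (m + 1 + 1) (x + 1)) -
          2 * (-F (m + 1 + 1) (x + 1) + F (m + 1) (x + 1 + 1)) +
          (-F (m + 1) (x + 2) + F m (x + 2 + 1)))) x := by
      intro x
      exact (((F_deriv (m + 2) x).sub ((Cvx_shift (m + 1) 1 x).const_mul 2)).add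
        (Cvx_shift m 2 x)).neg
    have h := cmp (A := a) hf (h0 (m + 1)) (by
      intro x hx0 _
      have h1 := ih (show 0 ≤ x + 1 by linarith)
      have e1 : x + 1 + 1 = x + 2 := by ring
      have e2 : x + 1 + 2 = x + 2 + 1 := by ring
      rw [e1, e2] at h1
      rw [e1]
      have e3 : m + 1 + 1 = m + 2 := rfl
      rw [e3]
      linarith) a ha le_rfl
    have h2 : -(F (m + 1 + 2) a - 2 * F (m + 1 + 1) (a + 1) + F (m + 1) (a + 2)) ≤ 0 := h
    linarith

/-- The tangent at `0` (`F (m+1)` is convex on `[0, ∞)`): `taylor` for `-F (m+1)`, `s = 0`, `c = 0`. -/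
theorem F_tangent (m : ℕ) {a : ℝ} (ha : 0 ≤ a) :
    (m : ℝ) + 1 - a * ((m : ℝ) + 1 - F m 1) ≤ F (m + 1) a := by
  have key : (fun x => -F (m + 1) x) (0 + a) ≤ (fun x => -F (m + 1) x) 0 +
      a * (-(-F (m + 1) 0 + F m (0 + 1))) + 0 * a ^ 2 / 2 := by
    cases m with
    | zero =>
      refine taylor (f := fun x => -F (0 + 1) x) (f' := fun x => -(-F (0 + 1) x + F 0 (x + 1)))
        (f'' := fun x => -(-(-F (0 + 1) x + F 0 (x + 1)) + 0)) ha (fun x => (F_deriv 0 x).neg)
        (fun x => ((F_deriv 0 x).neg.add (Cvx_shift_zero 1 x)).neg) ?_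
      intro x h1 _
      have h2 := F_nonneg 1 (show 0 ≤ x by linarith)
      simp only [F_zero, zero_add]
      linarith
    | succ m =>
      refine taylor (f := fun x => -F (m + 1 + 1) x)
        (f' := fun x => -(-F (m + 1 + 1) x + F (m + 1) (x + 1)))
        (f'' := fun x => -(-(-F (m + 1 + 1) x + F (m + 1) (x + 1)) +
          (-F (m + 1) (x + 1) + F m (x + 1 + 1)))) ha (fun x => (F_deriv (m + 1) x).neg)
        (fun x => ((F_deriv (m + 1) x).neg.add (Cvx_shift m 1 x)).neg) ?_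
      intro x h1 _
      have h2 := D_nonneg m (show 0 ≤ x by linarith)
      have e1 : x + 1 + 1 = x + 2 := by ring
      have e3 : m + 1 + 1 = m + 2 := rfl
      show -(-(-F (m + 1 + 1) x + F (m + 1) (x + 1)) + (-F (m + 1) (x + 1) + F m (x + 1 + 1))) ≤ 0
      rw [e1, e3]
      linarith
  have h1 := F_at_zero (m + 1)
  push_cast at h1
  simp only [zero_add] at key
  rw [h1] at key
  linarith

end Pool.Agent.Helper40.WT
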