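import Pool.Agent.Helper40.WT.Dz

set_option autoImplicit false

namespace Pool.Agent.Helper40.WT

open Finset

/-- As `P_one_lim`: `N (1 - P N 2) ≤ N - F N 2 ≤ 2 (A - 1) + 2 N / A` (`Q_bound`, `F_le_mul`). -/
theorem P_two_lim {ε : ℝ} (hε : 0 < ε) : ∃ N0 : ℕ, ∀ N ≥ N0, 1 - ε ≤ P N 2 := by
  refine ⟨⌈16 / ε ^ 2⌉₊, fun N hN => ?_⟩
  have h0 : 16 / ε ^ 2 ≤ (N : ℝ) := Nat.ceil_le.1 hN
  have hε2 : 0 < ε ^ 2 := by positivity
  have hN0 : (0 : ℝ) < N := lt_of_lt_of_le (by positivity) h0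
  have hA0 : (0 : ℝ) < 4 / ε := by positivity
  have h1 := Q_bound N (A := 4 / ε + 1) (a := 2) (by linarith) (by norm_num) (by linarith)
  have h2 := F_le_mul N (a := 2) (by norm_num)
  have h3 : (N : ℝ) * 2 / (4 / ε + 1) ≤ N * ε / 2 := by
    rw [div_le_iff₀ (by linarith)]
    have e1 : (N : ℝ) * ε / 2 * (4 / ε + 1) = N * 2 + N * ε / 2 := by
      field_simp
      ring
    rw [e1]
    have : 0 ≤ (N : ℝ) * ε / 2 := by positivity
    linarith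
  have h4 : 8 / ε ≤ N * ε / 2 := by
    rw [div_le_iff₀ hε2] at h0
    rw [div_le_iff₀ hε]
    nlinarith
  have e2 : 2 * (4 / ε + 1 + 1 - 2) = 8 / ε := by ring
  rw [e2] at h1
  have h5 : (N : ℝ) * (1 - P N 2) ≤ N * ε := by linarith
  have h6 := le_of_mul_le_mul_left h5 hN0
  linarith

private theorem CvxA_sum (M : ℕ) : ∑ i ∈ range (M + 1), tt i = P (M + 1) 1 - P M 2 / 2 := by
  have h1 : P (M + 1) 1 = ∑ i ∈ range (M + 1), ((i : ℝ) * tt i) +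
      ∑ i ∈ range (M + 1), tt i := by
    rw [← sum_b, ← Finset.sum_add_distrib]
    refine Finset.sum_congr rfl fun i _ => ?_
    ring
  have h2 : P M 2 = 2 * ∑ i ∈ range (M + 1), ((i : ℝ) * tt i) := by
    rw [Finset.sum_range_succ']
    unfold P
    rw [mul_add, Finset.mul_sum]
    have h3 : ((0 : ℕ) : ℝ) * tt 0 = 0 := by
      rw [Nat.cast_zero, zero_mul]
    rw [h3, mul_zero, add_zero]
    refine Finset.sum_congr rfl fun i _ => ?_
    rw [g_two]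
    push_cast
    ring
  linarith

/-- `∑_{i<N} tt i ≤ ∑_{i<M+1} tt i = P (M+1) 1 - P M 2 / 2` for `M ≥ N` (`g_one`, `g_two`), and
`P (M+1) 1 ≤ 1`, `P M 2 ≥ 1 - ε` for `M` large. -/
theorem sum_t_le (N : ℕ) : ∑ i ∈ range N, tt i ≤ 1 / 2 := by
  refine le_of_forall_pos_le_add fun δ hδ => ?_
  obtain ⟨N0, hN0⟩ := P_two_lim hδ
  obtain ⟨M, hM⟩ : ∃ M, M = max N0 N := ⟨_, rfl⟩
  have h1 := hN0 M (by rw [hM]; exact le_max_left _ _)
  have h2 : P (M + 1) 1 ≤ 1 := P_le_one (M + 1) (by norm_num)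
  have h3 : ∑ i ∈ range N, tt i ≤ ∑ i ∈ range (M + 1), tt i :=
    Finset.sum_le_sum_of_subset_of_nonneg
      (Finset.range_mono (by rw [hM]; exact (le_max_right _ _).trans (Nat.le_succ _)))
      fun i _ _ => tt_nonneg i
  rw [CvxA_sum] at h3
  linarith

/-- `d_eq` and `sum_t_le`: even `≥ 1`, as `m + 1 - i ≤ m + 1`. -/
theorem D_zero_nonneg (m : ℕ) : 0 ≤ (m : ℝ) + 2 - 2 * F (m + 1) 1 + F m 2 := by
  rw [d_eq]
  have h1 : ∑ i ∈ range (m + 1), ((m : ℝ) + 1 - i) * tt i ≤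
      ∑ i ∈ range (m + 1), ((m : ℝ) + 1) * tt i := by
    refine Finset.sum_le_sum fun i _ => ?_
    refine mul_le_mul_of_nonneg_right ?_ (tt_nonneg i)
    have : (0 : ℝ) ≤ i := Nat.cast_nonneg i
    linarith
  rw [← Finset.mul_sum] at h1
  have h2 := sum_t_le (m + 1)
  have h3 : (0 : ℝ) ≤ (m : ℝ) + 1 := by positivity
  have h4 := mul_le_mul_of_nonneg_left h2 h3
  linarith

end Pool.Agent.Helper40.WT
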