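import Pool.Agent.Helper40.WT.CvxA

set_option autoImplicit false

namespace Pool.Agent.Helper40.WT

open Finset

private theorem CvxP_sum (M : ℕ) : ∑ i ∈ range (M + 1), tt i = P (M + 1) 1 - P M 2 / 2 := by
  have h1 : P (M + 1) 1 = ∑ i ∈ range (M + 1), ((i : ℝ) * tt i) +
      ∑ i ∈ range (M + 1), tt i := by
    rw [← sum_b, ← Finset.sum_add_distrib]
    refine Finset.sum_congr rfl fun i _ => ?_
    ring
  have h2 : P M 2 = 2 * ∑ i ∈ range (M + 1), ((i : ℝ) * tt i) := by
    rw [Finset.sum_range_succ']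
    unfold P
    rw [mul_add, Finset.mul_sum]
    have h3 : ((0 : ℕ) : ℝ) * tt 0 = 0 := by
      rw [Nat.cast_zero, zero_mul]
    rw [h3, mul_zero, add_zero]
    refine Finset.sum_congr rfl fun i _ => ?_
    rw [g_two]
    push_cast
    ring
  linarith

/-- The derivative of `a ↦ P m (a + c)`. -/
private theorem CvxP_shift (m : ℕ) (c a : ℝ) :
    HasDerivAt (fun x => P (m + 1) (x + c)) (-P (m + 1) (a + c) + P m (a + c + 1)) a :=
  (P_deriv m (a + c)).comp_add_const a c

private theorem CvxP_shift_zero (c a : ℝ) : HasDerivAt (fun x => P 0 (x + c)) 0 a := by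
  have h : (fun x : ℝ => P 0 (x + c)) = fun _ => 0 := by
    funext x
    exact P_zero _
  rw [h]
  exact hasDerivAt_const a 0

/-- `P (m+2) a - 2 P (m+1) (a+1) + P m (a+2)` is the second derivative of `P (m+2)`; at `a = 0` it is
`1 - 2 P (m+1) 1 + P m 2 = 1 - 2 ∑_{i < m+1} tt i ≥ 0` (`sum_b`, `g_one`, `g_two`, `sum_t_le`); then
induction on `m` with `cmp` for its negative, as in `Cvx.D_nonneg`. -/
theorem P_cvx (m : ℕ) {a : ℝ} (ha : 0 ≤ a) :
    0 ≤ P (m + 2) a - 2 * P (m + 1) (a + 1) + P m (a + 2) := by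
  have h0 : ∀ m : ℕ, -(P (m + 2) 0 - 2 * P (m + 1) (0 + 1) + P m (0 + 2)) ≤ 0 := by
    intro m
    have h := sum_t_le (m + 1)
    rw [CvxP_sum m] at h
    rw [P_at_zero (m + 1), zero_add, zero_add]
    linarith
  induction m generalizing a with
  | zero =>
    have hf : ∀ x : ℝ, HasDerivAt
        (fun x : ℝ => -(P (0 + 2) x - 2 * P (0 + 1) (x + 1) + P 0 (x + 2)))
        (-((-P (0 + 2) x + P (0 + 1) (x + 1)) - 2 * (-P (0 + 1) (x + 1) + P 0 (x + 1 + 1)) + 0)) x := by
      intro x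
      exact (((P_deriv 1 x).sub ((CvxP_shift 0 1 x).const_mul 2)).add (CvxP_shift_zero 2 x)).neg
    have h := cmp (A := a) hf (h0 0) (by
      intro x hx0 _
      have h1 := P_nonneg 1 (show 0 ≤ x + 1 by linarith)
      rw [P_zero, P_zero]
      simp only [zero_add] at *
      linarith) a ha le_rfl
    have h2 : -(P (0 + 2) a - 2 * P (0 + 1) (a + 1) + P 0 (a + 2)) ≤ 0 := h
    linarith
  | succ m ih =>
    have hf : ∀ x : ℝ, HasDerivAt
        (fun x : ℝ => -(P (m + 1 + 2) x - 2 * P (m + 1 + 1) (x + 1) + P (m + 1) (x + 2)))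
        (-((-P (m + 1 + 2) x + P (m + 1 + 1) (x + 1)) -
          2 * (-P (m + 1 + 1) (x + 1) + P (m + 1) (x + 1 + 1)) +
          (-P (m + 1) (x + 2) + P m (x + 2 + 1)))) x := by
      intro x
      exact (((P_deriv (m + 2) x).sub ((CvxP_shift (m + 1) 1 x).const_mul 2)).add
        (CvxP_shift m 2 x)).neg
    have h := cmp (A := a) hf (h0 (m + 1)) (by
      intro x hx0 _
      have h1 := ih (show 0 ≤ x + 1 by linarith)
      have e1 : x + 1 + 1 = x + 2 := by ring
      have e2 : x + 1 + 2 = x + 2 + 1 := by ring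
      rw [e1, e2] at h1
      rw [e1]
      have e3 : m + 1 + 1 = m + 2 := rfl
      rw [e3]
      linarith) a ha le_rfl
    have h2 : -(P (m + 1 + 2) a - 2 * P (m + 1 + 1) (a + 1) + P (m + 1) (a + 2)) ≤ 0 := h
    linarith

/-- `taylor` for `-P (m+1)` with `c = 0` (for `m = 0`: `P 1 a = exp(-a)`, second derivative `P 1 ≥ 0`). -/
theorem P_sub (m : ℕ) {s p : ℝ} (hs : 0 ≤ s) (hp : 0 ≤ p) :
    (1 - p) * P (m + 1) s + p * P m (s + 1) ≤ P (m + 1) (s + p) := by
  have key : (fun x => -P (m + 1) x) (s + p) ≤ (fun x => -P (m + 1) x) s +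
      p * (-(-P (m + 1) s + P m (s + 1))) + 0 * p ^ 2 / 2 := by
    cases m with
    | zero =>
      refine taylor (f := fun x => -P (0 + 1) x) (f' := fun x => -(-P (0 + 1) x + P 0 (x + 1)))
        (f'' := fun x => -(-(-P (0 + 1) x + P 0 (x + 1)) + 0)) hp (fun x => (P_deriv 0 x).neg)
        (fun x => ((P_deriv 0 x).neg.add (CvxP_shift_zero 1 x)).neg) ?_
      intro x h1 _
      have h2 := P_nonneg 1 (show 0 ≤ x by linarith)
      simp only [P_zero, zero_add]
      linarith
    | succ m =>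
      refine taylor (f := fun x => -P (m + 1 + 1) x)
        (f' := fun x => -(-P (m + 1 + 1) x + P (m + 1) (x + 1)))
        (f'' := fun x => -(-(-P (m + 1 + 1) x + P (m + 1) (x + 1)) +
          (-P (m + 1) (x + 1) + P m (x + 1 + 1)))) hp (fun x => (P_deriv (m + 1) x).neg)
        (fun x => ((P_deriv (m + 1) x).neg.add (CvxP_shift m 1 x)).neg) ?_
      intro x h1 _
      have h2 := P_cvx m (show 0 ≤ x by linarith)
      have e1 : x + 1 + 1 = x + 2 := by ring
      have e3 : m + 1 + 1 = m + 2 := rfl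
      show -(-(-P (m + 1 + 1) x + P (m + 1) (x + 1)) + (-P (m + 1) (x + 1) + P m (x + 1 + 1))) ≤ 0
      rw [e1, e3]
      linarith
  simp only at key
  linarith

end Pool.Agent.Helper40.WT
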