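import Pool.Agent.Helper40.WT.CvxP

set_option autoImplicit false

namespace Pool.Agent.Helper40.WT

open Finset

/-- The second derivative of `F (j+1)`. -/
noncomputable def DD : ℕ → ℝ → ℝ
  | 0, a => F 1 a
  | (m + 1), a => F (m + 2) a - 2 * F (m + 1) (a + 1) + F m (a + 2)

/-- The derivative of `a ↦ F m (a + c)`. -/
private theorem DD_shift (m : ℕ) (c a : ℝ) :
    HasDerivAt (fun x => F (m + 1) (x + c)) (-F (m + 1) (a + c) + F m (a + c + 1)) a :=
  (F_deriv m (a + c)).comp_add_const a c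

private theorem DD_shift_zero (c a : ℝ) : HasDerivAt (fun x => F 0 (x + c)) 0 a := by
  have h : (fun x : ℝ => F 0 (x + c)) = fun _ => 0 := by
    funext x
    exact F_zero _
  rw [h]
  exact hasDerivAt_const a 0

theorem DD_deriv_zero (a : ℝ) : HasDerivAt (DD 0) (-DD 0 a) a := by
  have h1 : DD 0 = F (0 + 1) := by
    funext x
    rfl
  have h2 := F_deriv 0 a
  rw [F_zero, add_zero] at h2
  rw [h1]
  exact h2

/-- From `F_deriv` (chain rule for the shifts); `F 0 = 0`. -/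
theorem DD_deriv_succ (m : ℕ) (a : ℝ) :
    HasDerivAt (DD (m + 1)) (-DD (m + 1) a + DD m (a + 1)) a := by
  have h1 : DD (m + 1) = fun x => F (m + 2) x - 2 * F (m + 1) (x + 1) + F m (x + 2) := by
    funext x
    rfl
  rw [h1]
  cases m with
  | zero =>
    have h2 : HasDerivAt (fun x : ℝ => F (0 + 2) x - 2 * F (0 + 1) (x + 1) + F 0 (x + 2))
        ((-F (0 + 2) a + F (0 + 1) (a + 1)) - 2 * (-F (0 + 1) (a + 1) + F 0 (a + 1 + 1)) + 0) a :=
      ((F_deriv 1 a).sub ((DD_shift 0 1 a).const_mul 2)).add (DD_shift_zero 2 a)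
    convert h2 using 1
    show -(F (0 + 2) a - 2 * F (0 + 1) (a + 1) + F 0 (a + 2)) + F 1 (a + 1) = _
    rw [F_zero, F_zero]
    simp only [zero_add]
    ring
  | succ k =>
    have h2 : HasDerivAt
        (fun x : ℝ => F (k + 1 + 2) x - 2 * F (k + 1 + 1) (x + 1) + F (k + 1) (x + 2))
        ((-F (k + 1 + 2) a + F (k + 1 + 1) (a + 1)) -
          2 * (-F (k + 1 + 1) (a + 1) + F (k + 1) (a + 1 + 1)) +
          (-F (k + 1) (a + 2) + F k (a + 2 + 1))) a :=
      ((F_deriv (k + 2) a).sub ((DD_shift (k + 1) 1 a).const_mul 2)).add (DD_shift k 2 a)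
    convert h2 using 1
    show -(F (k + 1 + 2) a - 2 * F (k + 1 + 1) (a + 1) + F (k + 1) (a + 2)) +
      (F (k + 2) (a + 1) - 2 * F (k + 1) (a + 1 + 1) + F k (a + 1 + 2)) = _
    have e1 : a + 1 + 1 = a + 2 := by ring
    have e2 : a + 1 + 2 = a + 2 + 1 := by ring
    have e3 : k + 1 + 1 = k + 2 := rfl
    rw [e1, e2, e3]
    ring

/-- `m = 0`: `1 ≤ 2 - 2/e`; `m ≥ 1`: the difference is `P (m+2) 0 - 2 P (m+1) 1 + P m 2`
(shift of indices), `P_cvx` at `0`. -/
theorem DD_zero_mono (m : ℕ) : DD m 0 ≤ DD (m + 1) 0 := by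
  cases m with
  | zero =>
    show F 1 0 ≤ F 2 0 - 2 * F 1 (0 + 1) + F 0 (0 + 2)
    have h1 := F_at_zero 1
    have h2 := F_at_zero 2
    have h3 : F 1 (0 + 1) = Real.exp (-1) := by
      have e1 : F (0 + 1) (0 + 1) = F 0 (0 + 1) + P (0 + 1) (0 + 1) := F_succ 0 (0 + 1)
      have e2 : P (0 + 1) (0 + 1) = P 0 (0 + 1) + g 0 (0 + 1) := P_succ 0 (0 + 1)
      rw [F_zero, zero_add, e2, P_zero, zero_add, g_zero] at e1
      rw [zero_add] at e1
      simpa using e1
    have h4 : Real.exp (-1) ≤ 1 / 2 := by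
      rw [Real.exp_neg, ← one_div]
      apply one_div_le_one_div_of_le (by norm_num)
      have := Real.exp_one_gt_d9
      linarith
    rw [h1, h2, h3, F_zero]
    push_cast
    linarith
  | succ k =>
    show F (k + 2) 0 - 2 * F (k + 1) (0 + 1) + F k (0 + 2) ≤
      F (k + 1 + 2) 0 - 2 * F (k + 1 + 1) (0 + 1) + F (k + 1) (0 + 2)
    have h := P_cvx (k + 1) (le_refl (0 : ℝ))
    have e1 : F (k + 1 + 2) 0 = F (k + 2) 0 + P (k + 1 + 2) 0 := F_succ (k + 2) 0
    have e2 : F (k + 1 + 1) (0 + 1) = F (k + 1) (0 + 1) + P (k + 1 + 1) (0 + 1) :=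
      F_succ (k + 1) (0 + 1)
    have e3 : F (k + 1) (0 + 2) = F k (0 + 2) + P (k + 1) (0 + 2) := F_succ k (0 + 2)
    rw [e1, e2, e3]
    linarith

end Pool.Agent.Helper40.WT
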