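import Pool.Agent.Helper40.WT.DD
import Pool.Agent.Helper40.WT.Cmp

set_option autoImplicit false

namespace Pool.Agent.Helper40.WT

open Finset

private theorem DD2_F1 (a : ℝ) : F 1 a = Real.exp (-a) := by
  unfold F
  rw [Finset.sum_range_one, g_zero]
  simp

private theorem DD2_zero_nonneg (a : ℝ) : 0 ≤ DD 0 a := by
  have h : DD 0 a = F 1 a := rfl
  rw [h, DD2_F1]
  exact (Real.exp_pos _).le

private theorem DD2_mono {g g' : ℝ → ℝ} {u v : ℝ} (hg : ∀ a, HasDerivAt g (g' a) a)
    (h : ∀ a, u ≤ a → a ≤ v → 0 ≤ g' a) : ∀ a, u ≤ a → a ≤ v → g u ≤ g a := by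
  intro a h1 h2
  have hm : MonotoneOn g (Set.Icc u v) := by
    apply monotoneOn_of_deriv_nonneg (convex_Icc u v)
    · exact fun x _ => (hg x).continuousAt.continuousWithinAt
    · exact fun x _ => (hg x).differentiableAt.differentiableWithinAt
    · intro x hx
      rw [interior_Icc] at hx
      rw [(hg x).deriv]
      exact h x hx.1.le hx.2.le
  exact hm ⟨le_refl u, h1.trans h2⟩ ⟨h1, h2⟩ h1

private theorem DD2_shift {f f' : ℝ → ℝ} (hf : ∀ a, HasDerivAt f (f' a) a) (a : ℝ) :
    HasDerivAt (fun x => f (x + 1)) (f' (a + 1)) a := by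
  have h := (hf (a + 1)).comp_add_const a 1
  exact h

/-- Induction, `cmp` for `DD m v - DD m 0`. -/
theorem DD_le (m : ℕ) {v : ℝ} (hv : 0 ≤ v) : DD m v ≤ DD m 0 := by
  induction m generalizing v with
  | zero =>
    have h1 := cmp (f := fun x => DD 0 x - DD 0 0) (f' := fun x => -DD 0 x) (A := v)
      (fun a => (DD_deriv_zero a).sub_const _) (by simp)
      (fun a _ _ => by
        have := DD2_zero_nonneg 0
        linarith) v hv le_rfl
    linarith
  | succ m ih =>
    have h1 := cmp (f := fun x => DD (m + 1) x - DD (m + 1) 0)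
      (f' := fun x => -DD (m + 1) x + DD m (x + 1)) (A := v)
      (fun a => (DD_deriv_succ m a).sub_const _) (by simp)
      (fun a ha _ => by
        have h2 := ih (v := a + 1) (by linarith)
        have h3 := DD_zero_mono m
        linarith) v hv le_rfl
    linarith

/-- Induction, `cmp` for `DD m (a+1) - DD (m+1) a` (at `a = 0`: `DD m 1 ≤ DD m 0 ≤ DD (m+1) 0`). For
`m = 0` the function `f a = DD 0 (a+1) - DD 1 a` has `f' + f = - DD 0 (a+1) ≤ 0`. -/
theorem DD_shift_nonneg (m : ℕ) {a : ℝ} (ha : 0 ≤ a) : DD m (a + 1) ≤ DD (m + 1) a := by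
  have h0 : ∀ m, DD m (0 + 1) - DD (m + 1) 0 ≤ 0 := by
    intro m
    have h1 := DD_le m (v := 0 + 1) (by norm_num)
    have h2 := DD_zero_mono m
    linarith
  induction m generalizing a with
  | zero =>
    have h1 := cmp (f := fun x => DD 0 (x + 1) - DD (0 + 1) x)
      (f' := fun x => -DD 0 (x + 1) - (-DD (0 + 1) x + DD 0 (x + 1))) (A := a)
      (fun b => (DD2_shift (f := DD 0) (f' := fun x => -DD 0 x) DD_deriv_zero b).sub
        (DD_deriv_succ 0 b)) (h0 0)
      (fun b _ _ => by
        have := DD2_zero_nonneg (b + 1)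
        linarith) a ha le_rfl
    linarith
  | succ m ih =>
    have h1 := cmp (f := fun x => DD (m + 1) (x + 1) - DD (m + 1 + 1) x)
      (f' := fun x => (-DD (m + 1) (x + 1) + DD m (x + 1 + 1)) -
        (-DD (m + 1 + 1) x + DD (m + 1) (x + 1))) (A := a)
      (fun b => (DD2_shift (f := DD (m + 1)) (f' := fun x => -DD (m + 1) x + DD m (x + 1))
        (DD_deriv_succ m) b).sub (DD_deriv_succ (m + 1) b)) (h0 (m + 1))
      (fun b hb _ => by
        have := ih (a := b + 1) (by linarith)
        linarith) a ha le_rfl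
    linarith

/-- For `-1 ≤ a ≤ 0`: `u ↦ exp(u) (DD (m+1) u - DD m 0)` has the derivative
`exp(u) (DD m (u+1) - DD m 0) ≤ 0` on `[a, 0]` and is `≥ 0` at `0`; so `DD (m+1) a ≥ DD m 0 ≥
DD m (a+1)`. -/
theorem DD_shift_neg (m : ℕ) {a : ℝ} (ha : -1 ≤ a) (ha0 : a ≤ 0) :
    DD m (a + 1) ≤ DD (m + 1) a := by
  have hd : ∀ x : ℝ, HasDerivAt (fun y => -(Real.exp y * (DD (m + 1) y - DD m 0)))
      (-(Real.exp x * (DD (m + 1) x - DD m 0) +
        Real.exp x * (-DD (m + 1) x + DD m (x + 1)))) x :=
    fun x => ((Real.hasDerivAt_exp x).mul ((DD_deriv_succ m x).sub_const _)).neg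
  have h1 := DD2_mono (u := a) (v := 0) hd (fun x hx _ => by
    have h2 := DD_le m (v := x + 1) (by linarith)
    have h3 : Real.exp x * (DD (m + 1) x - DD m 0) +
        Real.exp x * (-DD (m + 1) x + DD m (x + 1)) =
        Real.exp x * (DD m (x + 1) - DD m 0) := by ring
    rw [h3]
    have h4 := mul_nonpos_of_nonneg_of_nonpos (Real.exp_pos x).le (sub_nonpos.2 h2)
    linarith) 0 ha0 le_rfl
  simp only [Real.exp_zero, one_mul] at h1
  have h5 := DD_zero_mono m
  have h6 : 0 ≤ Real.exp a * (DD (m + 1) a - DD m 0) := by linarith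
  have h7 : 0 ≤ DD (m + 1) a - DD m 0 := nonneg_of_mul_nonneg_right h6 (Real.exp_pos a)
  have h8 := DD_le m (v := a + 1) (by linarith)
  linarith

/-- The derivative is `≤ 0` on `[-1, ∞)`. -/
theorem DD_anti (m : ℕ) {a c : ℝ} (ha : -1 ≤ a) (hac : a ≤ c) : DD m c ≤ DD m a := by
  cases m with
  | zero =>
    have h1 := DD2_mono (g := fun x => -DD 0 x) (g' := fun x => -(-DD 0 x)) (u := a) (v := c)
      (fun x => (DD_deriv_zero x).neg) (fun x _ _ => by
        rw [neg_neg]
        exact DD2_zero_nonneg x) c hac le_rfl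
    linarith
  | succ m =>
    have h1 := DD2_mono (g := fun x => -DD (m + 1) x)
      (g' := fun x => -(-DD (m + 1) x + DD m (x + 1))) (u := a) (v := c)
      (fun x => (DD_deriv_succ m x).neg) (fun x hx _ => by
        have h2 : DD m (x + 1) ≤ DD (m + 1) x := by
          rcases le_total 0 x with h | h
          · exact DD_shift_nonneg m h
          · exact DD_shift_neg m (by linarith) h
        linarith) c hac le_rfl
    linarith

end Pool.Agent.Helper40.WT
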