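import Pool.Agent.Helper40.WC.Sqrt

/-!
# MP_c8f8f3_co, project WT: the upper bound for k = 2, 3, definitions
-/

set_option autoImplicit false

namespace Pool.Agent.Helper40.WT

/-- The expected number of centre rounds: `W r m`, `r` = remaining pairs / b, `m` = missing degree. -/
noncomputable def W (r : ℝ) : ℕ → ℝ
  | 0 => 0
  | 1 => Real.exp (-(r - 1))
  | 2 => 2 * Real.exp (-(r - 2)) + (r - 2) * Real.exp (-(r - 1))
  | 3 => 3 * Real.exp (-(r - 3)) + 2 * (r - 3) * Real.exp (-(r - 2)) +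
      (r - 3) * (r - 1) / 2 * Real.exp (-(r - 1))
  | _ => 0

theorem W_zero (r : ℝ) : W r 0 = 0 := rfl
theorem W_one (r : ℝ) : W r 1 = Real.exp (-(r - 1)) := rfl
theorem W_two (r : ℝ) : W r 2 = 2 * Real.exp (-(r - 2)) + (r - 2) * Real.exp (-(r - 1)) := rfl
theorem W_three (r : ℝ) : W r 3 = 3 * Real.exp (-(r - 3)) + 2 * (r - 3) * Real.exp (-(r - 2)) +
      (r - 3) * (r - 1) / 2 * Real.exp (-(r - 1)) := rfl

end Pool.Agent.Helper40.WT
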