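import Pool.Agent.Helper40.WT.Qb

set_option autoImplicit false

namespace Pool.Agent.Helper40.WT

open Finset

/-- `t i = i^(i-2) exp(-i) / i!`; here `tt i` is `t (i+1)`. -/
noncomputable def tt (i : ℕ) : ℝ :=
  ((i : ℝ) + 1) ^ i / ((i : ℝ) + 1) * Real.exp (-((i : ℝ) + 1)) / (i + 1).factorial

theorem tt_nonneg (i : ℕ) : 0 ≤ tt i := by
  unfold tt
  positivity

/-- `g i 1 = (i+1) t(i+1)`. -/
theorem g_one (i : ℕ) : g i 1 = ((i : ℝ) + 1) * tt i := by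
  rcases i with _ | j
  · rw [g_zero]
    unfold tt
    norm_num
  · rw [g_succ]
    unfold tt
    have h1 : ((j + 1 + 1).factorial : ℝ) = ((j : ℝ) + 1 + 1) * ((j + 1).factorial : ℝ) := by
      rw [Nat.factorial_succ (j + 1)]
      push_cast
      ring
    rw [h1]
    have h2 : ((j + 1).factorial : ℝ) ≠ 0 := by positivity
    have h3 : (j : ℝ) + 1 + 1 ≠ 0 := by positivity
    have h4 : (1 : ℝ) + ((j : ℝ) + 1) = (j : ℝ) + 1 + 1 := by ring
    rw [h4]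
    push_cast
    generalize Real.exp (-((j : ℝ) + 1 + 1)) = E
    rw [pow_succ ((j : ℝ) + 1 + 1) j]
    field_simp

/-- `g i 2 = 2 (i+1) t(i+2)`. -/
theorem g_two (i : ℕ) : g i 2 = 2 * ((i : ℝ) + 1) * tt (i + 1) := by
  rcases i with _ | j
  · rw [g_zero]
    unfold tt
    norm_num
    ring
  · rw [g_succ]
    unfold tt
    have h1 : ((j + 1 + 1 + 1).factorial : ℝ) =
        ((j : ℝ) + 1 + 1 + 1) * (((j : ℝ) + 1 + 1) * ((j + 1).factorial : ℝ)) := by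
      rw [Nat.factorial_succ (j + 1 + 1), Nat.factorial_succ (j + 1)]
      push_cast
      ring
    rw [h1]
    have h2 : ((j + 1).factorial : ℝ) ≠ 0 := by positivity
    have h3 : (j : ℝ) + 1 + 1 ≠ 0 := by positivity
    have h3' : (j : ℝ) + 1 + 1 + 1 ≠ 0 := by positivity
    have h4 : (2 : ℝ) + ((j : ℝ) + 1) = (j : ℝ) + 1 + 1 + 1 := by ring
    rw [h4]
    push_cast
    generalize Real.exp (-((j : ℝ) + 1 + 1 + 1)) = E
    rw [pow_succ ((j : ℝ) + 1 + 1 + 1) (j + 1), pow_succ ((j : ℝ) + 1 + 1 + 1) j]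
    field_simp

/-- `(m+2) - 2 F (m+1) 1 + F m 2 = (m+2) - 2 ∑_{i ≤ m} (m+1-i) tt i`. -/
theorem d_eq (m : ℕ) : (m : ℝ) + 2 - 2 * F (m + 1) 1 + F m 2 =
    (m : ℝ) + 2 - 2 * ∑ i ∈ range (m + 1), ((m : ℝ) + 1 - i) * tt i := by
  have h1 : F (m + 1) 1 = ∑ i ∈ range (m + 1), ((m : ℝ) + 1 - i) * (((i : ℝ) + 1) * tt i) := by
    unfold F
    refine Finset.sum_congr rfl fun i _ => ?_
    rw [g_one]
    push_cast
    ring
  have h2 : F m 2 = 2 * ∑ i ∈ range (m + 1), ((m : ℝ) + 1 - i) * ((i : ℝ) * tt i) := by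
    rw [Finset.sum_range_succ']
    unfold F
    rw [mul_add, Finset.mul_sum]
    have h3 : ((m : ℝ) + 1 - ((0 : ℕ) : ℝ)) * (((0 : ℕ) : ℝ) * tt 0) = 0 := by
      rw [Nat.cast_zero]
      ring
    rw [h3, mul_zero, add_zero]
    refine Finset.sum_congr rfl fun i _ => ?_
    rw [g_two]
    push_cast
    ring
  have h3 : ∑ i ∈ range (m + 1), ((m : ℝ) + 1 - i) * (((i : ℝ) + 1) * tt i) =
      ∑ i ∈ range (m + 1), ((m : ℝ) + 1 - i) * ((i : ℝ) * tt i) +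
        ∑ i ∈ range (m + 1), ((m : ℝ) + 1 - i) * tt i := by
    rw [← Finset.sum_add_distrib]
    refine Finset.sum_congr rfl fun i _ => ?_
    ring
  rw [h1, h2, h3]
  ring

/-- `∑_{i<N} (i+1) tt i = P N 1 ≤ 1`. -/
theorem sum_b (N : ℕ) : ∑ i ∈ range N, ((i : ℝ) + 1) * tt i = P N 1 := by
  unfold P
  exact Finset.sum_congr rfl fun i _ => (g_one i).symm

/-- From `P N 2 ≤ 1`: `2 ∑_{i<N+1} i tt i ≤ 1`, so `∑_{i<N+1} tt i ≥ P (N+1) 1 - 1/2`. -/
theorem sum_t (N : ℕ) : P (N + 1) 1 - 1 / 2 ≤ ∑ i ∈ range (N + 1), tt i := by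
  have h1 : P (N + 1) 1 = ∑ i ∈ range (N + 1), ((i : ℝ) * tt i) +
      ∑ i ∈ range (N + 1), tt i := by
    rw [← sum_b, ← Finset.sum_add_distrib]
    refine Finset.sum_congr rfl fun i _ => ?_
    ring
  have h2 : P N 2 = 2 * ∑ i ∈ range (N + 1), ((i : ℝ) * tt i) := by
    rw [Finset.sum_range_succ']
    unfold P
    rw [mul_add, Finset.mul_sum]
    have h3 : ((0 : ℕ) : ℝ) * tt 0 = 0 := by
      rw [Nat.cast_zero, zero_mul]
    rw [h3, mul_zero, add_zero]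
    refine Finset.sum_congr rfl fun i _ => ?_
    rw [g_two]
    push_cast
    ring
  have h3 : P N 2 ≤ 1 := P_le_one N (by norm_num)
  linarith

/-- For `n = m+2` and `N` large: `n ≤ 2 n ∑_{i<N} tt i + 2 n ε`, hence
`n - 2 ∑_{i<n-1} (n-1-i) tt i ≤ 2 n ε + 2 ∑_{i<N} (i+1) tt i ≤ 2 n ε + 2`. -/
theorem D_zero_le (m : ℕ) : (m : ℝ) + 2 - 2 * F (m + 1) 1 + F m 2 ≤ 2 := by
  rw [d_eq]
  have hkey : ∀ N, m ≤ N → ∑ i ∈ range (N + 1), ((m : ℝ) + 2) * tt i ≤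
      ∑ i ∈ range (m + 1), ((m : ℝ) + 1 - i) * tt i +
        ∑ i ∈ range (N + 1), ((i : ℝ) + 1) * tt i := by
    intro N hN
    induction N, hN using Nat.le_induction with
    | base =>
      rw [← Finset.sum_add_distrib]
      refine le_of_eq (Finset.sum_congr rfl fun i _ => ?_)
      ring
    | succ N hN ih =>
      rw [Finset.sum_range_succ _ (N + 1), Finset.sum_range_succ _ (N + 1)]
      have h1 : ((m : ℝ) + 2) * tt (N + 1) ≤ (((N + 1 : ℕ) : ℝ) + 1) * tt (N + 1) := by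
        refine mul_le_mul_of_nonneg_right ?_ (tt_nonneg _)
        have h2 : (m : ℝ) ≤ N := by exact_mod_cast hN
        push_cast
        linarith
      linarith
  refine le_of_forall_pos_le_add fun δ hδ => ?_
  have hm0 : (0 : ℝ) < (m : ℝ) + 2 := by positivity
  obtain ⟨N0, hN0⟩ := P_one_lim (ε := δ / (2 * ((m : ℝ) + 2))) (by positivity)
  obtain ⟨N, hN⟩ : ∃ N, N = max N0 m := ⟨_, rfl⟩
  have h1 := hN0 (N + 1) (by rw [hN]; exact (le_max_left _ _).trans (Nat.le_succ _))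
  have h2 := sum_t N
  have h3 := hkey N (by rw [hN]; exact le_max_right _ _)
  rw [sum_b, ← Finset.mul_sum] at h3
  have h4 : P (N + 1) 1 ≤ 1 := P_le_one (N + 1) (by norm_num)
  have h5 : 1 / 2 - δ / (2 * ((m : ℝ) + 2)) ≤ ∑ i ∈ range (N + 1), tt i := by linarith
  have h6 := mul_le_mul_of_nonneg_left h5 hm0.le
  have h7 : ((m : ℝ) + 2) * (1 / 2 - δ / (2 * ((m : ℝ) + 2))) = ((m : ℝ) + 2) / 2 - δ / 2 := by
    field_simp
  rw [h7] at h6
  linarith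

end Pool.Agent.Helper40.WT
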