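import Pool.Agent.Helper40.WT.BorF
import Pool.Agent.Helper40.WT.Cmp

set_option autoImplicit false

namespace Pool.Agent.Helper40.WT

open Finset

/-- Induction on `m`: `f = P (m+1) - 1` has `f' + f = P m (a+1) - 1 ≤ 0`, `f 0 = 0`; use `cmp`. -/
theorem P_le_one (m : ℕ) {a : ℝ} (ha : 0 ≤ a) : P m a ≤ 1 := by
  induction m generalizing a with
  | zero =>
    rw [P_zero]
    norm_num
  | succ m ih =>
    have h := cmp (f := fun x => P (m + 1) x - 1) (f' := fun x => -P (m + 1) x + P m (x + 1))
      (A := a) (fun x => (P_deriv m x).sub_const 1)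
      (by
        show P (m + 1) 0 - 1 ≤ 0
        rw [P_at_zero]
        norm_num)
      (fun x hx _ => by
        have h1 := ih (a := x + 1) (by linarith)
        show -P (m + 1) x + P m (x + 1) + (P (m + 1) x - 1) ≤ 0
        linarith) a ha le_rfl
    have h2 : P (m + 1) a - 1 ≤ 0 := h
    linarith

theorem P_nonneg (m : ℕ) {a : ℝ} (ha : 0 ≤ a) : 0 ≤ P m a :=
  Finset.sum_nonneg fun j _ => g_nonneg j ha

theorem P_mono {m M : ℕ} (h : m ≤ M) {a : ℝ} (ha : 0 ≤ a) : P m a ≤ P M a := by
  unfold P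
  exact Finset.sum_le_sum_of_subset_of_nonneg (Finset.range_mono h)
    fun j _ _ => g_nonneg j ha

theorem F_le (m : ℕ) {a : ℝ} (ha : 0 ≤ a) : F m a ≤ m := by
  induction m with
  | zero =>
    rw [F_zero]
    norm_num
  | succ m ih =>
    have h1 := P_le_one (m + 1) ha
    rw [F_succ]
    push_cast
    linarith

theorem F_nonneg (m : ℕ) {a : ℝ} (ha : 0 ≤ a) : 0 ≤ F m a := by
  induction m with
  | zero => rw [F_zero]
  | succ m ih =>
    have h1 := P_nonneg (m + 1) ha
    rw [F_succ]
    linarith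

/-- `F M ≤ M P M` (as `F M = ∑_{l ≤ M} P l` and `P l ≤ P M`). -/
theorem F_le_mul (M : ℕ) {a : ℝ} (ha : 0 ≤ a) : F M a ≤ M * P M a := by
  induction M with
  | zero =>
    rw [F_zero]
    norm_num
  | succ M ih =>
    have h1 := P_mono (Nat.le_succ M) ha
    have h2 : (0 : ℝ) ≤ M := Nat.cast_nonneg M
    have h3 : (M : ℝ) * P M a ≤ M * P (M + 1) a := mul_le_mul_of_nonneg_left h1 h2
    rw [F_succ]
    push_cast
    linarith

/-- `G m a = F m (a+1) - F (m+1) a` satisfies `G' + G = G (m-1) (a+1)`, `G 0 ≤ 0`. -/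
theorem F_shift (m : ℕ) {a : ℝ} (ha : 0 ≤ a) : F m (a + 1) ≤ F (m + 1) a := by
  induction m generalizing a with
  | zero =>
    rw [F_zero]
    exact F_nonneg 1 ha
  | succ m ih =>
    have hd : ∀ x : ℝ, HasDerivAt (fun x => F (m + 1) (x + 1) - F (m + 1 + 1) x)
        ((-F (m + 1) (x + 1) + F m (x + 1 + 1)) -
          (-F (m + 1 + 1) x + F (m + 1) (x + 1))) x := by
      intro x
      have h1 : HasDerivAt (fun x => F (m + 1) (x + 1))
          (-F (m + 1) (x + 1) + F m (x + 1 + 1)) x := by
        have h2 := (F_deriv m (x + 1)).comp_add_const x 1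
        exact h2
      exact h1.sub (F_deriv (m + 1) x)
    have h := cmp (A := a) hd
      (by
        show F (m + 1) (0 + 1) - F (m + 1 + 1) 0 ≤ 0
        rw [F_at_zero]
        have h1 := F_le (m + 1) (a := 0 + 1) (by norm_num)
        push_cast at h1 ⊢
        linarith)
      (fun x hx _ => by
        have h1 := ih (a := x + 1) (by linarith)
        show (-F (m + 1) (x + 1) + F m (x + 1 + 1)) -
          (-F (m + 1 + 1) x + F (m + 1) (x + 1)) + (F (m + 1) (x + 1) - F (m + 1 + 1) x) ≤ 0
        linarith) a ha le_rfl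
    have h2 : F (m + 1) (a + 1) - F (m + 1 + 1) a ≤ 0 := h
    linarith

/-- `F (m+1)` is antitone on `[0, ∞)`, as the derivative is `F m (a+1) - F (m+1) a ≤ 0`. -/
theorem F_anti (m : ℕ) {a c : ℝ} (ha : 0 ≤ a) (hac : a ≤ c) : F m c ≤ F m a := by
  cases m with
  | zero => rw [F_zero, F_zero]
  | succ m =>
    have h : AntitoneOn (F (m + 1)) (Set.Ici 0) := by
      apply antitoneOn_of_deriv_nonpos (convex_Ici 0)
      · exact fun x _ => (F_deriv m x).continuousAt.continuousWithinAt
      · exact fun x _ => (F_deriv m x).differentiableAt.differentiableWithinAt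
      · intro x hx
        rw [interior_Ici] at hx
        rw [(F_deriv m x).deriv]
        have h1 := F_shift m (a := x) (le_of_lt hx)
        linarith
    exact h ha (ha.trans hac) hac

end Pool.Agent.Helper40.WT
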