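import Pool.Agent.Helper40.WT.LamA
import Pool.Agent.Helper40.WT.Ple

set_option autoImplicit false

namespace Pool.Agent.Helper40.WT

open Finset

private theorem lb_P_one (a : ℝ) : P 1 a = Real.exp (-a) := by
  have h : P 1 a = P 0 a + g 0 a := P_succ 0 a
  rw [h, P_zero, g_zero, zero_add]

private theorem lb_F_one (a : ℝ) : F 1 a = Real.exp (-a) := by
  have h : F 1 a = F 0 a + P 1 a := F_succ 0 a
  rw [h, F_zero, zero_add, lb_P_one]

private theorem lb_g_one (a : ℝ) : g 1 a = a * (Real.exp (-a) * Real.exp (-1)) := by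
  have h := g_succ 0 a
  rw [← Real.exp_add]
  have h2 : -(a + ((0 : ℕ) + 1 : ℝ)) = -a + -1 := by
    push_cast
    ring
  rw [h2] at h
  simpa using h

private theorem lb_P_two (a : ℝ) :
    P 2 a = Real.exp (-a) + a * (Real.exp (-a) * Real.exp (-1)) := by
  have h := P_succ 1 a
  rw [lb_P_one, lb_g_one] at h
  exact h

private theorem lb_F_two (a : ℝ) :
    F 2 a = 2 * Real.exp (-a) + a * (Real.exp (-a) * Real.exp (-1)) := by
  have h := F_succ 1 a
  have h2 := lb_P_two a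
  have h3 : P (1 + 1) a = P 2 a := rfl
  rw [lb_F_one, h3, h2] at h
  have h4 : F (1 + 1) a = F 2 a := rfl
  rw [h4] at h
  rw [h]
  ring

private theorem lb_one {s p : ℝ} (h0 : 0 ≤ p) (h1 : p ≤ 1) :
    F 1 (s + p) - p ^ 2 * P 1 (s + p) ≤ (1 - p) * F 1 s := by
  rw [lb_F_one, lb_P_one, lb_F_one, neg_add, Real.exp_add]
  have h2 := mul_le_mul_of_nonneg_left (lam_one h0 h1) (Real.exp_pos (-s)).le
  linarith

/-- For `m = 1, 2` (`F 0 = 0`, `P 1 a = F 1 a = exp(-a)`, `F 2 a = 2 exp(-a) + a exp(-a-1)`,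
`P 2 a = exp(-a) + a exp(-a-1)`): for fixed `p` the function
`f s = F m (s+p) - p^2 P m (s+p) - (1-p) F m s - p F (m-1) (s+1)` satisfies
`f_m' + f_m = f_{m-1} (s+1)` (`F_deriv`, `P_deriv`, chain rule) and `f_m 0 ≤ 0` by `lam_one`,
`lam_two`; use `cmp` (first `m = 1`, then `m = 2`). For `m = 1` one can also divide by `exp(-s)`. -/
theorem loss_two (m : ℕ) (hm1 : 1 ≤ m) (hm : m ≤ 2) {s p : ℝ} (hs : 0 ≤ s) (h0 : 0 ≤ p)
    (h1 : p ≤ 1) :
    F m (s + p) - p ^ 2 * P m (s + p) ≤ (1 - p) * F m s + p * F (m - 1) (s + 1) := by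
  have hm12 : m = 1 ∨ m = 2 := by omega
  rcases hm12 with rfl | rfl
  · have h2 := lb_one (s := s) h0 h1
    rw [show 1 - 1 = 0 by rfl, F_zero, mul_zero, add_zero]
    exact h2
  · rw [show 2 - 1 = 1 by rfl]
    have hf : ∀ x : ℝ, HasDerivAt
        (fun x : ℝ => F 2 (x + p) - p ^ 2 * P 2 (x + p) - (1 - p) * F 2 x - p * F 1 (x + 1))
        ((-F 2 (x + p) + F 1 (x + p + 1)) - p ^ 2 * (-P 2 (x + p) + P 1 (x + p + 1)) -
          (1 - p) * (-F 2 x + F 1 (x + 1)) - p * (-F 1 (x + 1) + F 0 (x + 1 + 1))) x := by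
      intro x
      exact (((((F_deriv 1 (x + p)).comp_add_const x p).sub
        (((P_deriv 1 (x + p)).comp_add_const x p).const_mul (p ^ 2))).sub
        ((F_deriv 1 x).const_mul (1 - p))).sub
        (((F_deriv 0 (x + 1)).comp_add_const x 1).const_mul p))
    have hz : F 2 (0 + p) - p ^ 2 * P 2 (0 + p) - (1 - p) * F 2 0 - p * F 1 (0 + 1) ≤ 0 := by
      have h2 := lam_two h0 h1
      rw [zero_add, zero_add, lb_F_two, lb_P_two, lb_F_two, lb_F_one, neg_zero, Real.exp_zero]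
      linarith
    have h := cmp (A := s) hf hz (by
      intro x hx0 _
      have h2 := lb_one (s := x + 1) h0 h1
      have e1 : x + 1 + p = x + p + 1 := by ring
      rw [e1] at h2
      rw [F_zero]
      linarith) s hs le_rfl
    have h3 : F 2 (s + p) - p ^ 2 * P 2 (s + p) - (1 - p) * F 2 s - p * F 1 (s + 1) ≤ 0 := h
    linarith

end Pool.Agent.Helper40.WT
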