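import Pool.Agent.Helper40.WT.BorDefs

set_option autoImplicit false

namespace Pool.Agent.Helper40.WT

open Finset

private theorem numK_exp45 : (0.6375 : ℝ) ≤ Real.exp (-0.45) := by
  have h1 : Real.exp 0.45 ≤ 1.5686 := by
    have h := Real.exp_bound' (x := 0.45) (by norm_num) (by norm_num) (n := 7) (by norm_num)
    refine h.trans ?_
    norm_num [Finset.sum_range_succ, Nat.factorial]
  rw [Real.exp_neg]
  rw [le_inv_comm₀ (by norm_num) (Real.exp_pos _)]
  exact h1.trans (by norm_num)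

private theorem numK_exp65 : (0.522 : ℝ) ≤ Real.exp (-0.65) := by
  have h1 : Real.exp 0.65 ≤ 1.9156 := by
    have h := Real.exp_bound' (x := 0.65) (by norm_num) (by norm_num) (n := 8) (by norm_num)
    refine h.trans ?_
    norm_num [Finset.sum_range_succ, Nat.factorial]
  rw [Real.exp_neg]
  rw [le_inv_comm₀ (by norm_num) (Real.exp_pos _)]
  exact h1.trans (by norm_num)

private theorem numK_low {a b e : ℝ} (hab : a ≤ b) (he0 : 0 ≤ e) (he : e ≤ Real.exp (-b)) :
    (1 + b - a) * e ≤ Real.exp (-a) := by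
  have h1 : Real.exp (-a) = Real.exp (b - a) * Real.exp (-b) := by
    rw [← Real.exp_add]
    congr 1
    ring
  have h2 : 1 + b - a ≤ Real.exp (b - a) := by
    have := Real.add_one_le_exp (b - a)
    linarith
  rw [h1]
  exact mul_le_mul h2 he he0 (Real.exp_pos _).le

/-- `F 1 a = P 1 a = exp(-a)`. With `E = exp(-a)`: the left side is `E ((1+a) E - 2a)`; for
`a ≤ 0.45` it is at least `0.0156`. -/
theorem numK_one {a : ℝ} (h0 : 0 ≤ a) (ha : a ≤ 0.45) :
    0.015 ≤ 2 * F 1 a - (1 + a) * (1 - (1 - P 1 a) ^ 2) := by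
  have hF : F 1 a = Real.exp (-a) := by
    unfold F
    rw [sum_range_one, g_zero]
    norm_num
  have hP : P 1 a = Real.exp (-a) := by
    unfold P
    rw [sum_range_one, g_zero]
  have hl := numK_low ha (by norm_num) numK_exp45
  rw [hF, hP]
  generalize Real.exp (-a) = E at hl ⊢
  have e1 : 2 * E - (1 + a) * (1 - (1 - E) ^ 2) = E * ((1 + a) * E - 2 * a) := by ring
  rw [e1]
  have h1 : 0.6375 ≤ E := by nlinarith
  have h2 : 0.924375 ≤ (1 + a) * E := by
    have h3 : (1 + a) * ((1 + 0.45 - a) * 0.6375) ≤ (1 + a) * E :=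
      mul_le_mul_of_nonneg_left hl (by linarith)
    have h4 : 0 ≤ a * (0.45 - a) := mul_nonneg h0 (by linarith)
    nlinarith
  have h3 : 0.024375 ≤ (1 + a) * E - 2 * a := by linarith
  calc (0.015 : ℝ) ≤ 0.6375 * 0.024375 := by norm_num
    _ ≤ E * ((1 + a) * E - 2 * a) := mul_le_mul h1 h3 (by norm_num) (by linarith)

/-- `F 2 a = E (2 + a c)`, `P 2 a = E (1 + a c)`, `E = exp(-a)`, `c = exp(-1)`. The left side is
`E ((2+a) (1+ac)^2 E - 2a (1+c+ac))`; for `a ≤ 0.65` it is at least `0.018`; use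
`E ≥ 1 - a + a^2/2 - a^3/6` inside and `E ≥ 0.52` outside. -/
theorem numK_two {a : ℝ} (h0 : 0 ≤ a) (ha : a ≤ 0.65) :
    0.015 ≤ 2 * F 2 a - (2 + a) * (1 - (1 - P 2 a) ^ 2) := by
  have hg : g 1 a = a * (Real.exp (-a) * Real.exp (-1)) := by
    have h := g_succ 0 a
    rw [zero_add] at h
    rw [h, ← Real.exp_add]
    norm_num
    left
    ring
  have hF : F 2 a = Real.exp (-a) * (2 + a * Real.exp (-1)) := by
    unfold F
    rw [sum_range_succ, sum_range_one, g_zero, hg]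
    push_cast
    ring
  have hP : P 2 a = Real.exp (-a) * (1 + a * Real.exp (-1)) := by
    unfold P
    rw [sum_range_succ, sum_range_one, g_zero, hg]
    ring
  have hl := numK_low ha (by norm_num) numK_exp65
  have hc0 : (0.3678 : ℝ) ≤ Real.exp (-1) := by
    have := Real.exp_neg_one_gt_d9
    linarith
  have hc1 : Real.exp (-1) ≤ (0.3679 : ℝ) := by
    have := Real.exp_neg_one_lt_d9
    linarith
  rw [hF, hP]
  generalize Real.exp (-a) = E at hl ⊢
  generalize Real.exp (-1) = c at hc0 hc1 ⊢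
  have e1 : 2 * (E * (2 + a * c)) - (2 + a) * (1 - (1 - E * (1 + a * c)) ^ 2) =
      E * ((2 + a) * (1 + a * c) ^ 2 * E - 2 * a * (1 + c + a * c)) := by ring
  rw [e1]
  have h1 : 0.522 ≤ E := by nlinarith
  have a2 : a ^ 2 ≤ 0.4225 := by nlinarith
  have a2' : 0 ≤ a ^ 2 := sq_nonneg a
  have a3 : a ^ 3 ≤ 0.274625 := by
    have : a ^ 3 = a ^ 2 * a := by ring
    rw [this]
    calc a ^ 2 * a ≤ 0.4225 * 0.65 := mul_le_mul a2 ha h0 (by norm_num)
      _ = 0.274625 := by norm_num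
  have a4 : a ^ 4 ≤ 0.17850625 := by
    have : a ^ 4 = a ^ 2 * a ^ 2 := by ring
    rw [this]
    calc a ^ 2 * a ^ 2 ≤ 0.4225 * 0.4225 := mul_le_mul a2 a2 a2' (by norm_num)
      _ = 0.17850625 := by norm_num
  have h2 : (1 + a * 0.3678) ^ 2 ≤ (1 + a * c) ^ 2 := by
    have h3 : a * 0.3678 ≤ a * c := mul_le_mul_of_nonneg_left hc0 h0
    exact pow_le_pow_left₀ (by positivity) (by linarith) 2
  have h3 : (2 + a) * (1 + a * 0.3678) ^ 2 * ((1 + 0.65 - a) * 0.522) ≤
      (2 + a) * (1 + a * c) ^ 2 * E := by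
    refine mul_le_mul (mul_le_mul_of_nonneg_left h2 (by linarith)) hl ?_ (by positivity)
    exact mul_nonneg (by linarith) (by norm_num)
  have h4 : 2 * a * (1 + c + a * c) ≤ 2 * a * (1 + 0.3679 + a * 0.3679) := by
    refine mul_le_mul_of_nonneg_left ?_ (by linarith)
    have : a * c ≤ a * 0.3679 := mul_le_mul_of_nonneg_left hc1 h0
    linarith
  have h5 : 0.0288 ≤ (2 + a) * (1 + a * c) ^ 2 * E - 2 * a * (1 + c + a * c) := by
    have h6 : (2 + a) * (1 + a * 0.3678) ^ 2 * ((1 + 0.65 - a) * 0.522) -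
        2 * a * (1 + 0.3679 + a * 0.3679) =
        1.7226 + (0.522 * (3.3 * 0.7356 - 0.35) - 2.7358) * a +
        (0.522 * (3.3 * 0.3678 ^ 2 - 0.35 * 0.7356 - 1) - 0.7358) * a ^ 2 +
        0.522 * (-0.35 * 0.3678 ^ 2 - 0.7356) * a ^ 3 + 0.522 * (-(0.3678 ^ 2)) * a ^ 4 := by
      ring
    have h7 : 0 ≤ a ^ 3 := by positivity
    have h8 : 0 ≤ a ^ 4 := by positivity
    nlinarith
  calc (0.015 : ℝ) ≤ 0.522 * 0.0288 := by norm_num
    _ ≤ E * ((2 + a) * (1 + a * c) ^ 2 * E - 2 * a * (1 + c + a * c)) :=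
      mul_le_mul h1 h5 (by norm_num) (by linarith)

end Pool.Agent.Helper40.WT
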