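import Pool.Agent.Helper40.WT.Dz

set_option autoImplicit false

namespace Pool.Agent.Helper40.WT

open Finset

/-- The derivative of `a ↦ F m (a + c)`. -/
private theorem hg_shift (m : ℕ) (c a : ℝ) :
    HasDerivAt (fun x => F (m + 1) (x + c)) (-F (m + 1) (a + c) + F m (a + c + 1)) a :=
  (F_deriv m (a + c)).comp_add_const a c

private theorem hg_shift_zero (c a : ℝ) : HasDerivAt (fun x => F 0 (x + c)) 0 a := by
  have h : (fun x : ℝ => F 0 (x + c)) = fun _ => 0 := by
    funext x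
    exact F_zero _
  rw [h]
  exact hasDerivAt_const a 0

/-- Induction on `m`: `D m a = F (m+2) a - 2 F (m+1) (a+1) + F m (a+2)` satisfies
`D' + D = D (m-1) (a+1)` (for `m = 0`: `F 2 a - 2 F 1 (a+1)`, `D' + D = F 1 (a+1) ≤ 1`), and
`D m 0 ≤ 2` by `D_zero_le`; use `cmp` for `D - 2`. -/
theorem D_le (m : ℕ) {a : ℝ} (ha : 0 ≤ a) : F (m + 2) a - 2 * F (m + 1) (a + 1) + F m (a + 2) ≤ 2 := by
  have h0 : ∀ m : ℕ, F (m + 2) 0 - 2 * F (m + 1) (0 + 1) + F m (0 + 2) - 2 ≤ 0 := by
    intro m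
    have h := D_zero_le m
    have h1 := F_at_zero (m + 2)
    push_cast at h1
    rw [h1, zero_add, zero_add]
    linarith
  induction m generalizing a with
  | zero =>
    have hf : ∀ x : ℝ, HasDerivAt
        (fun x : ℝ => F (0 + 2) x - 2 * F (0 + 1) (x + 1) + F 0 (x + 2) - 2)
        ((-F (0 + 2) x + F (0 + 1) (x + 1)) - 2 * (-F (0 + 1) (x + 1) + F 0 (x + 1 + 1)) + 0) x := by
      intro x
      exact (((F_deriv 1 x).sub ((hg_shift 0 1 x).const_mul 2)).add (hg_shift_zero 2 x)).sub_const 2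
    have h := cmp (A := a) hf (h0 0) (by
      intro x hx0 _
      have h1 := F_le 1 (show 0 ≤ x + 1 by linarith)
      rw [F_zero, F_zero]
      simp only [zero_add] at *
      push_cast at h1
      linarith) a ha le_rfl
    have h2 : F (0 + 2) a - 2 * F (0 + 1) (a + 1) + F 0 (a + 2) - 2 ≤ 0 := h
    linarith
  | succ m ih =>
    have hf : ∀ x : ℝ, HasDerivAt
        (fun x : ℝ => F (m + 1 + 2) x - 2 * F (m + 1 + 1) (x + 1) + F (m + 1) (x + 2) - 2)
        ((-F (m + 1 + 2) x + F (m + 1 + 1) (x + 1)) -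
          2 * (-F (m + 1 + 1) (x + 1) + F (m + 1) (x + 1 + 1)) +
          (-F (m + 1) (x + 2) + F m (x + 2 + 1))) x := by
      intro x
      exact (((F_deriv (m + 2) x).sub ((hg_shift (m + 1) 1 x).const_mul 2)).add
        (hg_shift m 2 x)).sub_const 2
    have h := cmp (A := a) hf (h0 (m + 1)) (by
      intro x hx0 _
      have h1 := ih (show 0 ≤ x + 1 by linarith)
      have e1 : x + 1 + 1 = x + 2 := by ring
      have e2 : x + 1 + 2 = x + 2 + 1 := by ring
      rw [e1, e2] at h1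
      rw [e1]
      have e3 : m + 1 + 1 = m + 2 := rfl
      rw [e3]
      linarith) a ha le_rfl
    have h2 : F (m + 1 + 2) a - 2 * F (m + 1 + 1) (a + 1) + F (m + 1) (a + 2) - 2 ≤ 0 := h
    linarith

/-- `taylor` with `c = 2`; `F (m+1)'' = D (m-1)` (for `m = 0`: `F 1'' = F 1 ≤ 1`). -/
theorem H1_gen (m : ℕ) {s p : ℝ} (hs : 0 ≤ s) (hp : 0 ≤ p) :
    F (m + 1) (s + p) - p ^ 2 ≤ (1 - p) * F (m + 1) s + p * F m (s + 1) := by
  have key : F (m + 1) (s + p) ≤ F (m + 1) s + p * (-F (m + 1) s + F m (s + 1)) + 2 * p ^ 2 / 2 := by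
    cases m with
    | zero =>
      refine taylor (f := F (0 + 1)) (f' := fun a => -F (0 + 1) a + F 0 (a + 1))
        (f'' := fun a => -(-F (0 + 1) a + F 0 (a + 1)) + 0) hp (fun a => F_deriv 0 a)
        (fun a => (F_deriv 0 a).neg.add (hg_shift_zero 1 a)) ?_
      intro a h1 _
      have h2 := F_le 1 (show 0 ≤ a by linarith)
      simp only [F_zero, zero_add]
      push_cast at h2
      linarith
    | succ m =>
      refine taylor (f := F (m + 1 + 1)) (f' := fun a => -F (m + 1 + 1) a + F (m + 1) (a + 1))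
        (f'' := fun a => -(-F (m + 1 + 1) a + F (m + 1) (a + 1)) +
          (-F (m + 1) (a + 1) + F m (a + 1 + 1))) hp (fun a => F_deriv (m + 1) a)
        (fun a => (F_deriv (m + 1) a).neg.add (hg_shift m 1 a)) ?_
      intro a h1 _
      have h2 := D_le m (show 0 ≤ a by linarith)
      have e1 : a + 1 + 1 = a + 2 := by ring
      have e3 : m + 1 + 1 = m + 2 := rfl
      show -(-F (m + 1 + 1) a + F (m + 1) (a + 1)) + (-F (m + 1) (a + 1) + F m (a + 1 + 1)) ≤ 2
      rw [e1, e3]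
      linarith
  nlinarith

/-- `F (m+1) - F m = P (m+1) ≤ 1`. -/
theorem H2_gen (m : ℕ) {a : ℝ} (ha : 0 ≤ a) : F (m + 1) a - 1 ≤ F m a := by
  have h1 := F_succ m a
  have h2 := P_le_one (m + 1) ha
  linarith

end Pool.Agent.Helper40.WT
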