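import Pool.Agent.Helper40.WT.Defs

set_option autoImplicit false

namespace Pool.Agent.Helper40.WT

private theorem InstA_exp {p : ℝ} (hp0 : 0 ≤ p) : Real.exp (-p) ≤ 1 - p + p ^ 2 / 2 := by
  have h1 : 1 + p + p ^ 2 / 2 ≤ Real.exp p := Real.quadratic_le_exp_of_nonneg hp0
  have h2 : Real.exp (-p) * Real.exp p = 1 := by
    rw [← Real.exp_add, neg_add_cancel, Real.exp_zero]
  have h3 : 0 < Real.exp (-p) := Real.exp_pos _
  have h4 : Real.exp (-p) * (1 + p + p ^ 2 / 2) ≤ 1 :=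
    (mul_le_mul_of_nonneg_left h1 h3.le).trans_eq h2
  have h5 : 0 < 1 + p + p ^ 2 / 2 := by positivity
  have h6 : Real.exp (-p) ≤ 1 / (1 + p + p ^ 2 / 2) := by
    rw [le_div_iff₀ h5]
    exact h4
  refine h6.trans ?_
  rw [div_le_iff₀ h5]
  nlinarith [sq_nonneg (p ^ 2)]

/-- Put `s = r - p - 1 ≥ 0`, `E = exp (-s)`: `(1-p) E ≥ E exp(-p) - p^2` as `exp(-p) ≤ 1-p+p^2/2`. -/
theorem H1_one {r p : ℝ} (hp0 : 0 ≤ p) (hp1 : p < 1) (hr : 1 ≤ r - p) :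
    W r 1 - p ^ 2 ≤ (1 - p) * W (r - p) 1 + p * W (r - p) 0 := by
  rw [W_one, W_one, W_zero]
  have e1 : Real.exp (-(r - 1)) = Real.exp (-(r - p - 1)) * Real.exp (-p) := by
    rw [← Real.exp_add]
    congr 1
    ring
  rw [e1]
  have hE0 : 0 < Real.exp (-(r - p - 1)) := Real.exp_pos _
  have hE1 : Real.exp (-(r - p - 1)) ≤ 1 := Real.exp_le_one_iff.2 (by linarith)
  have h1 := mul_le_mul_of_nonneg_left (InstA_exp hp0) hE0.le
  have h2 : Real.exp (-(r - p - 1)) * (p ^ 2 / 2) ≤ 1 * (p ^ 2 / 2) :=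
    mul_le_mul_of_nonneg_right hE1 (by positivity)
  have h3 : 0 ≤ p ^ 2 := sq_nonneg p
  nlinarith

/-- Put `s = r - p - 2 ≥ 0`, `E = exp (-s)`, `c = exp (-1)`; `exp(-p) ≤ 1-p+p^2/2`; it remains
`p^2 (1 - E + c E (1 - (s+p)/2)) ≥ 0`, which follows from `1 - E ≥ s E`. -/
theorem H1_two {r p : ℝ} (hp0 : 0 ≤ p) (hp1 : p < 1) (hr : 2 ≤ r - p) :
    W r 2 - p ^ 2 ≤ (1 - p) * W (r - p) 2 + p * W (r - p) 1 := by
  rw [W_two, W_two, W_one]
  obtain ⟨s, hs⟩ : ∃ s, s = r - p - 2 := ⟨_, rfl⟩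
  have hs0 : 0 ≤ s := by linarith
  have hr' : r = s + p + 2 := by linarith
  obtain ⟨E, hE⟩ : ∃ E, E = Real.exp (-s) := ⟨_, rfl⟩
  obtain ⟨c, hc⟩ : ∃ c, c = Real.exp (-1) := ⟨_, rfl⟩
  obtain ⟨P, hP⟩ : ∃ P, P = Real.exp (-p) := ⟨_, rfl⟩
  have e1 : Real.exp (-(r - 2)) = E * P := by
    rw [hE, hP, ← Real.exp_add, hr']
    congr 1
    ring
  have e2 : Real.exp (-(r - 1)) = c * E * P := by
    rw [hE, hP, hc, ← Real.exp_add, ← Real.exp_add, hr']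
    congr 1
    ring
  have e3 : Real.exp (-(r - p - 2)) = E := by
    rw [hE, hs]
  have e4 : Real.exp (-(r - p - 1)) = c * E := by
    rw [hE, hc, ← Real.exp_add, hr']
    congr 1
    ring
  rw [e1, e2, e3, e4, ← hs]
  have hrs : r - 2 = s + p := by linarith
  rw [hrs]
  have hE0 : 0 < E := by rw [hE]; exact Real.exp_pos _
  have hc0 : 0 < c := by rw [hc]; exact Real.exp_pos _
  have hc1 : c ≤ 1 := by rw [hc]; exact Real.exp_le_one_iff.2 (by norm_num)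
  have hPle : P ≤ 1 - p + p ^ 2 / 2 := by rw [hP]; exact InstA_exp hp0
  have hEs : s * E ≤ 1 - E := by
    have h1 : s + 1 ≤ Real.exp s := Real.add_one_le_exp s
    have h2 : E * Real.exp s = 1 := by
      rw [hE, ← Real.exp_add, neg_add_cancel, Real.exp_zero]
    have h3 : E * (s + 1) ≤ E * Real.exp s := mul_le_mul_of_nonneg_left h1 hE0.le
    rw [h2] at h3
    linarith
  have h1 : E * (2 + (s + p) * c) * P ≤ E * (2 + (s + p) * c) * (1 - p + p ^ 2 / 2) :=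
    mul_le_mul_of_nonneg_left hPle (by positivity)
  have h2 : 0 ≤ E * (s * (1 - c / 2) + c * (1 - p / 2)) := by
    have a1 : 0 ≤ s * (1 - c / 2) := mul_nonneg hs0 (by linarith)
    have a2 : 0 ≤ c * (1 - p / 2) := mul_nonneg hc0.le (by linarith)
    exact mul_nonneg hE0.le (by linarith)
  have h3 : 0 ≤ 1 - E + c * E * (1 - (s + p) / 2) := by
    have a1 : 1 - E + c * E * (1 - (s + p) / 2) =
        (1 - E - s * E) + E * (s * (1 - c / 2) + c * (1 - p / 2)) := by ring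
    rw [a1]
    linarith
  have h4 : 0 ≤ p ^ 2 * (1 - E + c * E * (1 - (s + p) / 2)) := mul_nonneg (sq_nonneg p) h3
  have e5 : (1 - p) * (2 * E + s * (c * E)) + p * (c * E) -
      (E * (2 + (s + p) * c) * (1 - p + p ^ 2 / 2) - p ^ 2) =
      p ^ 2 * (1 - E + c * E * (1 - (s + p) / 2)) := by ring
  have e6 : 2 * (E * P) + (s + p) * (c * E * P) = E * (2 + (s + p) * c) * P := by ring
  rw [e6]
  linarith

theorem H2_one {r : ℝ} (hr : 1 ≤ r) : W r 1 - 1 ≤ W (r - 1) 0 := by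
  rw [W_one, W_zero]
  have h : Real.exp (-(r - 1)) ≤ 1 := Real.exp_le_one_iff.2 (by linarith)
  linarith

/-- `1 ≥ exp(-a) (1 + a/e)`, `a = r - 2`. -/
theorem H2_two {r : ℝ} (hr : 2 ≤ r) : W r 2 - 1 ≤ W (r - 1) 1 := by
  rw [W_two, W_one]
  obtain ⟨a, ha⟩ : ∃ a, a = r - 2 := ⟨_, rfl⟩
  have ha0 : 0 ≤ a := by linarith
  obtain ⟨c, hc⟩ : ∃ c, c = Real.exp (-1) := ⟨_, rfl⟩
  have hc1 : c ≤ 1 := by rw [hc]; exact Real.exp_le_one_iff.2 (by norm_num)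
  have hE0 : 0 < Real.exp (-a) := Real.exp_pos _
  have e1 : Real.exp (-(r - 1)) = c * Real.exp (-a) := by
    rw [hc, ha, ← Real.exp_add]
    congr 1
    ring
  have e2 : Real.exp (-(r - 1 - 1)) = Real.exp (-a) := by
    rw [ha]
    congr 1
    ring
  rw [e1, e2, ← ha]
  have h1 : a + 1 ≤ Real.exp a := Real.add_one_le_exp a
  have h2 : Real.exp (-a) * Real.exp a = 1 := by
    rw [← Real.exp_add, neg_add_cancel, Real.exp_zero]
  have h3 : Real.exp (-a) * (a + 1) ≤ Real.exp (-a) * Real.exp a :=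
    mul_le_mul_of_nonneg_left h1 hE0.le
  rw [h2] at h3
  have h4 : a * (c * Real.exp (-a)) ≤ a * (1 * Real.exp (-a)) :=
    mul_le_mul_of_nonneg_left (mul_le_mul_of_nonneg_right hc1 hE0.le) ha0
  linarith

end Pool.Agent.Helper40.WT
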