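import Pool.Agent.Helper40.WT.Defs

set_option autoImplicit false

namespace Pool.Agent.Helper40.WT

private theorem InstB_exp {p : ℝ} (hp0 : 0 ≤ p) (hp1 : p < 1) :
    Real.exp (-p) ≤ 1 - p + p ^ 2 / 2 - p ^ 3 / 9 := by
  have h1 : 1 + p + p ^ 2 / 2 + p ^ 3 / 6 ≤ Real.exp p := by
    have h := Real.sum_le_exp_of_nonneg hp0 4
    simp only [Finset.sum_range_succ, Finset.sum_range_zero, Nat.factorial] at h
    norm_num at h
    linarith
  have h2 : 0 < 1 - p + p ^ 2 / 2 - p ^ 3 / 9 := by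
    have e1 : p ^ 3 ≤ p ^ 2 := by nlinarith [sq_nonneg p]
    nlinarith [sq_nonneg p]
  have h3 : 1 ≤ (1 - p + p ^ 2 / 2 - p ^ 3 / 9) * (1 + p + p ^ 2 / 2 + p ^ 3 / 6) := by
    have e0 : 0 ≤ p ^ 3 := by positivity
    have e1 : 0 ≤ p ^ 3 * (1 - p) := mul_nonneg e0 (by linarith)
    have e2 : 0 ≤ p ^ 5 * (1 - p) := mul_nonneg (by positivity) (by linarith)
    have e3 : 0 ≤ p ^ 5 := by positivity
    nlinarith
  have h4 : Real.exp (-p) * Real.exp p = 1 := by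
    rw [← Real.exp_add, neg_add_cancel, Real.exp_zero]
  have h5 := Real.exp_pos p
  have h6 : 1 ≤ (1 - p + p ^ 2 / 2 - p ^ 3 / 9) * Real.exp p :=
    h3.trans (mul_le_mul_of_nonneg_left h1 h2.le)
  by_contra hc
  push Not at hc
  have h7 := mul_lt_mul_of_pos_right hc h5
  linarith

private theorem InstB_E {s : ℝ} (hs : 0 ≤ s) :
    Real.exp (-s) * (1 + s + s ^ 2 / 2) ≤ 1 := by
  have h1 := Real.quadratic_le_exp_of_nonneg hs
  have h4 : Real.exp (-s) * Real.exp s = 1 := by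
    rw [← Real.exp_add, neg_add_cancel, Real.exp_zero]
  have h5 := mul_le_mul_of_nonneg_left h1 (Real.exp_pos (-s)).le
  linarith

private theorem InstB_L {p s c : ℝ} (hp0 : 0 ≤ p) (hp1 : p < 1) (hs : 0 ≤ s)
    (hc0 : 0.3678 < c) (hc1 : c < 0.3679) :
    (3 + 2 * s * c + s * (s + 2) / 2 * (c * c)) * (1 / 2 - p / 9) -
      (2 * c + (s + 1) * (c * c)) * (1 - p / 2 + p ^ 2 / 9) +
      c * c / 2 * (1 - p + p ^ 2 / 2 - p ^ 3 / 9) ≤ 1 + s + s ^ 2 / 2 := by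
  have k1 : 0.1352 < c * c := by nlinarith
  have k2 : c * c < 0.1354 := by nlinarith
  generalize c * c = d at k1 k2 ⊢
  have e1 : 0 ≤ s * p := mul_nonneg hs hp0
  have e2 : 0 ≤ s * s := mul_nonneg hs hs
  have hp2 : 0 ≤ p ^ 2 := sq_nonneg p
  have hp3 : 0 ≤ p ^ 3 := by positivity
  have hp21 : p ^ 2 ≤ p := by nlinarith
  -- the factor of D
  have g0 : 0 ≤ 1 - p / 2 + p ^ 2 / 9 := by nlinarith
  have g1 : 0 ≤ 1 / 2 - p / 9 := by linarith
  have a1 : (3 + 2 * s * c + s * (s + 2) / 2 * d) * (1 / 2 - p / 9) ≤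
      (3 + 0.8712 * s + 0.0677 * (s * s)) * (1 / 2 - p / 9) := by
    apply mul_le_mul_of_nonneg_right _ g1
    have b1 : s * c ≤ s * 0.3679 := mul_le_mul_of_nonneg_left hc1.le hs
    have b2 : (s * s) * d ≤ (s * s) * 0.1354 := mul_le_mul_of_nonneg_left k2.le e2
    have b3 : s * d ≤ s * 0.1354 := mul_le_mul_of_nonneg_left k2.le hs
    nlinarith
  have a2 : (3 + 0.8712 * s + 0.0677 * (s * s)) * (1 / 2 - p / 9) ≤
      3 * (1 / 2 - p / 9) + 0.4356 * s + 0.03385 * (s * s) := by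
    have b1 : 0 ≤ s * p := e1
    have b2 : 0 ≤ (s * s) * p := mul_nonneg e2 hp0
    nlinarith
  have a3 : 0.8708 * (1 - p / 2 + p ^ 2 / 9) ≤
      (2 * c + (s + 1) * d) * (1 - p / 2 + p ^ 2 / 9) := by
    apply mul_le_mul_of_nonneg_right _ g0
    have b3 : 0 ≤ s * d := mul_nonneg hs (by linarith)
    nlinarith
  have a4 : d / 2 * (1 - p + p ^ 2 / 2 - p ^ 3 / 9) ≤ 0.0677 * (1 - p + p ^ 2 / 2) := by
    have b1 : 0 ≤ 1 - p + p ^ 2 / 2 := by nlinarith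
    have b2 : d / 2 * (1 - p + p ^ 2 / 2 - p ^ 3 / 9) ≤ d / 2 * (1 - p + p ^ 2 / 2) :=
      mul_le_mul_of_nonneg_left (by linarith) (by linarith)
    have b3 : d / 2 * (1 - p + p ^ 2 / 2) ≤ 0.0677 * (1 - p + p ^ 2 / 2) :=
      mul_le_mul_of_nonneg_right (by linarith) b1
    linarith
  nlinarith

/-- Put `s = r - p - 3 ≥ 0`, `E = exp (-s)`, `c = exp (-1)` (`0.367 < c < 0.368`), and use
`exp(-p) ≤ 1 - p + p^2/2 - p^3/8` for `0 ≤ p ≤ 1`. After division by `E` it remains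
`p^2 [2c + (s+1)c^2 - (1-p)c^2/2 - (1/2 - p/8) (3 + 2(s+p)c + (s+p)(s+p+2)c^2/2) + 1/E] ≥ 0`
(up to the exact bookkeeping), which follows from `1/E ≥ 1 + s + s^2/2`. -/
theorem H1_three {r p : ℝ} (hp0 : 0 ≤ p) (hp1 : p < 1) (hr : 3 ≤ r - p) :
    W r 3 - p ^ 2 ≤ (1 - p) * W (r - p) 3 + p * W (r - p) 2 := by
  obtain ⟨s, hs⟩ : ∃ s : ℝ, s = r - p - 3 := ⟨_, rfl⟩
  have hs0 : 0 ≤ s := by linarith
  obtain rfl : r = s + p + 3 := by linarith
  obtain ⟨E, hE⟩ : ∃ E : ℝ, E = Real.exp (-s) := ⟨_, rfl⟩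
  obtain ⟨e, he⟩ : ∃ e : ℝ, e = Real.exp (-p) := ⟨_, rfl⟩
  obtain ⟨c, hc⟩ : ∃ c : ℝ, c = Real.exp (-1) := ⟨_, rfl⟩
  have hE0 : 0 < E := hE ▸ Real.exp_pos _
  have he0 : 0 < e := he ▸ Real.exp_pos _
  have hc0 : 0.3678 < c := by
    have := Real.exp_neg_one_gt_d9
    rw [hc]
    linarith
  have hc1 : c < 0.3679 := by
    have := Real.exp_neg_one_lt_d9
    rw [hc]
    linarith
  have x1 : Real.exp (-(s + p + 3 - 3)) = E * e := by
    rw [hE, he, ← Real.exp_add]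
    congr 1
    ring
  have x2 : Real.exp (-(s + p + 3 - 2)) = E * e * c := by
    rw [hE, he, hc, ← Real.exp_add, ← Real.exp_add]
    congr 1
    ring
  have x3 : Real.exp (-(s + p + 3 - 1)) = E * e * (c * c) := by
    rw [hE, he, hc, ← Real.exp_add, ← Real.exp_add, ← Real.exp_add]
    congr 1
    ring
  have x4 : Real.exp (-(s + p + 3 - p - 3)) = E := by
    rw [hE]
    congr 1
    ring
  have x5 : Real.exp (-(s + p + 3 - p - 2)) = E * c := by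
    rw [hE, hc, ← Real.exp_add]
    congr 1
    ring
  have x6 : Real.exp (-(s + p + 3 - p - 1)) = E * (c * c) := by
    rw [hE, hc, ← Real.exp_add, ← Real.exp_add]
    congr 1
    ring
  rw [W_three, W_three, W_two, x1, x2, x3, x4, x5, x6]
  have hexp : e ≤ 1 - p + p ^ 2 / 2 - p ^ 3 / 9 := he ▸ InstB_exp hp0 hp1
  have hEs : E * (1 + s + s ^ 2 / 2) ≤ 1 := hE ▸ InstB_E hs0
  have hL := InstB_L hp0 hp1 hs0 hc0 hc1
  have hQ : 0 ≤ 3 + 2 * (s + p) * c + (s + p) * (s + p + 2) / 2 * (c * c) := by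
    have : 0 ≤ c := by linarith
    positivity
  have y1 : E * (e * (3 + 2 * (s + p) * c + (s + p) * (s + p + 2) / 2 * (c * c))) ≤
      E * ((1 - p + p ^ 2 / 2 - p ^ 3 / 9) *
        (3 + 2 * (s + p) * c + (s + p) * (s + p + 2) / 2 * (c * c))) :=
    mul_le_mul_of_nonneg_left (mul_le_mul_of_nonneg_right hexp hQ) hE0.le
  have y2 := mul_le_mul_of_nonneg_left hL hE0.le
  have y3 := mul_le_mul_of_nonneg_left (y2.trans hEs) (sq_nonneg p)
  have y4 : E * ((1 - p + p ^ 2 / 2 - p ^ 3 / 9) *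
        (3 + 2 * (s + p) * c + (s + p) * (s + p + 2) / 2 * (c * c))) =
      (1 - p) * (E * (3 + 2 * s * c + s * (s + 2) / 2 * (c * c))) +
      p * (E * (2 * c + (s + 1) * (c * c))) +
      p ^ 2 * (E * ((3 + 2 * s * c + s * (s + 2) / 2 * (c * c)) * (1 / 2 - p / 9) -
      (2 * c + (s + 1) * (c * c)) * (1 - p / 2 + p ^ 2 / 9) +
      c * c / 2 * (1 - p + p ^ 2 / 2 - p ^ 3 / 9))) := by
    ring
  rw [y4] at y1
  linarith

/-- `exp a ≥ 1 + a c + a(a+2)c^2/2`, `a = r - 3`, `c = exp (-1)`. -/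
theorem H2_three {r : ℝ} (hr : 3 ≤ r) : W r 3 - 1 ≤ W (r - 1) 2 := by
  obtain ⟨s, hs⟩ : ∃ s : ℝ, s = r - 3 := ⟨_, rfl⟩
  have hs0 : 0 ≤ s := by linarith
  obtain rfl : r = s + 3 := by linarith
  obtain ⟨E, hE⟩ : ∃ E : ℝ, E = Real.exp (-s) := ⟨_, rfl⟩
  obtain ⟨c, hc⟩ : ∃ c : ℝ, c = Real.exp (-1) := ⟨_, rfl⟩
  have hE0 : 0 < E := hE ▸ Real.exp_pos _
  have hc0 : 0.3678 < c := by
    have := Real.exp_neg_one_gt_d9
    rw [hc]
    linarith
  have hc1 : c < 0.3679 := by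
    have := Real.exp_neg_one_lt_d9
    rw [hc]
    linarith
  have x1 : Real.exp (-(s + 3 - 3)) = E := by
    rw [hE]
    congr 1
    ring
  have x2 : Real.exp (-(s + 3 - 2)) = E * c := by
    rw [hE, hc, ← Real.exp_add]
    congr 1
    ring
  have x3 : Real.exp (-(s + 3 - 1)) = E * (c * c) := by
    rw [hE, hc, ← Real.exp_add, ← Real.exp_add]
    congr 1
    ring
  have x4 : Real.exp (-(s + 3 - 1 - 2)) = E := by
    rw [hE]
    congr 1
    ring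
  have x5 : Real.exp (-(s + 3 - 1 - 1)) = E * c := by
    rw [hE, hc, ← Real.exp_add]
    congr 1
    ring
  rw [W_three, W_two, x1, x2, x3, x4, x5]
  have hEs : E * (1 + s + s ^ 2 / 2) ≤ 1 := hE ▸ InstB_E hs0
  have k2 : c * c < 0.1354 := by nlinarith
  have hL : 1 + s * c + s * (s + 2) / 2 * (c * c) ≤ 1 + s + s ^ 2 / 2 := by
    generalize c * c = d at k2 ⊢
    have b1 : s * c ≤ s * 0.3679 := mul_le_mul_of_nonneg_left hc1.le hs0
    have b2 : s * (s + 2) / 2 * d ≤ s * (s + 2) / 2 * 0.1354 :=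
      mul_le_mul_of_nonneg_left k2.le (by positivity)
    nlinarith [mul_nonneg hs0 hs0]
  have y2 := (mul_le_mul_of_nonneg_left hL hE0.le).trans hEs
  nlinarith

end Pool.Agent.Helper40.WT
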