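import Pool.Agent.Helper40.WT.Defs

set_option autoImplicit false

namespace Pool.Agent.Helper40.WT

private theorem NumW_e1 : 0.3678794 < Real.exp (-1) ∧ Real.exp (-1) < 0.3678795 := by
  constructor
  · have := Real.exp_neg_one_gt_d9
    norm_num at this ⊢
    linarith
  · have := Real.exp_neg_one_lt_d9
    norm_num at this ⊢
    linarith

private theorem NumW_inv {t B : ℝ} (hB : 0 < B) (h : Real.exp t ≤ B) : 1 / B ≤ Real.exp (-t) := by
  rw [Real.exp_neg, ← one_div]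
  exact one_div_le_one_div_of_le (Real.exp_pos t) h

private theorem NumW_a : 0.57983 ≤ Real.exp (-(0.545 : ℝ)) := by
  have h1 : Real.exp (0.545 : ℝ) ≤ 1.72462 := by
    have h := Real.exp_bound' (x := 0.545) (by norm_num) (by norm_num) (n := 8) (by norm_num)
    refine h.trans ?_
    norm_num [Finset.sum_range_succ, Nat.factorial]
  have h2 := NumW_inv (by norm_num) h1
  refine le_trans ?_ h2
  norm_num

private theorem NumW_b : 0.5117 ≤ Real.exp (-(0.67 : ℝ)) := by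
  have h1 : Real.exp (0.67 : ℝ) ≤ 1.95424 := by
    have h := Real.exp_bound' (x := 0.67) (by norm_num) (by norm_num) (n := 9) (by norm_num)
    refine h.trans ?_
    norm_num [Finset.sum_range_succ, Nat.factorial]
  have h2 := NumW_inv (by norm_num) h1
  refine le_trans ?_ h2
  norm_num

/-- `2 W x 2 - x` decreases; at `x = 2.545` it is `> 0.0068`. -/
theorem num_two {x : ℝ} (h2 : 2 ≤ x) (hx : x ≤ 2.545) : 0.0065 < 2 * W x 2 - x := by
  rw [W_two]
  obtain ⟨e1, e2⟩ := NumW_e1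
  have ha := NumW_a
  obtain ⟨E, hE⟩ : ∃ E, E = Real.exp (-1) := ⟨_, rfl⟩
  obtain ⟨A, hA⟩ : ∃ A, A = Real.exp (-(0.545 : ℝ)) := ⟨_, rfl⟩
  obtain ⟨P, hP⟩ : ∃ P, P = Real.exp (0.545 - (x - 2)) := ⟨_, rfl⟩
  rw [← hE] at e1 e2
  rw [← hA] at ha
  have f1 : Real.exp (-(x - 2)) = A * P := by
    rw [hA, hP, ← Real.exp_add]
    congr 1
    ring
  have f2 : Real.exp (-(x - 1)) = A * P * E := by
    rw [hA, hP, hE, ← Real.exp_add, ← Real.exp_add]
    congr 1
    ring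
  have hP1 : 1 + (0.545 - (x - 2)) ≤ P := by
    rw [hP]
    have := Real.add_one_le_exp (0.545 - (x - 2))
    linarith
  rw [f1, f2]
  obtain ⟨u, hu⟩ : ∃ u, u = x - 2 := ⟨_, rfl⟩
  rw [← hu] at hP1 ⊢
  have hx' : x = u + 2 := by rw [hu]; ring
  rw [hx'] at h2 hx ⊢
  have hu0 : 0 ≤ u := by linarith
  have hu1 : u ≤ 0.545 := by linarith
  have hA0 : 0 < A := by linarith
  have hE0 : 0 < E := by linarith
  have k1 : (1 + (0.545 - u)) * (4 + 2 * u * E) ≤ P * (4 + 2 * u * E) :=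
    mul_le_mul_of_nonneg_right hP1 (by positivity)
  have k2 : 4 + 2 * 0.545 * E ≤ (1 + (0.545 - u)) * (4 + 2 * u * E) := by
    have h3 : 0 ≤ (0.545 - u) * (4 + 2 * u * E - 2 * E) := by
      apply mul_nonneg (by linarith)
      have : 0 ≤ u * E := by positivity
      nlinarith
    nlinarith
  have k3 : 4 + 2 * 0.545 * 0.3678794 ≤ P * (4 + 2 * u * E) := by nlinarith
  have k4 : 0.57983 * (4 + 2 * 0.545 * 0.3678794) ≤ A * (P * (4 + 2 * u * E)) :=
    mul_le_mul ha k3 (by norm_num) hA0.le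
  have k5 : 2 * (2 * (A * P) + u * (A * P * E)) = A * (P * (4 + 2 * u * E)) := by ring
  rw [k5]
  norm_num at k4 ⊢
  linarith

/-- `2 W x 3 - x` decreases; at `x = 3.67` it is `> 0.02`. -/
theorem num_three {x : ℝ} (h3 : 3 ≤ x) (hx : x ≤ 3.67) : 0.015 < 2 * W x 3 - x := by
  rw [W_three]
  obtain ⟨e1, e2⟩ := NumW_e1
  have ha := NumW_b
  obtain ⟨E, hE⟩ : ∃ E, E = Real.exp (-1) := ⟨_, rfl⟩
  obtain ⟨A, hA⟩ : ∃ A, A = Real.exp (-(0.67 : ℝ)) := ⟨_, rfl⟩
  obtain ⟨P, hP⟩ : ∃ P, P = Real.exp (0.67 - (x - 3)) := ⟨_, rfl⟩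
  rw [← hE] at e1 e2
  rw [← hA] at ha
  have f1 : Real.exp (-(x - 3)) = A * P := by
    rw [hA, hP, ← Real.exp_add]
    congr 1
    ring
  have f2 : Real.exp (-(x - 2)) = A * P * E := by
    rw [hA, hP, hE, ← Real.exp_add, ← Real.exp_add]
    congr 1
    ring
  have f3 : Real.exp (-(x - 1)) = A * P * E * E := by
    rw [hA, hP, hE, ← Real.exp_add, ← Real.exp_add, ← Real.exp_add]
    congr 1
    ring
  have hP1 : 1 + (0.67 - (x - 3)) ≤ P := by
    rw [hP]
    have := Real.add_one_le_exp (0.67 - (x - 3))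
    linarith
  rw [f1, f2, f3]
  obtain ⟨u, hu⟩ : ∃ u, u = x - 3 := ⟨_, rfl⟩
  have hx1 : x - 1 = u + 2 := by rw [hu]; ring
  rw [hx1]
  rw [← hu] at hP1 ⊢
  have hx' : x = u + 3 := by rw [hu]; ring
  rw [hx'] at h3 hx ⊢
  have hu0 : 0 ≤ u := by linarith
  have hu1 : u ≤ 0.67 := by linarith
  have hA0 : 0 < A := by linarith
  have hE0 : 0 < E := by linarith
  have k1 : (1 + (0.67 - u)) * (6 + 4 * u * E + u * (u + 2) * (E * E)) ≤
      P * (6 + 4 * u * E + u * (u + 2) * (E * E)) :=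
    mul_le_mul_of_nonneg_right hP1 (by positivity)
  have hEE : E * E ≤ 0.14 := by nlinarith
  have hEE1 : 0.13533 ≤ E * E := by nlinarith
  have k2 : 6 + 4 * 0.67 * E + 0.67 * (0.67 + 2) * (E * E) ≤
      (1 + (0.67 - u)) * (6 + 4 * u * E + u * (u + 2) * (E * E)) := by
    have h5 : 0 ≤ (0.67 - u) * ((6 + 4 * u * E + u * (u + 2) * (E * E)) -
        (4 * E + (0.67 + u + 2) * (E * E))) := by
      apply mul_nonneg (by linarith)
      have q1 : 0 ≤ 4 * u * E := by positivity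
      have q2 : 0 ≤ u * (u + 2) * (E * E) := by positivity
      have q3 : (0.67 + u + 2) * (E * E) ≤ (0.67 + 0.67 + 2) * 0.14 :=
        mul_le_mul (by linarith) hEE (by positivity) (by norm_num)
      norm_num at q3 e2 ⊢
      linarith
    have h6 : (1 + (0.67 - u)) * (6 + 4 * u * E + u * (u + 2) * (E * E)) -
        (6 + 4 * 0.67 * E + 0.67 * (0.67 + 2) * (E * E)) =
        (0.67 - u) * ((6 + 4 * u * E + u * (u + 2) * (E * E)) -
        (4 * E + (0.67 + u + 2) * (E * E))) := by ring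
    linarith
  have k3 : 6 + 4 * 0.67 * 0.3678794 + 0.67 * (0.67 + 2) * 0.13533 ≤
      P * (6 + 4 * u * E + u * (u + 2) * (E * E)) := by
    refine le_trans ?_ (k2.trans k1)
    have q1 : 4 * 0.67 * 0.3678794 ≤ 4 * 0.67 * E := by linarith
    have q2 : 0.67 * (0.67 + 2) * 0.13533 ≤ 0.67 * (0.67 + 2) * (E * E) := by
      have : (0 : ℝ) ≤ 0.67 * (0.67 + 2) := by norm_num
      exact mul_le_mul_of_nonneg_left hEE1 this
    linarith
  have k4 : 0.5117 * (6 + 4 * 0.67 * 0.3678794 + 0.67 * (0.67 + 2) * 0.13533) ≤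
      A * (P * (6 + 4 * u * E + u * (u + 2) * (E * E))) :=
    mul_le_mul ha k3 (by norm_num) hA0.le
  have k5 : 2 * (3 * (A * P) + 2 * u * (A * P * E) + u * (u + 2) / 2 * (A * P * E * E)) =
      A * (P * (6 + 4 * u * E + u * (u + 2) * (E * E))) := by ring
  rw [k5]
  norm_num at k4 ⊢
  linarith

end Pool.Agent.Helper40.WT
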