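import Pool.Agent.Helper40.WT.Game
import Pool.Agent.Helper40.WT.InstA
import Pool.Agent.Helper40.WT.InstB
import Pool.Agent.Helper40.WT.NumW

/-!
# MP_c8f8f3_co, project WT: the upper bounds for k = 2 and k = 3
-/

set_option autoImplicit false

namespace Pool.Agent.Helper40.WT

open Finset Pool.Agent.Helper72.WC Pool.Agent.Helper40.WC

theorem H1 (k : ℕ) (hk : k ≤ 3) (m : ℕ) (r p : ℝ) (hm : 1 ≤ m) (hmk : m ≤ k) (hp0 : 0 ≤ p)
    (hp1 : p < 1) (hr : (m : ℝ) ≤ r - p) :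
    W r m - p ^ 2 ≤ (1 - p) * W (r - p) m + p * W (r - p) (m - 1) := by
  have hm3 : m = 1 ∨ m = 2 ∨ m = 3 := by omega
  rcases hm3 with h | h | h
  · subst h
    exact H1_one hp0 hp1 (by simpa using hr)
  · subst h
    exact H1_two hp0 hp1 (by simpa using hr)
  · subst h
    exact H1_three hp0 hp1 (by simpa using hr)

theorem H2 (k : ℕ) (hk : k ≤ 3) (m : ℕ) (r : ℝ) (hm : 1 ≤ m) (hmk : m ≤ k) (hr : (m : ℝ) ≤ r) :
    W r m - 1 ≤ W (r - 1) (m - 1) := by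
  have hm3 : m = 1 ∨ m = 2 ∨ m = 3 := by omega
  rcases hm3 with h | h | h
  · subst h
    exact H2_one (by simpa using hr)
  · subst h
    exact H2_two (by simpa using hr)
  · subst h
    exact H2_three (by simpa using hr)

theorem upper_core {k n : ℕ} {x δ : ℝ} (hk1 : 1 ≤ k) (hk3 : k ≤ 3) (hn : 1000 ≤ n)
    (hx0 : 0 < x) (hxn : x ^ 2 ≤ 1000 * δ)
    (hnum : ∀ y : ℝ, (k : ℝ) ≤ y → y ≤ x → δ < 2 * W y k - y) :
    (qD k n : ℝ) ≤ n / x := by
  have hn' : (1000 : ℝ) ≤ n := by exact_mod_cast hn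
  rcases qD_spec (k := k) (n := n) (by omega) (by omega) with h | ⟨hq, hwin⟩
  · rw [h]
    simp only [Nat.cast_zero]
    positivity
  by_contra hcon
  push Not at hcon
  rw [div_lt_iff₀ hx0] at hcon
  set q := qD k n with hqdef
  have hkb := kb_le (k := k) (n := n) (by omega) (by omega) hq hwin
  have hb0 : (0 : ℝ) < ((q + 1 : ℕ) : ℝ) := by positivity
  have hkb' : ((q + 1 : ℕ) : ℝ) * k ≤ n - 1 := by
    have h1 : (((q + 1) * k : ℕ) : ℝ) ≤ ((n - 1 : ℕ) : ℝ) := by exact_mod_cast hkb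
    rw [Nat.cast_sub (by omega)] at h1
    push_cast at h1 ⊢
    exact h1
  have hx1 : (k : ℝ) ≤ ((n : ℝ) - 1) / ((q + 1 : ℕ) : ℝ) := by
    rw [le_div_iff₀ hb0]
    linarith
  have hx2 : ((n : ℝ) - 1) / ((q + 1 : ℕ) : ℝ) ≤ x := by
    rw [div_le_iff₀ hb0]
    push_cast
    nlinarith
  have hgame := game (b := q + 1) (k := k) (n := n) (by omega) (by omega) W_zero
    (fun m r p hm hmk hp0 hp1 hr => H1 k hk3 m r p hm hmk hp0 hp1 hr)
    (fun m r hm hmk hr => H2 k hk3 m r hm hmk hr) hwin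
  have h3 := hnum _ hx1 hx2
  have h4 : ((n : ℝ) - 1) / ((q + 1 : ℕ) : ℝ) / ((q + 1 : ℕ) : ℝ) ≤ δ := by
    have h5 : (n : ℝ) ≤ ((q + 1 : ℕ) : ℝ) * x := by
      push_cast
      nlinarith
    have h6 : ((n : ℝ) - 1) / ((q + 1 : ℕ) : ℝ) / ((q + 1 : ℕ) : ℝ) ≤
        x / ((q + 1 : ℕ) : ℝ) := div_le_div_of_nonneg_right hx2 hb0.le
    refine h6.trans ?_
    rw [div_le_iff₀ hb0]
    have h7 : x * x ≤ δ * ((q + 1 : ℕ) : ℝ) * x := by
      have hδ : 0 ≤ δ := by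
        have : 0 < x ^ 2 := by positivity
        nlinarith
      calc x * x = x ^ 2 := by ring
        _ ≤ 1000 * δ := hxn
        _ ≤ n * δ := mul_le_mul_of_nonneg_right hn' hδ
        _ ≤ ((q + 1 : ℕ) : ℝ) * x * δ := mul_le_mul_of_nonneg_right h5 hδ
        _ = δ * ((q + 1 : ℕ) : ℝ) * x := by ring
    exact le_of_mul_le_mul_right h7 hx0
  linarith

theorem upper_two {n : ℕ} (hn : 1000 ≤ n) : (qD 2 n : ℝ) ≤ n / 2.545 :=
  upper_core (δ := 0.0065) (by norm_num) (by norm_num) hn (by norm_num) (by norm_num)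
    (fun y h1 h2 => num_two (by exact_mod_cast h1) h2)

theorem upper_three {n : ℕ} (hn : 1000 ≤ n) : (qD 3 n : ℝ) ≤ n / 3.67 :=
  upper_core (δ := 0.015) (by norm_num) (by norm_num) hn (by norm_num) (by norm_num)
    (fun y h1 h2 => num_three (by exact_mod_cast h1) h2)

end Pool.Agent.Helper40.WT
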