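import Pool.Agent.Helper40.WT.Game
import Pool.Agent.Helper40.WT.Hgen
import Pool.Agent.Helper40.WT.Upper

/-!
# MP_c8f8f3_co, project WT: the upper bound for every k
-/

set_option autoImplicit false

namespace Pool.Agent.Helper40.WT

open Finset Pool.Agent.Helper72.WC Pool.Agent.Helper40.WC

/-- The potential in the variables of `Game`. -/
noncomputable def WF (r : ℝ) (m : ℕ) : ℝ := F m (r - m)

theorem WF_zero (r : ℝ) : WF r 0 = 0 := F_zero _

theorem WF_H1 (m : ℕ) (r p : ℝ) (hm : 1 ≤ m) (hp0 : 0 ≤ p) (hr : (m : ℝ) ≤ r - p) :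
    WF r m - p ^ 2 ≤ (1 - p) * WF (r - p) m + p * WF (r - p) (m - 1) := by
  obtain ⟨j, rfl⟩ : ∃ j, m = j + 1 := ⟨m - 1, by omega⟩
  have h := H1_gen j (s := r - p - ((j + 1 : ℕ) : ℝ)) (p := p) (by linarith) hp0
  unfold WF
  have e1 : r - ((j + 1 : ℕ) : ℝ) = r - p - ((j + 1 : ℕ) : ℝ) + p := by ring
  have e2 : j + 1 - 1 = j := by omega
  have e3 : r - p - (j : ℝ) = r - p - ((j + 1 : ℕ) : ℝ) + 1 := by push_cast; ring
  rw [e2, e1, e3]
  exact h

theorem WF_H2 (m : ℕ) (r : ℝ) (hm : 1 ≤ m) (hr : (m : ℝ) ≤ r) :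
    WF r m - 1 ≤ WF (r - 1) (m - 1) := by
  obtain ⟨j, rfl⟩ : ∃ j, m = j + 1 := ⟨m - 1, by omega⟩
  have h := H2_gen j (a := r - ((j + 1 : ℕ) : ℝ)) (by linarith)
  unfold WF
  have e2 : j + 1 - 1 = j := by omega
  have e3 : r - 1 - (j : ℝ) = r - ((j + 1 : ℕ) : ℝ) := by push_cast; ring
  rw [e2, e3]
  exact h

/-- The upper bound. -/
theorem upper_gen {k n : ℕ} (hk : 1 ≤ k) (hn : 2 ≤ n) {x : ℝ} (hkx : (k : ℝ) ≤ x)
    (hx : x ^ 2 ≤ n * (2 * F k (x - k) - x)) : (qD k n : ℝ) ≤ n / x := by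
  have hn' : (2 : ℝ) ≤ n := by exact_mod_cast hn
  have hk' : (1 : ℝ) ≤ k := by exact_mod_cast hk
  have hx0 : 0 < x := by linarith
  rcases qD_spec (k := k) (n := n) (by omega) (by omega) with h | ⟨hq, hwin⟩
  · rw [h]
    simp only [Nat.cast_zero]
    positivity
  by_contra hcon
  push Not at hcon
  rw [div_lt_iff₀ hx0] at hcon
  set q := qD k n with hqdef
  have hkb := kb_le (k := k) (n := n) (by omega) (by omega) hq hwin
  have hb0 : (0 : ℝ) < ((q + 1 : ℕ) : ℝ) := by positivity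
  have hkb' : ((q + 1 : ℕ) : ℝ) * k ≤ n - 1 := by
    have h1 : (((q + 1) * k : ℕ) : ℝ) ≤ ((n - 1 : ℕ) : ℝ) := by exact_mod_cast hkb
    rw [Nat.cast_sub (by omega)] at h1
    push_cast at h1 ⊢
    exact h1
  have hx1 : (k : ℝ) ≤ ((n : ℝ) - 1) / ((q + 1 : ℕ) : ℝ) := by
    rw [le_div_iff₀ hb0]
    linarith
  have hx2 : ((n : ℝ) - 1) / ((q + 1 : ℕ) : ℝ) ≤ x := by
    rw [div_le_iff₀ hb0]
    push_cast
    nlinarith
  have hgame := game (b := q + 1) (k := k) (n := n) (by omega) (by omega) WF_zero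
    (fun m r p hm _ hp0 _ hr => WF_H1 m r p hm hp0 hr)
    (fun m r hm _ hr => WF_H2 m r hm hr) hwin
  set y : ℝ := ((n : ℝ) - 1) / ((q + 1 : ℕ) : ℝ) with hy
  have h3 : 2 * F k (x - k) - x ≤ 2 * WF y k - y := by
    have h4 : F k (x - k) ≤ F k (y - k) := F_anti k (by linarith) (by linarith)
    unfold WF
    linarith
  have h4 : y / ((q + 1 : ℕ) : ℝ) < 2 * F k (x - k) - x := by
    have h5 : (n : ℝ) < ((q + 1 : ℕ) : ℝ) * x := by
      push_cast
      nlinarith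
    have h6 : y / ((q + 1 : ℕ) : ℝ) ≤ x / ((q + 1 : ℕ) : ℝ) :=
      div_le_div_of_nonneg_right hx2 hb0.le
    refine h6.trans_lt ?_
    rw [div_lt_iff₀ hb0]
    have hδ : 0 < 2 * F k (x - k) - x := by
      by_contra hc
      push Not at hc
      have : (n : ℝ) * (2 * F k (x - k) - x) ≤ 0 :=
        mul_nonpos_of_nonneg_of_nonpos (by linarith) hc
      have : 0 < x ^ 2 := by positivity
      linarith
    have h7 : x * x < (2 * F k (x - k) - x) * ((q + 1 : ℕ) : ℝ) * x := by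
      calc x * x = x ^ 2 := by ring
        _ ≤ n * (2 * F k (x - k) - x) := hx
        _ < ((q + 1 : ℕ) : ℝ) * x * (2 * F k (x - k) - x) := mul_lt_mul_of_pos_right h5 hδ
        _ = (2 * F k (x - k) - x) * ((q + 1 : ℕ) : ℝ) * x := by ring
    exact lt_of_mul_lt_mul_right h7 hx0.le
  linarith

end Pool.Agent.Helper40.WT
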