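import Pool.Agent.Helper40.WT.Game2
import Pool.Agent.Helper40.WT.LamB
import Pool.Agent.Helper40.WT.CvxP
import Pool.Agent.Helper40.WT.NumK
import Pool.Agent.Helper40.WT.UpG

/-!
# MP_c8f8f3_co, project WT: the better upper bounds for k = 1 and k = 2
-/

set_option autoImplicit false

namespace Pool.Agent.Helper40.WT

open Finset Pool.Agent.Helper72.WC Pool.Agent.Helper40.WC

/-- The probability of being satisfied in time. -/
noncomputable def hP (r : ℝ) (m : ℕ) : ℝ := if (m : ℝ) ≤ r ∨ m = 0 then 1 - P m (r - m) else 0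

theorem hP_eq {r : ℝ} {m : ℕ} (h : (m : ℝ) ≤ r) : hP r m = 1 - P m (r - m) := by
  unfold hP
  rw [if_pos (Or.inl h)]

theorem hP_zero (r : ℝ) : hP r 0 = 1 := by
  unfold hP
  rw [if_pos (Or.inr rfl), P_zero]
  ring

theorem pot_two {k : ℕ} (hk : k ≤ 2) : Pot k WF hP where
  W0 := WF_zero
  h0 := hP_zero
  nonneg := by
    intro r m
    rcases Nat.eq_zero_or_pos m with h | h
    · subst h
      rw [hP_zero]
      norm_num
    · unfold hP
      split_ifs with h1
      · have h2 : (m : ℝ) ≤ r := by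
          rcases h1 with h1 | h1
          · exact h1
          · omega
        have := P_le_one m (a := r - m) (by linarith)
        linarith
      · exact le_rfl
  le_one := by
    intro r m
    rcases Nat.eq_zero_or_pos m with h | h
    · subst h
      rw [hP_zero]
    · unfold hP
      split_ifs with h1
      · have h2 : (m : ℝ) ≤ r := by
          rcases h1 with h1 | h1
          · exact h1
          · omega
        have := P_nonneg m (a := r - m) (by linarith)
        linarith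
      · exact zero_le_one
  H1 := by
    intro m r p hm hmk hp0 hp1 hr hlt
    obtain ⟨j, rfl⟩ : ∃ j, m = j + 1 := ⟨m - 1, by omega⟩
    rw [hP_eq hr]
    unfold WF
    have e2 : j + 1 - 1 = j := by omega
    rcases hp1.lt_or_eq with h | h
    · have h1 := hlt h
      have h2 := loss_two (j + 1) hm (hmk.trans hk) (s := r - p - ((j + 1 : ℕ) : ℝ)) (p := p)
        (by linarith) hp0 hp1
      have e1 : r - p - ((j + 1 : ℕ) : ℝ) + p = r - ((j + 1 : ℕ) : ℝ) := by ring
      have e3 : r - p - ((j + 1 : ℕ) : ℝ) + 1 = r - p - (j : ℝ) := by push_cast; ring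
      rw [e1, e2, e3] at h2
      rw [e2]
      linarith
    · subst h
      rw [e2, F_succ]
      have e3 : r - 1 - (j : ℝ) = r - ((j + 1 : ℕ) : ℝ) := by push_cast; ring
      rw [e3]
      linarith
  H2 := by
    intro m r p hm _ hp0 hp1 hr hlt
    obtain ⟨j, rfl⟩ : ∃ j, m = j + 1 := ⟨m - 1, by omega⟩
    have e2 : j + 1 - 1 = j := by omega
    have hc : ((j + 1 : ℕ) : ℝ) = (j : ℝ) + 1 := by push_cast; ring
    rw [hP_eq hr, e2]
    rcases hp1.lt_or_eq with h | h
    · have h1 := hlt h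
      rw [hP_eq h1, hP_eq (show (j : ℝ) ≤ r - p by rw [hc] at h1; linarith)]
      have h2 := P_sub j (s := r - p - ((j + 1 : ℕ) : ℝ)) (p := p) (by linarith) hp0
      have e1 : r - p - ((j + 1 : ℕ) : ℝ) + p = r - ((j + 1 : ℕ) : ℝ) := by ring
      have e3 : r - p - ((j + 1 : ℕ) : ℝ) + 1 = r - p - (j : ℝ) := by push_cast; ring
      rw [e1, e3] at h2
      linarith
    · subst h
      rw [hP_eq (show (j : ℝ) ≤ r - 1 by rw [hc] at hr; linarith)]
      have e3 : r - 1 - (j : ℝ) = r - ((j + 1 : ℕ) : ℝ) := by push_cast; ring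
      rw [e3]
      have h2 := P_mono (m := j) (M := j + 1) (Nat.le_succ _) (a := r - ((j + 1 : ℕ) : ℝ))
        (by linarith)
      linarith

theorem upper_core2 {k n : ℕ} {x : ℝ} (hk1 : 1 ≤ k) (hk2 : k ≤ 2) (hn : 2000 ≤ n)
    (hx0 : 0 < x) (hxn : 3 * x ^ 2 ≤ 2000 * 0.015)
    (hnum : ∀ a : ℝ, 0 ≤ a → a ≤ x - k → 0.015 ≤ 2 * F k a - (k + a) * (1 - (1 - P k a) ^ 2)) :
    (qD k n : ℝ) ≤ n / x := by
  have hn' : (2000 : ℝ) ≤ n := by exact_mod_cast hn
  rcases qD_spec (k := k) (n := n) (by omega) (by omega) with h | ⟨hq, hwin⟩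
  · rw [h]
    simp only [Nat.cast_zero]
    positivity
  by_contra hcon
  push Not at hcon
  rw [div_lt_iff₀ hx0] at hcon
  set q := qD k n with hqdef
  have hkb := kb_le (k := k) (n := n) (by omega) (by omega) hq hwin
  have hb0 : (0 : ℝ) < ((q + 1 : ℕ) : ℝ) := by positivity
  have hkb' : ((q + 1 : ℕ) : ℝ) * k ≤ n - 1 := by
    have h1 : (((q + 1) * k : ℕ) : ℝ) ≤ ((n - 1 : ℕ) : ℝ) := by exact_mod_cast hkb
    rw [Nat.cast_sub (by omega)] at h1
    push_cast at h1 ⊢
    exact h1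
  have hx1 : (k : ℝ) ≤ ((n : ℝ) - 1) / ((q + 1 : ℕ) : ℝ) := by
    rw [le_div_iff₀ hb0]
    linarith
  have hx2 : ((n : ℝ) - 1) / ((q + 1 : ℕ) : ℝ) ≤ x := by
    rw [div_le_iff₀ hb0]
    push_cast
    nlinarith
  have hgame := game2 (b := q + 1) (k := k) (n := n) (by omega) (by omega) (pot_two hk2) hwin
  set y : ℝ := ((n : ℝ) - 1) / ((q + 1 : ℕ) : ℝ) with hy
  rw [hP_eq hx1] at hgame
  unfold WF at hgame
  have h3 := hnum (y - k) (by linarith) (by linarith)
  have e1 : (k : ℝ) + (y - k) = y := by ring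
  rw [e1] at h3
  have h4 : 3 * (y / ((q + 1 : ℕ) : ℝ)) < 0.015 := by
    have h5 : (n : ℝ) < ((q + 1 : ℕ) : ℝ) * x := by
      push_cast
      nlinarith
    have h6 : y / ((q + 1 : ℕ) : ℝ) ≤ x / ((q + 1 : ℕ) : ℝ) :=
      div_le_div_of_nonneg_right hx2 hb0.le
    have h7 : 3 * (x / ((q + 1 : ℕ) : ℝ)) < 0.015 := by
      rw [← mul_div_assoc, div_lt_iff₀ hb0]
      have h8 : 3 * x * x < 0.015 * ((q + 1 : ℕ) : ℝ) * x := by
        calc 3 * x * x = 3 * x ^ 2 := by ring
          _ ≤ 2000 * 0.015 := hxn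
          _ ≤ n * 0.015 := by linarith
          _ < ((q + 1 : ℕ) : ℝ) * x * 0.015 := by linarith
          _ = 0.015 * ((q + 1 : ℕ) : ℝ) * x := by ring
      exact lt_of_mul_lt_mul_right h8 hx0.le
    linarith
  linarith

theorem upper_one_new {n : ℕ} (hn : 2000 ≤ n) : (qD 1 n : ℝ) ≤ n / 1.45 := by
  refine upper_core2 le_rfl (by norm_num) hn (by norm_num) (by norm_num) ?_
  intro a h0 ha
  have := numK_one h0 (by push_cast at ha; linarith)
  push_cast
  linarith

theorem upper_two_new {n : ℕ} (hn : 2000 ≤ n) : (qD 2 n : ℝ) ≤ n / 2.65 := by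
  refine upper_core2 (by norm_num) le_rfl hn (by norm_num) (by norm_num) ?_
  intro a h0 ha
  have := numK_two h0 (by push_cast at ha; linarith)
  push_cast
  linarith

end Pool.Agent.Helper40.WT
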