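import Pool.Agent.Helper40.WT.BorDefs

set_option autoImplicit false

namespace Pool.Agent.Helper40.WT

open Finset

/-- `g i 1 = l^(l-1) exp(-l) / l!` with `l = i + 1`; Stirling's lower bound for `l!`
(`Stirling.sqrt_pi_le_stirlingSeq`) gives `≤ 1 / (l √(2 π l))`, and `1/√(2π) < 0.399`. -/
theorem g_one_le (i : ℕ) : g i 1 ≤ 0.399 / (((i : ℝ) + 1) * √((i : ℝ) + 1)) := by
  have key : g i 1 * ((i + 1).factorial : ℝ) =
      ((i : ℝ) + 1) ^ i * Real.exp (-((i : ℝ) + 1)) := by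
    cases i with
    | zero => rw [g_zero]; simp
    | succ j =>
      have hf : ((j + 1).factorial : ℝ) ≠ 0 := by exact_mod_cast Nat.factorial_ne_zero _
      have e : (1 : ℝ) + ((j : ℝ) + 1) = ((j + 1 : ℕ) : ℝ) + 1 := by push_cast; ring
      rw [g_succ, Nat.factorial_succ (j + 1), e, one_mul]
      rw [div_mul_eq_mul_div, div_eq_iff hf]
      push_cast
      ring
  have hst := Stirling.le_factorial_stirling (i + 1)
  rw [Nat.cast_add, Nat.cast_one] at hst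
  have hl : (0 : ℝ) < (i : ℝ) + 1 := by positivity
  have h1 : (((i : ℝ) + 1) / Real.exp 1) ^ (i + 1) =
      ((i : ℝ) + 1) ^ (i + 1) * Real.exp (-((i : ℝ) + 1)) := by
    rw [div_pow, ← Real.exp_nat_mul, Real.exp_neg, Nat.cast_add, Nat.cast_one, mul_one]
    rfl
  have h2 : √(2 * Real.pi * ((i : ℝ) + 1)) = √(2 * Real.pi) * √((i : ℝ) + 1) :=
    Real.sqrt_mul (by positivity) _
  have h3 : 1 ≤ 0.399 * √(2 * Real.pi) := by
    have hp := Real.pi_gt_d4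
    have : (2.5065 : ℝ) ≤ √(2 * Real.pi) := by
      apply Real.le_sqrt_of_sq_le
      norm_num at hp ⊢
      linarith
    norm_num at this ⊢
    linarith
  have hF : (0 : ℝ) < ((i + 1).factorial : ℝ) := by exact_mod_cast Nat.factorial_pos _
  have hs : 0 < √((i : ℝ) + 1) := Real.sqrt_pos.mpr hl
  rw [le_div_iff₀ (by positivity)]
  have h4 : g i 1 * (((i : ℝ) + 1) * √((i : ℝ) + 1)) * ((i + 1).factorial : ℝ) ≤
      0.399 * ((i + 1).factorial : ℝ) := by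
    have e1 : g i 1 * (((i : ℝ) + 1) * √((i : ℝ) + 1)) * ((i + 1).factorial : ℝ) =
        √((i : ℝ) + 1) * (((i : ℝ) + 1) ^ (i + 1) * Real.exp (-((i : ℝ) + 1))) := by
      calc g i 1 * (((i : ℝ) + 1) * √((i : ℝ) + 1)) * ((i + 1).factorial : ℝ)
          = (g i 1 * ((i + 1).factorial : ℝ)) * (((i : ℝ) + 1) * √((i : ℝ) + 1)) := by ring
        _ = _ := by rw [key]; ring
    rw [e1]
    rw [h1, h2] at hst
    have hX : 0 ≤ √((i : ℝ) + 1) * (((i : ℝ) + 1) ^ (i + 1) * Real.exp (-((i : ℝ) + 1))) := by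
      positivity
    calc √((i : ℝ) + 1) * (((i : ℝ) + 1) ^ (i + 1) * Real.exp (-((i : ℝ) + 1)))
        ≤ (0.399 * √(2 * Real.pi)) *
          (√((i : ℝ) + 1) * (((i : ℝ) + 1) ^ (i + 1) * Real.exp (-((i : ℝ) + 1)))) :=
          le_mul_of_one_le_left hX h3
      _ = 0.399 * (√(2 * Real.pi) * √((i : ℝ) + 1) *
          (((i : ℝ) + 1) ^ (i + 1) * Real.exp (-((i : ℝ) + 1)))) := by ring
      _ ≤ 0.399 * ((i + 1).factorial : ℝ) :=
          mul_le_mul_of_nonneg_left hst (by norm_num)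
  exact le_of_mul_le_mul_right h4 hF

/-- `x^(-3/2) ≤ 2 ((x-1/2)^(-1/2) - (x+1/2)^(-1/2))`, `x = i + 1`. -/
theorem tail_step (i : ℕ) : 0.399 / (((i : ℝ) + 1) * √((i : ℝ) + 1)) ≤
    0.798 * (1 / √((i : ℝ) + 1 / 2) - 1 / √((i : ℝ) + 3 / 2)) := by
  have hi : (0 : ℝ) ≤ (i : ℝ) := Nat.cast_nonneg i
  have ha : 0 < √((i : ℝ) + 1 / 2) := Real.sqrt_pos.mpr (by linarith)
  have hb : 0 < √((i : ℝ) + 3 / 2) := Real.sqrt_pos.mpr (by linarith)
  have hc : 0 < √((i : ℝ) + 1) := Real.sqrt_pos.mpr (by linarith)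
  have ha2 : √((i : ℝ) + 1 / 2) ^ 2 = (i : ℝ) + 1 / 2 := Real.sq_sqrt (by linarith)
  have hb2 : √((i : ℝ) + 3 / 2) ^ 2 = (i : ℝ) + 3 / 2 := Real.sq_sqrt (by linarith)
  have hc2 : √((i : ℝ) + 1) ^ 2 = (i : ℝ) + 1 := Real.sq_sqrt (by linarith)
  generalize √((i : ℝ) + 1 / 2) = a at *
  generalize √((i : ℝ) + 3 / 2) = b at *
  generalize √((i : ℝ) + 1) = c at *
  have hab : a * b ≤ c ^ 2 := by
    nlinarith [sq_nonneg (a - b)]
  have hsum : a + b ≤ 2 * c := by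
    apply le_of_sq_le_sq _ (by positivity)
    nlinarith
  have e : 1 / a - 1 / b = 1 / (a * b * (a + b)) := by
    field_simp
    nlinarith
  rw [e, ← hc2]
  have h1 : a * b * (a + b) ≤ c ^ 2 * (2 * c) :=
    mul_le_mul hab hsum (by positivity) (by positivity)
  have h2 : 1 / (c ^ 2 * (2 * c)) ≤ 1 / (a * b * (a + b)) :=
    one_div_le_one_div_of_le (by positivity) h1
  calc 0.399 / (c ^ 2 * c) = 0.798 * (1 / (c ^ 2 * (2 * c))) := by
        field_simp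
        norm_num
    _ ≤ 0.798 * (1 / (a * b * (a + b))) := mul_le_mul_of_nonneg_left h2 (by norm_num)

/-- `1/√(m+3/2) ≤ 2 (√(m+2) - √(m+1))`. -/
theorem sqrt_step (m : ℕ) : 1 / √((m : ℝ) + 3 / 2) ≤ 2 * (√((m : ℝ) + 2) - √((m : ℝ) + 1)) := by
  have hi : (0 : ℝ) ≤ (m : ℝ) := Nat.cast_nonneg m
  have ha : 0 < √((m : ℝ) + 1) := Real.sqrt_pos.mpr (by linarith)
  have hb : 0 < √((m : ℝ) + 2) := Real.sqrt_pos.mpr (by linarith)
  have hc : 0 < √((m : ℝ) + 3 / 2) := Real.sqrt_pos.mpr (by linarith)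
  have ha2 : √((m : ℝ) + 1) ^ 2 = (m : ℝ) + 1 := Real.sq_sqrt (by linarith)
  have hb2 : √((m : ℝ) + 2) ^ 2 = (m : ℝ) + 2 := Real.sq_sqrt (by linarith)
  have hc2 : √((m : ℝ) + 3 / 2) ^ 2 = (m : ℝ) + 3 / 2 := Real.sq_sqrt (by linarith)
  generalize √((m : ℝ) + 1) = a at *
  generalize √((m : ℝ) + 2) = b at *
  generalize √((m : ℝ) + 3 / 2) = c at *
  have hsum : a + b ≤ 2 * c := by
    apply le_of_sq_le_sq _ (by positivity)
    nlinarith [sq_nonneg (a - b)]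
  have e : 2 * (b - a) = 2 / (a + b) := by
    rw [eq_div_iff (by positivity)]
    nlinarith
  rw [e]
  rw [div_le_div_iff₀ hc (by positivity)]
  linarith

end Pool.Agent.Helper40.WT
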