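import Pool.Agent.Helper40.WT.Qb
import Pool.Agent.Helper40.WT.RkA

set_option autoImplicit false

namespace Pool.Agent.Helper40.WT

open Finset

private theorem Rk_tel (l j : ℕ) : P (l + j) 1 ≤ P l 1 +
    0.798 * (1 / √((l : ℝ) + 1 / 2) - 1 / √(((l + j : ℕ) : ℝ) + 1 / 2)) := by
  induction j with
  | zero => simp
  | succ j ih =>
    rw [← add_assoc, P_succ]
    have h1 := (g_one_le (l + j)).trans (tail_step (l + j))
    have e : (((l + j + 1 : ℕ) : ℝ)) + 1 / 2 = ((l + j : ℕ) : ℝ) + 3 / 2 := by push_cast; ring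
    rw [e]
    linarith

/-- `1 - ε ≤ P N 1 = P l 1 + ∑_{l ≤ i < N} g i 1` (`P_one_lim`) and telescoping with `g_one_le`,
`tail_step`. -/
theorem one_sub_P_le (l : ℕ) : 1 - P l 1 ≤ 0.798 / √((l : ℝ) + 1 / 2) := by
  refine le_of_forall_pos_le_add fun ε hε => ?_
  obtain ⟨N0, hN0⟩ := P_one_lim hε
  have h1 := hN0 (l + N0) (Nat.le_add_left _ _)
  have h2 := Rk_tel l N0
  have h3 : 0 ≤ 1 / √(((l + N0 : ℕ) : ℝ) + 1 / 2) := by positivity
  have h4 : 0.798 / √((l : ℝ) + 1 / 2) = 0.798 * (1 / √((l : ℝ) + 1 / 2)) := by ring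
  rw [h4]
  linarith

/-- Induction on `m` with `F_succ`, `one_sub_P_le (m+1)`, `sqrt_step m`. -/
theorem R_le (m : ℕ) : (m : ℝ) + 1 - F m 1 ≤ 1.6 * √((m : ℝ) + 1) - 0.5 := by
  induction m with
  | zero =>
    rw [F_zero]
    norm_num
  | succ m ih =>
    rw [F_succ]
    have h1 := one_sub_P_le (m + 1)
    have h2 := sqrt_step m
    have e1 : ((m + 1 : ℕ) : ℝ) + 1 / 2 = (m : ℝ) + 3 / 2 := by push_cast; ring
    have e2 : ((m + 1 : ℕ) : ℝ) + 1 = (m : ℝ) + 2 := by push_cast; ring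
    rw [e1] at h1
    rw [e2]
    have h3 : 0.798 / √((m : ℝ) + 3 / 2) = 0.798 * (1 / √((m : ℝ) + 3 / 2)) := by ring
    have h4 : 0 ≤ √((m : ℝ) + 2) - √((m : ℝ) + 1) := by
      have := Real.sqrt_le_sqrt (show (m : ℝ) + 1 ≤ (m : ℝ) + 2 by linarith)
      linarith
    rw [h3] at h1
    nlinarith

end Pool.Agent.Helper40.WT
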