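import Pool.Agent.Helper40.WT.Cvx
import Pool.Agent.Helper40.WT.Rk
import Pool.Agent.Helper40.WT.UpG

set_option autoImplicit false

namespace Pool.Agent.Helper40.WT

open Finset Pool.Agent.Helper72.WC

/-- The condition of `upper_gen` for `x = k + 0.3 √k`. -/
theorem sqrt_cond {k n : ℕ} (hk : 1 ≤ k) (hn : 43 * k ≤ n) :
    ((k : ℝ) + 0.3 * √(k : ℝ)) ^ 2 ≤
      n * (2 * F k ((k : ℝ) + 0.3 * √(k : ℝ) - k) - ((k : ℝ) + 0.3 * √(k : ℝ))) := by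
  obtain ⟨m, rfl⟩ : ∃ m, k = m + 1 := ⟨k - 1, by omega⟩
  have hR := R_le m
  have hn' : 43 * (((m + 1 : ℕ) : ℝ)) ≤ n := by exact_mod_cast hn
  set s := √((m : ℝ) + 1) with hs
  have hcast : (((m + 1 : ℕ) : ℝ)) = (m : ℝ) + 1 := by push_cast; ring
  have hss : s ^ 2 = (m : ℝ) + 1 := Real.sq_sqrt (by positivity)
  have hs1 : 1 ≤ s := Real.one_le_sqrt.2 (by linarith [(Nat.cast_nonneg m : (0:ℝ) ≤ m)])
  have hT := F_tangent m (a := 0.3 * s) (by positivity)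
  rw [hcast] at hn' ⊢
  have e : (m : ℝ) + 1 + 0.3 * √((m : ℝ) + 1) - ((m : ℝ) + 1) = 0.3 * s := by rw [← hs]; ring
  rw [e, ← hs]
  have h1 : 0.3 * s * ((m : ℝ) + 1 - F m 1) ≤ 0.3 * s * (1.6 * s - 0.5) :=
    mul_le_mul_of_nonneg_left hR (by positivity)
  have h2 : 0.04 * s ^ 2 ≤ 2 * F (m + 1) (0.3 * s) - ((m : ℝ) + 1 + 0.3 * s) := by
    rw [← hss] at hT ⊢
    rw [← hss] at h1
    nlinarith
  have h3 : (n : ℝ) * (0.04 * s ^ 2) ≤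
      n * (2 * F (m + 1) (0.3 * s) - ((m : ℝ) + 1 + 0.3 * s)) :=
    mul_le_mul_of_nonneg_left h2 (Nat.cast_nonneg _)
  refine le_trans ?_ h3
  rw [← hss] at hn' ⊢
  have h4 : 43 * s ^ 2 * (0.04 * s ^ 2) ≤ n * (0.04 * s ^ 2) :=
    mul_le_mul_of_nonneg_right hn' (by positivity)
  refine le_trans ?_ h4
  have h5 : s ^ 2 + 0.3 * s ≤ 1.3 * s ^ 2 := by nlinarith
  have h6 : (s ^ 2 + 0.3 * s) ^ 2 ≤ (1.3 * s ^ 2) ^ 2 :=
    pow_le_pow_left₀ (by positivity) h5 2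
  nlinarith [pow_nonneg (le_trans zero_le_one hs1) 4]

/-- For every `k ≥ 1` and `n ≥ 43 k`: `q_{D_k}(n) ≤ n / (k + 0.3 √k)`. -/
theorem upper_sqrt {k n : ℕ} (hk : 1 ≤ k) (hn : 43 * k ≤ n) :
    (qD k n : ℝ) ≤ n / (k + 0.3 * √(k : ℝ)) :=
  upper_gen hk (by omega) (by have := Real.sqrt_nonneg (k : ℝ); linarith) (sqrt_cond hk hn)

end Pool.Agent.Helper40.WT
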