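import Mathlib

set_option autoImplicit false

namespace Pool.Agent.Helper40.WT

/-- A function on `[0,1]` which first increases and then decreases. -/
theorem unimodal {f ψ : ℝ → ℝ} (hf : ∀ p, HasDerivAt f (p * ψ p) p) (h0 : 0 ≤ f 0) (h1 : 0 ≤ f 1)
    (hψ : ∀ p q, 0 ≤ p → p ≤ q → q ≤ 1 → ψ q ≤ ψ p) {p : ℝ} (hp0 : 0 ≤ p) (hp1 : p ≤ 1) :
    0 ≤ f p := by
  have hd : Differentiable ℝ f := fun x => (hf x).differentiableAt
  have hc : Continuous f := hd.continuous
  rcases le_or_gt 0 (ψ p) with h | h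
  · have hm : MonotoneOn f (Set.Icc 0 p) := by
      apply monotoneOn_of_deriv_nonneg (convex_Icc 0 p) hc.continuousOn hd.differentiableOn
      intro x hx
      rw [interior_Icc] at hx
      rw [(hf x).deriv]
      exact mul_nonneg hx.1.le (h.trans (hψ x p hx.1.le hx.2.le hp1))
    exact h0.trans (hm (Set.left_mem_Icc.2 hp0) (Set.right_mem_Icc.2 hp0) hp0)
  · have hm : AntitoneOn f (Set.Icc p 1) := by
      apply antitoneOn_of_deriv_nonpos (convex_Icc p 1) hc.continuousOn hd.differentiableOn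
      intro x hx
      rw [interior_Icc] at hx
      rw [(hf x).deriv]
      exact mul_nonpos_of_nonneg_of_nonpos (hp0.trans hx.1.le)
        ((hψ p x hp0 hx.1.le hx.2.le).trans h.le)
    exact h1.trans (hm (Set.left_mem_Icc.2 hp1) (Set.right_mem_Icc.2 hp1) hp1)

end Pool.Agent.Helper40.WT
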