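import Pool.Agent.Helper40.WT.DD2
import Pool.Agent.Helper40.WT.Uni

set_option autoImplicit false

namespace Pool.Agent.Helper40.WT

open Finset

private theorem LossG_sub (m : ℕ) (s c p : ℝ) :
    HasDerivAt (fun q => F (m + 1) (s - q + c)) (F (m + 1) (s - p + c) - F m (s - p + c + 1)) p := by
  have h1 : HasDerivAt (fun q : ℝ => s - q + c) (-1) p := by
    have h := ((hasDerivAt_id p).const_sub s).add_const c
    exact h
  have h2 := (F_deriv m (s - p + c)).comp p h1
  have h3 : (-F (m + 1) (s - p + c) + F m (s - p + c + 1)) * (-1) =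
      F (m + 1) (s - p + c) - F m (s - p + c + 1) := by ring
  rw [h3] at h2
  exact h2

private theorem LossG_der (m : ℕ) (s p : ℝ) :
    HasDerivAt (fun q => (1 - q) * F (m + 1) (s - q) + q * F m (s - q + 1) +
      q ^ 2 * P (m + 1) s - F (m + 1) s) (p * (2 * P (m + 1) s - DD m (s - p))) p := by
  have hA : HasDerivAt (fun q => F (m + 1) (s - q)) (F (m + 1) (s - p) - F m (s - p + 1)) p := by
    have h := LossG_sub m s 0 p
    simpa only [add_zero] using h
  have hid : HasDerivAt (fun q : ℝ => q) 1 p := hasDerivAt_id p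
  have h1 : HasDerivAt (fun q : ℝ => 1 - q) (-1) p := by
    simpa using hid.const_sub 1
  have h2 : HasDerivAt (fun q : ℝ => q ^ 2) (2 * p) p := by
    simpa using hasDerivAt_pow 2 p
  have h3 := h1.mul hA
  have h4 := h2.mul_const (P (m + 1) s)
  cases m with
  | zero =>
    have h5 : HasDerivAt (fun q : ℝ => q * F 0 (s - q + 1)) 0 p := by
      have h6 : (fun q : ℝ => q * F 0 (s - q + 1)) = fun _ => 0 := by
        funext q
        rw [F_zero, mul_zero]
      rw [h6]
      exact hasDerivAt_const p (0 : ℝ)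
    have h7 := ((h3.add h5).add h4).sub_const (F (0 + 1) s)
    have h8 : DD 0 (s - p) = F 1 (s - p) := rfl
    have h10 : p * (2 * P (0 + 1) s - DD 0 (s - p)) =
        -1 * F (0 + 1) (s - p) + (1 - p) * (F (0 + 1) (s - p) - F 0 (s - p + 1)) + 0 +
          2 * p * P (0 + 1) s := by
      rw [h8, F_zero]
      simp only [zero_add]
      ring
    rw [h10]
    exact h7
  | succ m =>
    have h6 := LossG_sub m s 1 p
    have h5 := hid.mul h6
    have h7 := ((h3.add h5).add h4).sub_const (F (m + 1 + 1) s)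
    have h8 : DD (m + 1) (s - p) =
      F (m + 2) (s - p) - 2 * F (m + 1) (s - p + 1) + F m (s - p + 2) := rfl
    have h9 : s - p + 1 + 1 = s - p + 2 := by ring
    have h10 : p * (2 * P (m + 1 + 1) s - DD (m + 1) (s - p)) =
        -1 * F (m + 1 + 1) (s - p) + (1 - p) * (F (m + 1 + 1) (s - p) - F (m + 1) (s - p + 1)) +
        (1 * F (m + 1) (s - p + 1) + p * (F (m + 1) (s - p + 1) - F m (s - p + 1 + 1))) +
      2 * p * P (m + 1 + 1) s := by
      rw [h8, h9]
      ring
    rw [h10]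
    exact h7

/-- For fixed `s` put `f p = (1-p) F (m+1) (s-p) + p F m (s-p+1) + p^2 P (m+1) s - F (m+1) s`. Then
`f 0 = 0`, `f 1 = F m s + P (m+1) s - F (m+1) s = 0` (`F_succ`), and
`f' p = p (2 P (m+1) s - DD m (s-p))` (`F_deriv`; for `m = 0` `F 0 = 0`). Use `unimodal` with
`DD_anti` (`s - p ≥ -1`). -/
theorem loss_gen (m : ℕ) {s p : ℝ} (hs : 0 ≤ s) (h0 : 0 ≤ p) (h1 : p ≤ 1) :
    F (m + 1) s - p ^ 2 * P (m + 1) s ≤ (1 - p) * F (m + 1) (s - p) + p * F m (s - p + 1) := by
  have h := unimodal (f := fun q => (1 - q) * F (m + 1) (s - q) + q * F m (s - q + 1) +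
      q ^ 2 * P (m + 1) s - F (m + 1) s) (ψ := fun q => 2 * P (m + 1) s - DD m (s - q))
    (fun q => LossG_der m s q) ?_ ?_ ?_ h0 h1
  · have h' : 0 ≤ (1 - p) * F (m + 1) (s - p) + p * F m (s - p + 1) +
      p ^ 2 * P (m + 1) s - F (m + 1) s := h
    linarith
  · show 0 ≤ (1 - 0) * F (m + 1) (s - 0) + 0 * F m (s - 0 + 1) + 0 ^ 2 * P (m + 1) s - F (m + 1) s
    simp only [sub_zero]
    apply le_of_eq
    ring
  · show 0 ≤ (1 - 1) * F (m + 1) (s - 1) + 1 * F m (s - 1 + 1) + 1 ^ 2 * P (m + 1) s - F (m + 1) s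
    have h2 : s - 1 + 1 = s := by ring
    rw [h2, F_succ m s]
    apply le_of_eq
    ring
  · intro q r hq hqr hr
    have h2 := DD_anti m (a := s - r) (c := s - q) (by linarith) (by linarith)
    show 2 * P (m + 1) s - DD m (s - r) ≤ 2 * P (m + 1) s - DD m (s - q)
    linarith

end Pool.Agent.Helper40.WT
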