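import Pool.Agent.Helper40.WT.BorDefs

set_option autoImplicit false

namespace Pool.Agent.Helper40.WT

open Finset

/-- `F 3 a = E (3 + 2ac + a(a+2)c²/2)`, `P 3 a = E (1 + ac + a(a+2)c²/2) = E q`, `E = exp(-a)`,
`c = exp(-1)`. The left side is `E ((3+a) q² E - 2a - 2ac - 2a²c - 2a(a+2)c² - a²(a+2)c²)`; for
`a ≤ 0.8` it is at least `0.0275`. -/
theorem numK_three {a : ℝ} (h0 : 0 ≤ a) (ha : a ≤ 0.8) :
    0.022 ≤ 2 * F 3 a - (3 + a) * (1 - (1 - P 3 a) ^ 2) := by
  obtain ⟨c, hc⟩ : ∃ c, c = Real.exp (-1) := ⟨_, rfl⟩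
  obtain ⟨E, hE⟩ : ∃ E, E = Real.exp (-a) := ⟨_, rfl⟩
  obtain ⟨t, ht⟩ : ∃ t, t = 0.8 - a := ⟨_, rfl⟩
  have ht0 : 0 ≤ t := by rw [ht]; linarith
  have ht1 : t ≤ 0.8 := by rw [ht]; linarith
  have hat : a = 0.8 - t := by rw [ht]; ring
  have hc0 : 0 < c := by rw [hc]; exact Real.exp_pos _
  have hE0 : 0 < E := by rw [hE]; exact Real.exp_pos _
  have hc1 : c ≤ 0.3679 := by
    have := Real.exp_neg_one_lt_d9
    rw [← hc] at this
    norm_num at this ⊢
    linarith
  have hc2 : 0.3678 ≤ c := by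
    have := Real.exp_neg_one_gt_d9
    rw [← hc] at this
    norm_num at this ⊢
    linarith
  have e1 : Real.exp (-(a + 1)) = E * c := by
    rw [hE, hc, ← Real.exp_add]
    congr 1
    ring
  have e2 : Real.exp (-(a + 2)) = E * c * c := by
    rw [hE, hc, ← Real.exp_add, ← Real.exp_add]
    congr 1
    ring
  have g0 : g 0 a = E := by rw [g_zero, hE]
  have g1 : g 1 a = a * (E * c) := by
    have h := g_succ 0 a
    norm_num at h
    rw [h]
    have e3 : Real.exp (-1 + -a) = E * c := by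
      rw [← e1]
      congr 1
      ring
    rw [e3]
  have g2 : g 2 a = a * (a + 2) * (E * c * c) / 2 := by
    have h := g_succ 1 a
    norm_num at h
    rw [h]
    have e3 : Real.exp (-2 + -a) = E * c * c := by
      rw [← e2]
      congr 1
      ring
    rw [e3]
  have hP : P 3 a = E * (1 + a * c + a * (a + 2) * c ^ 2 / 2) := by
    unfold P
    rw [Finset.sum_range_succ, Finset.sum_range_succ, Finset.sum_range_one, g0, g1, g2]
    ring
  have hF : F 3 a = E * (3 + 2 * a * c + a * (a + 2) * c ^ 2 / 2) := by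
    unfold F
    rw [Finset.sum_range_succ, Finset.sum_range_succ, Finset.sum_range_one, g0, g1, g2]
    push_cast
    ring
  have hid : 2 * F 3 a - (3 + a) * (1 - (1 - P 3 a) ^ 2) =
      E * ((3 + a) * (1 + a * c + a * (a + 2) * c ^ 2 / 2) ^ 2 * E -
        (2 * a + 2 * a * c + 2 * a ^ 2 * c + 2 * a * (a + 2) * c ^ 2 + a ^ 2 * (a + 2) * c ^ 2)) := by
    rw [hP, hF]
    ring
  rw [hid]
  -- lower bound for E
  have hE1 : 0.4493 * (1 + t) ≤ E := by
    have h1 : Real.exp (0.8 : ℝ) ≤ 2.2256 := by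
      have h := Real.exp_bound' (x := 0.8) (by norm_num) (by norm_num) (n := 8) (by norm_num)
      refine h.trans ?_
      norm_num [Finset.sum_range_succ, Nat.factorial]
    have h2 : 0.4493 ≤ Real.exp (-(0.8 : ℝ)) := by
      rw [Real.exp_neg, ← one_div]
      refine le_trans ?_ (one_div_le_one_div_of_le (Real.exp_pos _) h1)
      norm_num
    have h3 : E = Real.exp (-(0.8 : ℝ)) * Real.exp t := by
      rw [hE, ht, ← Real.exp_add]
      congr 1
      ring
    have h4 : 1 + t ≤ Real.exp t := by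
      have := Real.add_one_le_exp t
      linarith
    rw [h3]
    exact mul_le_mul h2 h4 (by linarith) (Real.exp_pos _).le
  have hE2 : 0.4493 ≤ E := by nlinarith
  have hcc : c ^ 2 ≤ 0.13535041 := by nlinarith
  have hcc2 : 0.13527684 ≤ c ^ 2 := by nlinarith
  have ha2 : 0 ≤ a * (a + 2) := by positivity
  have hq : 1 + a * 0.3678 + a * (a + 2) * 0.13527684 / 2 ≤ 1 + a * c + a * (a + 2) * c ^ 2 / 2 := by
    have h1 := mul_le_mul_of_nonneg_left hc2 h0
    have h2 := mul_le_mul_of_nonneg_left hcc2 ha2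
    linarith
  have hq2 : (1 + a * 0.3678 + a * (a + 2) * 0.13527684 / 2) ^ 2 ≤
      (1 + a * c + a * (a + 2) * c ^ 2 / 2) ^ 2 := pow_le_pow_left₀ (by positivity) hq 2
  have hX1 : (3 + a) * (1 + a * 0.3678 + a * (a + 2) * 0.13527684 / 2) ^ 2 * (0.4493 * (1 + t)) ≤
      (3 + a) * (1 + a * c + a * (a + 2) * c ^ 2 / 2) ^ 2 * E := by
    refine mul_le_mul ?_ hE1 (by positivity) (by positivity)
    exact mul_le_mul_of_nonneg_left hq2 (by linarith)
  have hR : 2 * a + 2 * a * c + 2 * a ^ 2 * c + 2 * a * (a + 2) * c ^ 2 + a ^ 2 * (a + 2) * c ^ 2 ≤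
      2 * a + 2 * a * 0.3679 + 2 * a ^ 2 * 0.3679 + 2 * a * (a + 2) * 0.13535041 +
        a ^ 2 * (a + 2) * 0.13535041 := by
    have h1 := mul_le_mul_of_nonneg_left hc1 (by positivity : 0 ≤ 2 * a)
    have h2 := mul_le_mul_of_nonneg_left hc1 (by positivity : 0 ≤ 2 * a ^ 2)
    have h3 := mul_le_mul_of_nonneg_left hcc (by positivity : 0 ≤ 2 * a * (a + 2))
    have h4 := mul_le_mul_of_nonneg_left hcc (by positivity : 0 ≤ a ^ 2 * (a + 2))
    linarith
  have hpoly : 0.049 ≤ (3 + a) * (1 + a * 0.3678 + a * (a + 2) * 0.13527684 / 2) ^ 2 *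
      (0.4493 * (1 + t)) - (2 * a + 2 * a * 0.3679 + 2 * a ^ 2 * 0.3679 +
        2 * a * (a + 2) * 0.13535041 + a ^ 2 * (a + 2) * 0.13535041) := by
    rw [hat]
    have k1 : 0 ≤ t * (0.8 - t) := mul_nonneg ht0 (by linarith)
    have k3 : 0 ≤ t ^ 3 * (0.8 - t) := mul_nonneg (by positivity) (by linarith)
    have k5 : 0 ≤ t ^ 5 * (0.8 - t) := mul_nonneg (by positivity) (by linarith)
    have l3 : 0 ≤ t ^ 3 := by positivity
    have l5 : 0 ≤ t ^ 5 := by positivity
    nlinarith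
  have hX : 0.049 ≤ (3 + a) * (1 + a * c + a * (a + 2) * c ^ 2 / 2) ^ 2 * E -
      (2 * a + 2 * a * c + 2 * a ^ 2 * c + 2 * a * (a + 2) * c ^ 2 + a ^ 2 * (a + 2) * c ^ 2) := by
    linarith
  calc (0.022 : ℝ) ≤ 0.4493 * 0.049 := by norm_num
    _ ≤ _ := mul_le_mul hE2 hX (by norm_num) hE0.le

end Pool.Agent.Helper40.WT
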