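import Pool.Agent.Helper40.WC.Sqrt

/-!
# MP_c8f8f3_co, project WT: the inequality of the game for a general potential
-/

set_option autoImplicit false

namespace Pool.Agent.Helper40.WT

open Finset Pool.Agent.Helper72.WC Pool.Agent.Helper40.WC

variable {n : ℕ}

/-- Waiter's winning positions are alive at every vertex. -/
theorem alive {b k : ℕ} {U C : Finset (Sym2 (Fin n))}
    (h : Win b (fun C => MinDeg k (gr C)) U C) (v : Fin n) : Disjoint U C → 
    k * b ≤ inc U v + b * inc C v := by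
  induction h with
  | @stop U C h1 h2 =>
    intro _
    have := minDeg_inc h2 v
    nlinarith
  | @play U C B hBU hBb _ ih =>
    intro hUC
    have hdis : ∀ e ∈ B, Disjoint (U \ B) (insert e C) := by
      intro e he
      rw [Finset.disjoint_insert_right]
      exact ⟨fun h => (mem_sdiff.1 h).2 he, hUC.mono_left sdiff_subset⟩
    have hinc : inc (U \ B) v + inc B v = inc U v := by
      have h1 := inc_sdiff hBU v
      have h2 : ((inc (U \ B) v : ℕ) : ℝ) + inc B v = inc U v := by rw [h1]; ring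
      exact_mod_cast h2
    by_cases hall : ∀ e ∈ B, v ∈ e
    · rcases B.eq_empty_or_nonempty with hB | ⟨e, he⟩
      · subst hB
        simp only [card_empty] at hBb
        subst hBb
        simp
      · have h1 := ih e he (hdis e he)
        have heC : e ∉ C := fun h => (Finset.disjoint_left.1 hUC) (hBU he) h
        have h2 := inc_insert heC v
        rw [if_pos (hall e he)] at h2
        have h3 : inc (insert e C) v = inc C v + 1 := by exact_mod_cast h2
        have h4 : inc B v = b := by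
          unfold inc
          rw [filter_true_of_mem hall, hBb]
        rw [h3] at h1
        nlinarith
    · push Not at hall
      obtain ⟨e, he, hve⟩ := hall
      have h1 := ih e he (hdis e he)
      have heC : e ∉ C := fun h => (Finset.disjoint_left.1 hUC) (hBU he) h
      have h2 := inc_insert heC v
      rw [if_neg hve] at h2
      have h3 : inc (insert e C) v = inc C v := by
        have : ((inc (insert e C) v : ℕ) : ℝ) = (inc C v : ℕ) := by rw [h2]; ring
        exact_mod_cast this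
      rw [h3] at h1
      omega

/-- The potential. -/
noncomputable def Psi (b k : ℕ) (W : ℝ → ℕ → ℝ) (U C : Finset (Sym2 (Fin n))) : ℝ :=
  ∑ v : Fin n, (2 * W (rr b U v) (k - inc C v) - rr b U v)

/-- One vertex in one round. -/
theorem vertex_round {b k : ℕ} (hb : 1 ≤ b) {W : ℝ → ℕ → ℝ} (h0 : ∀ r, W r 0 = 0)
    (h1 : ∀ (m : ℕ) (r p : ℝ), 1 ≤ m → m ≤ k → 0 ≤ p → p < 1 → (m : ℝ) ≤ r - p →
      W r m - p ^ 2 ≤ (1 - p) * W (r - p) m + p * W (r - p) (m - 1))
    (h2 : ∀ (m : ℕ) (r : ℝ), 1 ≤ m → m ≤ k → (m : ℝ) ≤ r → W r m - 1 ≤ W (r - 1) (m - 1))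
    {U C B : Finset (Sym2 (Fin n))} (hUC : Disjoint U C) (hBU : B ⊆ U) (hBb : B.card = b)
    (hwin : ∀ e ∈ B, Win b (fun C => MinDeg k (gr C)) (U \ B) (insert e C)) (v : Fin n) :
    (b : ℝ) * ((2 * W (rr b U v) (k - inc C v) - rr b U v) + (inc B v : ℝ) / b
      - 2 * ((inc B v : ℝ) / b) ^ 2) ≤
      ∑ e ∈ B, (2 * W (rr b (U \ B) v) (k - inc (insert e C) v) - rr b (U \ B) v) := by
  have hb' : (0 : ℝ) < b := by exact_mod_cast hb
  have hW : Win b (fun C => MinDeg k (gr C)) U C := Win.play B hBU hBb hwin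
  have hal := alive hW v hUC
  set r := rr b U v with hr
  set p : ℝ := (inc B v : ℝ) / b with hp
  set m : ℕ := k - inc C v with hm
  have hp0 : 0 ≤ p := by positivity
  have hp1 : p ≤ 1 := by
    rw [hp, div_le_one hb']
    have : inc B v ≤ b := by
      rw [← hBb]
      exact card_filter_le _ _
    exact_mod_cast this
  have hr' : rr b (U \ B) v = r - p := by
    unfold rr
    rw [inc_sdiff hBU, hr, hp]
    unfold rr
    ring
  have hm' : ∀ e ∈ B, k - inc (insert e C) v = if v ∈ e then m - 1 else m := by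
    intro e he
    have heC : e ∉ C := fun h => (Finset.disjoint_left.1 hUC) (hBU he) h
    have h3 := inc_insert heC v
    by_cases h : v ∈ e
    · rw [if_pos h] at h3 ⊢
      have h4 : inc (insert e C) v = inc C v + 1 := by exact_mod_cast h3
      rw [h4, hm]
      omega
    · rw [if_neg h] at h3 ⊢
      have h4 : inc (insert e C) v = inc C v := by
        have : ((inc (insert e C) v : ℕ) : ℝ) = (inc C v : ℕ) := by rw [h3]; ring
        exact_mod_cast this
      rw [h4, hm]
  have hsum : ∑ e ∈ B, (2 * W (rr b (U \ B) v) (k - inc (insert e C) v) - rr b (U \ B) v) =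
      b * (2 * ((1 - p) * W (r - p) m + p * W (r - p) (m - 1)) - (r - p)) := by
    have h3 : ∀ e ∈ B, (2 * W (rr b (U \ B) v) (k - inc (insert e C) v) - rr b (U \ B) v) =
        (2 * W (r - p) m - (r - p)) +
          (if v ∈ e then (1 : ℝ) else 0) * (2 * W (r - p) (m - 1) - 2 * W (r - p) m) := by
      intro e he
      rw [hm' e he, hr']
      by_cases h : v ∈ e
      · simp only [if_pos h]; ring
      · simp only [if_neg h]; ring
    rw [sum_congr rfl h3, sum_add_distrib, ← sum_mul]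
    have h4 : ∑ e ∈ B, (if v ∈ e then (1 : ℝ) else 0) = b * p := by
      have h5 : ((inc B v : ℕ) : ℝ) = ∑ e ∈ B, (if v ∈ e then (1 : ℝ) else 0) := by
        rw [inc_eq_sum]
        push_cast
        rfl
      rw [← h5, hp]
      field_simp
    rw [h4, sum_const, hBb, nsmul_eq_mul]
    ring
  rw [hsum]
  refine mul_le_mul_of_nonneg_left ?_ hb'.le
  suffices h : W r m - p ^ 2 ≤ (1 - p) * W (r - p) m + p * W (r - p) (m - 1) by linarith
  rcases Nat.eq_zero_or_pos m with hm0 | hmpos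
  · rw [hm0]
    simp only [h0, Nat.zero_sub, mul_zero, add_zero]
    nlinarith
  have hmk : m ≤ k := Nat.sub_le _ _
  have hmc : (m : ℝ) = k - inc C v := by
    rw [hm, Nat.cast_sub (by omega)]
  rcases hp1.lt_or_eq with hlt | heq
  · refine h1 m r p hmpos hmk hp0 hlt ?_
    -- there is a pair of `B` which misses `v`
    have hex : ∃ e ∈ B, v ∉ e := by
      by_contra hcon
      push Not at hcon
      have h3 : inc B v = b := by
        unfold inc
        rw [filter_true_of_mem hcon, hBb]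
      rw [hp, h3, div_self hb'.ne'] at hlt
      exact lt_irrefl _ hlt
    obtain ⟨e, he, hve⟩ := hex
    have heC : e ∉ C := fun h => (Finset.disjoint_left.1 hUC) (hBU he) h
    have hdis : Disjoint (U \ B) (insert e C) := by
      rw [Finset.disjoint_insert_right]
      exact ⟨fun h => (mem_sdiff.1 h).2 he, hUC.mono_left sdiff_subset⟩
    have h3 := alive (hwin e he) v hdis
    have h4 := inc_insert heC v
    rw [if_neg hve] at h4
    have h5 : inc (insert e C) v = inc C v := by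
      have : ((inc (insert e C) v : ℕ) : ℝ) = (inc C v : ℕ) := by rw [h4]; ring
      exact_mod_cast this
    rw [h5] at h3
    have h6 : (k : ℝ) * b ≤ inc (U \ B) v + b * inc C v := by exact_mod_cast h3
    rw [← hr', hmc]
    unfold rr
    rw [le_div_iff₀ hb']
    linarith
  · have h3 : (m : ℝ) ≤ r := by
      have h6 : (k : ℝ) * b ≤ inc U v + b * inc C v := by exact_mod_cast hal
      rw [hmc, hr]
      unfold rr
      rw [le_div_iff₀ hb']
      linarith
    have h4 := h2 m r hmpos hmk h3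
    rw [heq]
    linarith

theorem sum_p {b : ℕ} (hb : 1 ≤ b) {B : Finset (Sym2 (Fin n))} (hB : ∀ e ∈ B, ¬ e.IsDiag)
    (hBb : B.card = b) :
    -(2 / (b : ℝ)) ≤ ∑ v, ((inc B v : ℝ) / b - 2 * ((inc B v : ℝ) / b) ^ 2) := by
  have hb' : (0 : ℝ) < b := by exact_mod_cast hb
  have h1 : (∑ v, (inc B v : ℝ)) = 2 * b := by
    have := sum_inc hB
    rw [hBb] at this
    exact_mod_cast this
  have h2 : (∑ v, (inc B v : ℝ) ^ 2) ≤ b * (b + 1) := by
    have := sum_inc_sq hB
    rw [hBb] at this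
    exact_mod_cast this
  have h3 : ∑ v, ((inc B v : ℝ) / b - 2 * ((inc B v : ℝ) / b) ^ 2) =
      (∑ v, (inc B v : ℝ)) / b - 2 * ((∑ v, (inc B v : ℝ) ^ 2) / b ^ 2) := by
    rw [sum_div, sum_div, mul_sum, ← sum_sub_distrib]
    refine sum_congr rfl fun v _ => ?_
    field_simp
  rw [h3, h1]
  have h4 : (∑ v, (inc B v : ℝ) ^ 2) / b ^ 2 ≤ (b * (b + 1)) / (b : ℝ) ^ 2 :=
    div_le_div_of_nonneg_right h2 (by positivity)
  have h5 : (b * (b + 1)) / (b : ℝ) ^ 2 = 1 + 1 / b := by
    field_simp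
  have h6 : (2 * (b : ℝ)) / b = 2 := by field_simp
  have h7 : (2 : ℝ) / b = 2 * (1 / b) := by ring
  rw [h6, h7]
  linarith

theorem step {b k : ℕ} (hb : 1 ≤ b) {W : ℝ → ℕ → ℝ} (h0 : ∀ r, W r 0 = 0)
    (h1 : ∀ (m : ℕ) (r p : ℝ), 1 ≤ m → m ≤ k → 0 ≤ p → p < 1 → (m : ℝ) ≤ r - p →
      W r m - p ^ 2 ≤ (1 - p) * W (r - p) m + p * W (r - p) (m - 1))
    (h2 : ∀ (m : ℕ) (r : ℝ), 1 ≤ m → m ≤ k → (m : ℝ) ≤ r → W r m - 1 ≤ W (r - 1) (m - 1))
    {U C B : Finset (Sym2 (Fin n))} (hU : ∀ e ∈ U, ¬ e.IsDiag) (hUC : Disjoint U C)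
    (hBU : B ⊆ U) (hBb : B.card = b)
    (hwin : ∀ e ∈ B, Win b (fun C => MinDeg k (gr C)) (U \ B) (insert e C)) :
    ∃ e ∈ B, Psi b k W U C - 2 / b ≤ Psi b k W (U \ B) (insert e C) := by
  have hb' : (0 : ℝ) < b := by exact_mod_cast hb
  have hne : B.Nonempty := by
    rw [← card_pos]
    omega
  refine exists_le_of_sum_le hne ?_
  have hdiag : ∀ e ∈ B, ¬ e.IsDiag := fun e he => hU e (hBU he)
  have e1 : ∑ e ∈ B, Psi b k W (U \ B) (insert e C) =
      ∑ v : Fin n, ∑ e ∈ B, (2 * W (rr b (U \ B) v) (k - inc (insert e C) v)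
        - rr b (U \ B) v) := by
    unfold Psi
    rw [sum_comm]
  have e2 : ∑ v : Fin n, (b : ℝ) * ((2 * W (rr b U v) (k - inc C v) - rr b U v) +
      (inc B v : ℝ) / b - 2 * ((inc B v : ℝ) / b) ^ 2) ≤
      ∑ v : Fin n, ∑ e ∈ B, (2 * W (rr b (U \ B) v) (k - inc (insert e C) v)
        - rr b (U \ B) v) :=
    sum_le_sum fun v _ => vertex_round hb h0 h1 h2 hUC hBU hBb hwin v
  have e3 : ∑ v : Fin n, (b : ℝ) * ((2 * W (rr b U v) (k - inc C v) - rr b U v) +
      (inc B v : ℝ) / b - 2 * ((inc B v : ℝ) / b) ^ 2) =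
      b * (Psi b k W U C + ∑ v, ((inc B v : ℝ) / b - 2 * ((inc B v : ℝ) / b) ^ 2)) := by
    unfold Psi
    rw [← mul_sum, ← sum_add_distrib]
    congr 1
    refine sum_congr rfl fun v _ => ?_
    ring
  rw [e1]
  refine le_trans ?_ e2
  rw [e3, sum_const, hBb, nsmul_eq_mul]
  refine mul_le_mul_of_nonneg_left ?_ hb'.le
  have := sum_p hb hdiag hBb
  linarith

theorem main_ind {b k : ℕ} (hb : 1 ≤ b) {W : ℝ → ℕ → ℝ} (h0 : ∀ r, W r 0 = 0)
    (h1 : ∀ (m : ℕ) (r p : ℝ), 1 ≤ m → m ≤ k → 0 ≤ p → p < 1 → (m : ℝ) ≤ r - p →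
      W r m - p ^ 2 ≤ (1 - p) * W (r - p) m + p * W (r - p) (m - 1))
    (h2 : ∀ (m : ℕ) (r : ℝ), 1 ≤ m → m ≤ k → (m : ℝ) ≤ r → W r m - 1 ≤ W (r - 1) (m - 1))
    {U C : Finset (Sym2 (Fin n))} (h : Win b (fun C => MinDeg k (gr C)) U C) :
    (∀ e ∈ U, ¬ e.IsDiag) → Disjoint U C → Psi b k W U C ≤ 2 / b * ((U.card : ℝ) / b) := by
  have hb' : (0 : ℝ) < b := by exact_mod_cast hb
  induction h with
  | @stop U C e1 e2 =>
    intro _ _
    have h3 : Psi b k W U C ≤ ∑ _v : Fin n, (0 : ℝ) := by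
      refine sum_le_sum fun v _ => ?_
      have h4 : k - inc C v = 0 := by
        have := minDeg_inc e2 v
        omega
      rw [h4, h0]
      have : 0 ≤ rr b U v := by unfold rr; positivity
      linarith
    rw [sum_const_zero] at h3
    have : (0 : ℝ) ≤ 2 / b * ((U.card : ℝ) / b) := by positivity
    linarith
  | @play U C B hBU hBb hwin ih =>
    intro hU hUC
    obtain ⟨e, he, hstep⟩ := step hb h0 h1 h2 hU hUC hBU hBb hwin
    have hU' : ∀ f ∈ U \ B, ¬ f.IsDiag := fun f hf => hU f (mem_sdiff.1 hf).1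
    have hUC' : Disjoint (U \ B) (insert e C) := by
      rw [Finset.disjoint_insert_right]
      exact ⟨fun h => (mem_sdiff.1 h).2 he, hUC.mono_left sdiff_subset⟩
    have e1 := ih e he hU' hUC'
    have e2 : ((U \ B).card : ℝ) = U.card - b := by
      have h3 : (U \ B).card + B.card = U.card := card_sdiff_add_card_eq_card hBU
      rw [hBb] at h3
      rw [← h3]
      push_cast
      ring
    rw [e2] at e1
    have h4 : ((U.card : ℝ) - b) / b = (U.card : ℝ) / b - 1 := by
      field_simp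
    rw [h4] at e1
    linarith

/-- The inequality for the whole game. -/
theorem game {b k : ℕ} (hb : 1 ≤ b) (hn : 1 ≤ n) {W : ℝ → ℕ → ℝ} (h0 : ∀ r, W r 0 = 0)
    (h1 : ∀ (m : ℕ) (r p : ℝ), 1 ≤ m → m ≤ k → 0 ≤ p → p < 1 → (m : ℝ) ≤ r - p →
      W r m - p ^ 2 ≤ (1 - p) * W (r - p) m + p * W (r - p) (m - 1))
    (h2 : ∀ (m : ℕ) (r : ℝ), 1 ≤ m → m ≤ k → (m : ℝ) ≤ r → W r m - 1 ≤ W (r - 1) (m - 1))
    (h : Win b (fun C => MinDeg k (gr C)) (board n) ∅) :
    2 * W (((n : ℝ) - 1) / b) k - ((n : ℝ) - 1) / b ≤ ((n : ℝ) - 1) / b / b := by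
  have hn' : (0 : ℝ) < n := by exact_mod_cast hn
  have hb' : (0 : ℝ) < b := by exact_mod_cast hb
  have e1 := main_ind hb h0 h1 h2 h (fun e he => (mem_filter.1 he).2) (disjoint_empty_right _)
  rw [card_board] at e1
  have e2 : Psi b k W (board n) ∅ =
      n * (2 * W (((n : ℝ) - 1) / b) k - ((n : ℝ) - 1) / b) := by
    have h3 : ∀ v : Fin n, (2 * W (rr b (board n) v) (k - inc (∅ : Finset (Sym2 (Fin n))) v)
        - rr b (board n) v) = (2 * W (((n : ℝ) - 1) / b) k - ((n : ℝ) - 1) / b) := by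
      intro v
      unfold rr
      rw [inc_board]
      simp only [inc, filter_empty, card_empty, Nat.sub_zero]
    unfold Psi
    rw [sum_congr rfl fun v _ => h3 v, sum_const, card_univ, Fintype.card_fin, nsmul_eq_mul]
  rw [e2] at e1
  have e3 : 2 / (b : ℝ) * ((n : ℝ) * (n - 1) / 2 / b) = n * (((n : ℝ) - 1) / b / b) := by
    field_simp
  rw [e3] at e1
  exact le_of_mul_le_mul_left e1 hn'

end Pool.Agent.Helper40.WT
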