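import Pool.Agent.Helper40.WT.Game
import Pool.Agent.Helper40.WT.Conv

/-!
# MP_c8f8f3_co, project WT: the potential with a term for the unused pairs
-/

set_option autoImplicit false

namespace Pool.Agent.Helper40.WT

open Finset Pool.Agent.Helper72.WC Pool.Agent.Helper40.WC

variable {n : ℕ}

/-- The hypotheses on the two functions. -/
structure Pot (k : ℕ) (W h : ℝ → ℕ → ℝ) : Prop where
  W0 : ∀ r, W r 0 = 0
  h0 : ∀ r, h r 0 = 1
  nonneg : ∀ r m, 0 ≤ h r m
  le_one : ∀ r m, h r m ≤ 1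
  H1 : ∀ (m : ℕ) (r p : ℝ), 1 ≤ m → m ≤ k → 0 ≤ p → p ≤ 1 → (m : ℝ) ≤ r →
    (p < 1 → (m : ℝ) ≤ r - p) →
    W r m - p ^ 2 * (1 - h r m) ≤ (1 - p) * W (r - p) m + p * W (r - p) (m - 1)
  H2 : ∀ (m : ℕ) (r p : ℝ), 1 ≤ m → m ≤ k → 0 ≤ p → p ≤ 1 → (m : ℝ) ≤ r →
    (p < 1 → (m : ℝ) ≤ r - p) →
    h r m ≤ (1 - p) * h (r - p) m + p * h (r - p) (m - 1)

/-- The value of `h` at a vertex. -/
noncomputable def hv (b k : ℕ) (h : ℝ → ℕ → ℝ) (U C : Finset (Sym2 (Fin n))) (v : Fin n) : ℝ :=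
  h (rr b U v) (k - inc C v)

/-- The potential. -/
noncomputable def Phi (b k : ℕ) (W h : ℝ → ℕ → ℝ) (U C : Finset (Sym2 (Fin n))) : ℝ :=
  Psi b k W U C + 2 / b * ∑ e ∈ U, Hs (hv b k h U C) e

/-- What happens at one vertex. -/
theorem vertex_data {b k : ℕ} (hb : 1 ≤ b) {U C B : Finset (Sym2 (Fin n))} (hUC : Disjoint U C)
    (hBU : B ⊆ U) (hBb : B.card = b)
    (hwin : ∀ e ∈ B, Win b (fun C => MinDeg k (gr C)) (U \ B) (insert e C)) (v : Fin n) :
    0 ≤ (inc B v : ℝ) / b ∧ (inc B v : ℝ) / b ≤ 1 ∧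
    rr b (U \ B) v = rr b U v - (inc B v : ℝ) / b ∧
    (∀ e ∈ B, k - inc (insert e C) v = if v ∈ e then (k - inc C v) - 1 else k - inc C v) ∧
    (1 ≤ k - inc C v → ((k - inc C v : ℕ) : ℝ) ≤ rr b U v ∧
      ((inc B v : ℝ) / b < 1 → ((k - inc C v : ℕ) : ℝ) ≤ rr b U v - (inc B v : ℝ) / b)) ∧
    ∑ e ∈ B, (if v ∈ e then (1 : ℝ) else 0) = b * ((inc B v : ℝ) / b) := by
  have hb' : (0 : ℝ) < b := by exact_mod_cast hb
  have hW : Win b (fun C => MinDeg k (gr C)) U C := Win.play B hBU hBb hwin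
  have hal := alive hW v hUC
  set r := rr b U v with hr
  set p : ℝ := (inc B v : ℝ) / b with hp
  set m : ℕ := k - inc C v with hm
  have hp0 : 0 ≤ p := by positivity
  have hp1 : p ≤ 1 := by
    rw [hp, div_le_one hb']
    have : inc B v ≤ b := by
      rw [← hBb]
      exact card_filter_le _ _
    exact_mod_cast this
  have hr' : rr b (U \ B) v = r - p := by
    unfold rr
    rw [inc_sdiff hBU, hr, hp]
    unfold rr
    ring
  have hm' : ∀ e ∈ B, k - inc (insert e C) v = if v ∈ e then m - 1 else m := by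
    intro e he
    have heC : e ∉ C := fun h => (Finset.disjoint_left.1 hUC) (hBU he) h
    have h3 := inc_insert heC v
    by_cases h : v ∈ e
    · rw [if_pos h] at h3 ⊢
      have h4 : inc (insert e C) v = inc C v + 1 := by exact_mod_cast h3
      rw [h4, hm]
      omega
    · rw [if_neg h] at h3 ⊢
      have h4 : inc (insert e C) v = inc C v := by
        have : ((inc (insert e C) v : ℕ) : ℝ) = (inc C v : ℕ) := by rw [h3]; ring
        exact_mod_cast this
      rw [h4, hm]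
  have h4 : ∑ e ∈ B, (if v ∈ e then (1 : ℝ) else 0) = b * p := by
    have h5 : ((inc B v : ℕ) : ℝ) = ∑ e ∈ B, (if v ∈ e then (1 : ℝ) else 0) := by
      rw [inc_eq_sum]
      push_cast
      rfl
    rw [← h5, hp]
    field_simp
  refine ⟨hp0, hp1, hr', hm', ?_, h4⟩
  intro hmpos
  have hmc : (m : ℝ) = k - inc C v := by
    rw [hm, Nat.cast_sub (by omega)]
  refine ⟨?_, ?_⟩
  · have h6 : (k : ℝ) * b ≤ inc U v + b * inc C v := by exact_mod_cast hal
    rw [hmc, hr]
    unfold rr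
    rw [le_div_iff₀ hb']
    linarith
  · intro hlt
    have hex : ∃ e ∈ B, v ∉ e := by
      by_contra hcon
      push Not at hcon
      have h3 : inc B v = b := by
        unfold inc
        rw [filter_true_of_mem hcon, hBb]
      rw [hp, h3, div_self hb'.ne'] at hlt
      exact lt_irrefl _ hlt
    obtain ⟨e, he, hve⟩ := hex
    have heC : e ∉ C := fun h => (Finset.disjoint_left.1 hUC) (hBU he) h
    have hdis : Disjoint (U \ B) (insert e C) := by
      rw [Finset.disjoint_insert_right]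
      exact ⟨fun h => (mem_sdiff.1 h).2 he, hUC.mono_left sdiff_subset⟩
    have h3 := alive (hwin e he) v hdis
    have h4 := inc_insert heC v
    rw [if_neg hve] at h4
    have h5 : inc (insert e C) v = inc C v := by
      have : ((inc (insert e C) v : ℕ) : ℝ) = (inc C v : ℕ) := by rw [h4]; ring
      exact_mod_cast this
    rw [h5] at h3
    have h6 : (k : ℝ) * b ≤ inc (U \ B) v + b * inc C v := by exact_mod_cast h3
    rw [← hr', hmc]
    unfold rr
    rw [le_div_iff₀ hb']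
    linarith

/-- The part of the degrees. -/
theorem vertex_round2 {b k : ℕ} (hb : 1 ≤ b) {W h : ℝ → ℕ → ℝ} (H : Pot k W h)
    {U C B : Finset (Sym2 (Fin n))} (hUC : Disjoint U C) (hBU : B ⊆ U) (hBb : B.card = b)
    (hwin : ∀ e ∈ B, Win b (fun C => MinDeg k (gr C)) (U \ B) (insert e C)) (v : Fin n) :
    (b : ℝ) * ((2 * W (rr b U v) (k - inc C v) - rr b U v) + (inc B v : ℝ) / b
      - 2 * (((inc B v : ℝ) / b) ^ 2 * (1 - hv b k h U C v))) ≤
      ∑ e ∈ B, (2 * W (rr b (U \ B) v) (k - inc (insert e C) v) - rr b (U \ B) v) := by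
  have hb' : (0 : ℝ) < b := by exact_mod_cast hb
  obtain ⟨hp0, hp1, hr', hm', hal, hsum1⟩ := vertex_data hb hUC hBU hBb hwin v
  unfold hv
  set r := rr b U v with hr
  set p : ℝ := (inc B v : ℝ) / b with hp
  set m : ℕ := k - inc C v with hm
  have hsum : ∑ e ∈ B, (2 * W (rr b (U \ B) v) (k - inc (insert e C) v) - rr b (U \ B) v) =
      b * (2 * ((1 - p) * W (r - p) m + p * W (r - p) (m - 1)) - (r - p)) := by
    have h3 : ∀ e ∈ B, (2 * W (rr b (U \ B) v) (k - inc (insert e C) v) - rr b (U \ B) v) =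
        (2 * W (r - p) m - (r - p)) +
          (if v ∈ e then (1 : ℝ) else 0) * (2 * W (r - p) (m - 1) - 2 * W (r - p) m) := by
      intro e he
      rw [hm' e he, hr']
      by_cases h : v ∈ e
      · simp only [if_pos h]; ring
      · simp only [if_neg h]; ring
    rw [sum_congr rfl h3, sum_add_distrib, ← sum_mul, hsum1, sum_const, hBb, nsmul_eq_mul]
    ring
  rw [hsum]
  refine mul_le_mul_of_nonneg_left ?_ hb'.le
  suffices hh : W r m - p ^ 2 * (1 - h r m) ≤ (1 - p) * W (r - p) m + p * W (r - p) (m - 1) by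
    linarith
  rcases Nat.eq_zero_or_pos m with hm0 | hmpos
  · rw [hm0]
    simp only [H.W0, H.h0, Nat.zero_sub, mul_zero, add_zero]
    simp
  · exact H.H1 m r p hmpos (Nat.sub_le _ _) hp0 hp1 (hal hmpos).1 (hal hmpos).2

/-- The part of the pairs. -/
theorem pair_round {b k : ℕ} (hb : 1 ≤ b) {W h : ℝ → ℕ → ℝ} (H : Pot k W h)
    {U C B : Finset (Sym2 (Fin n))} (hU : ∀ e ∈ U, ¬ e.IsDiag) (hUC : Disjoint U C)
    (hBU : B ⊆ U) (hBb : B.card = b)
    (hwin : ∀ e ∈ B, Win b (fun C => MinDeg k (gr C)) (U \ B) (insert e C))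
    {f : Sym2 (Fin n)} (hf : f ∈ U \ B) :
    (b : ℝ) * (Hs (hv b k h U C) f - Hs (fun v => (inc B v : ℝ) / b) f) ≤
      ∑ e ∈ B, Hs (hv b k h (U \ B) (insert e C)) f := by
  have hb' : (0 : ℝ) < b := by exact_mod_cast hb
  induction f with
  | _ x y =>
    have hfU : s(x, y) ∈ U := (mem_sdiff.1 hf).1
    have hfB : s(x, y) ∉ B := (mem_sdiff.1 hf).2
    have hxy : x ≠ y := by simpa using hU _ hfU
    -- one vertex
    have key : ∀ v : Fin n, ∃ q0 q1 : ℝ, 0 ≤ q0 ∧ q0 ≤ 1 ∧ 0 ≤ q1 ∧ q1 ≤ 1 ∧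
        (∀ e ∈ B, hv b k h (U \ B) (insert e C) v = q0 + (if v ∈ e then (1 : ℝ) else 0) * (q1 - q0))
        ∧ hv b k h U C v ≤ q0 + (inc B v : ℝ) / b * (q1 - q0) := by
      intro v
      obtain ⟨hp0, hp1, hr', hm', hal, hsum1⟩ := vertex_data hb hUC hBU hBb hwin v
      refine ⟨h (rr b U v - (inc B v : ℝ) / b) (k - inc C v),
        h (rr b U v - (inc B v : ℝ) / b) (k - inc C v - 1), H.nonneg _ _, H.le_one _ _,
        H.nonneg _ _, H.le_one _ _, ?_, ?_⟩
      · intro e he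
        unfold hv
        rw [hm' e he, hr']
        by_cases h' : v ∈ e
        · simp only [if_pos h']; ring
        · simp only [if_neg h']; ring
      · unfold hv
        rcases Nat.eq_zero_or_pos (k - inc C v) with hm0 | hmpos
        · rw [hm0]
          simp only [H.h0, Nat.zero_sub]
          linarith
        · have := H.H2 (k - inc C v) (rr b U v) ((inc B v : ℝ) / b) hmpos (Nat.sub_le _ _) hp0 hp1
            (hal hmpos).1 (hal hmpos).2
          linarith
    obtain ⟨x0, x1, a1, a2, a3, a4, a5, a6⟩ := key x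
    obtain ⟨y0, y1, c1, c2, c3, c4, c5, c6⟩ := key y
    have hpx : 0 ≤ (inc B x : ℝ) / b := by positivity
    have hpy : 0 ≤ (inc B y : ℝ) / b := by positivity
    have sx : ∑ e ∈ B, (if x ∈ e then (1 : ℝ) else 0) = b * ((inc B x : ℝ) / b) :=
      (vertex_data hb hUC hBU hBb hwin x).2.2.2.2.2
    have sy : ∑ e ∈ B, (if y ∈ e then (1 : ℝ) else 0) = b * ((inc B y : ℝ) / b) :=
      (vertex_data hb hUC hBU hBb hwin y).2.2.2.2.2
    have hsum : ∑ e ∈ B, Hs (hv b k h (U \ B) (insert e C)) s(x, y) =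
        b * (x0 * y0 + (inc B x : ℝ) / b * ((x1 - x0) * y0) +
          (inc B y : ℝ) / b * (x0 * (y1 - y0))) := by
      have h3 : ∀ e ∈ B, Hs (hv b k h (U \ B) (insert e C)) s(x, y) =
          x0 * y0 + (if x ∈ e then (1 : ℝ) else 0) * ((x1 - x0) * y0) +
            (if y ∈ e then (1 : ℝ) else 0) * (x0 * (y1 - y0)) := by
        intro e he
        rw [Hs_mk, a5 e he, c5 e he]
        by_cases h1 : x ∈ e
        · by_cases h2 : y ∈ e
          · exact absurd (((Sym2.mem_and_mem_iff hxy).1 ⟨h1, h2⟩) ▸ he) hfB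
          · simp only [if_pos h1, if_neg h2]; ring
        · by_cases h2 : y ∈ e
          · simp only [if_neg h1, if_pos h2]; ring
          · simp only [if_neg h1, if_neg h2]; ring
      rw [sum_congr rfl h3, sum_add_distrib, sum_add_distrib, sum_const, ← sum_mul, ← sum_mul,
        sx, sy, hBb, nsmul_eq_mul]
      ring
    rw [hsum, Hs_mk, Hs_mk]
    refine mul_le_mul_of_nonneg_left ?_ hb'.le
    set px := (inc B x : ℝ) / b
    set py := (inc B y : ℝ) / b
    have e1 : hv b k h U C x * hv b k h U C y ≤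
        (x0 + px * (x1 - x0)) * (y0 + py * (y1 - y0)) :=
      mul_le_mul a6 c6 (H.nonneg _ _) ((H.nonneg _ _).trans a6)
    have e2 : (x1 - x0) * (y1 - y0) ≤ 1 := by
      have g1 : |x1 - x0| ≤ 1 := abs_le.2 ⟨by linarith, by linarith⟩
      have g2 : |y1 - y0| ≤ 1 := abs_le.2 ⟨by linarith, by linarith⟩
      calc (x1 - x0) * (y1 - y0) ≤ |(x1 - x0) * (y1 - y0)| := le_abs_self _
        _ = |x1 - x0| * |y1 - y0| := abs_mul _ _
        _ ≤ 1 * 1 := mul_le_mul g1 g2 (abs_nonneg _) zero_le_one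
        _ = 1 := one_mul _
    have e3 : px * py * ((x1 - x0) * (y1 - y0)) ≤ px * py * 1 :=
      mul_le_mul_of_nonneg_left e2 (mul_nonneg hpx hpy)
    have e4 : (x0 + px * (x1 - x0)) * (y0 + py * (y1 - y0)) =
        x0 * y0 + px * ((x1 - x0) * y0) + py * (x0 * (y1 - y0)) +
          px * py * ((x1 - x0) * (y1 - y0)) := by ring
    linarith

theorem step2 {b k : ℕ} (hb : 1 ≤ b) {W h : ℝ → ℕ → ℝ} (H : Pot k W h)
    {U C B : Finset (Sym2 (Fin n))} (hU : ∀ e ∈ U, ¬ e.IsDiag) (hUC : Disjoint U C)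
    (hBU : B ⊆ U) (hBb : B.card = b)
    (hwin : ∀ e ∈ B, Win b (fun C => MinDeg k (gr C)) (U \ B) (insert e C)) :
    ∃ e ∈ B, Phi b k W h U C - 6 / b ≤ Phi b k W h (U \ B) (insert e C) := by
  have hb' : (0 : ℝ) < b := by exact_mod_cast hb
  have hne : B.Nonempty := by
    rw [← card_pos]
    omega
  refine exists_le_of_sum_le hne ?_
  have hdiag : ∀ e ∈ B, ¬ e.IsDiag := fun e he => hU e (hBU he)
  have hdiag' : ∀ e ∈ U \ B, ¬ e.IsDiag := fun e he => hU e (mem_sdiff.1 he).1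
  -- the degrees
  have d1 : ∑ e ∈ B, Psi b k W (U \ B) (insert e C) =
      ∑ v : Fin n, ∑ e ∈ B, (2 * W (rr b (U \ B) v) (k - inc (insert e C) v)
        - rr b (U \ B) v) := by
    unfold Psi
    rw [sum_comm]
  have d2 : ∑ v : Fin n, (b : ℝ) * ((2 * W (rr b U v) (k - inc C v) - rr b U v) +
      (inc B v : ℝ) / b - 2 * (((inc B v : ℝ) / b) ^ 2 * (1 - hv b k h U C v))) ≤
      ∑ v : Fin n, ∑ e ∈ B, (2 * W (rr b (U \ B) v) (k - inc (insert e C) v)
        - rr b (U \ B) v) :=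
    sum_le_sum fun v _ => vertex_round2 hb H hUC hBU hBb hwin v
  have d3 : ∑ v : Fin n, (b : ℝ) * ((2 * W (rr b U v) (k - inc C v) - rr b U v) +
      (inc B v : ℝ) / b - 2 * (((inc B v : ℝ) / b) ^ 2 * (1 - hv b k h U C v))) =
      b * (Psi b k W U C + ∑ v, (inc B v : ℝ) / b -
        2 * ∑ v, (((inc B v : ℝ) / b) ^ 2 * (1 - hv b k h U C v))) := by
    unfold Psi
    rw [← mul_sum, mul_sum (s := univ) (a := (2 : ℝ)), ← sum_add_distrib, ← sum_sub_distrib]
  have d4 : ∑ v, (inc B v : ℝ) / b = 2 := by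
    have g1 : (∑ v, (inc B v : ℝ)) = 2 * b := by
      have := sum_inc hdiag
      rw [hBb] at this
      exact_mod_cast this
    rw [← sum_div, g1]
    field_simp
  have d5 : ∑ v, (((inc B v : ℝ) / b) ^ 2 * (1 - hv b k h U C v)) ≤
      1 + 1 / b - 1 / b * ∑ e ∈ B, Hs (hv b k h U C) e := by
    have g1 := sum_inc_sq_h hdiag (h := hv b k h U C) (fun x => H.nonneg _ _)
      (fun x => H.le_one _ _)
    rw [hBb] at g1
    have g2 : ∑ v, (((inc B v : ℝ) / b) ^ 2 * (1 - hv b k h U C v)) =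
        (∑ v, (inc B v : ℝ) ^ 2 * (1 - hv b k h U C v)) / (b : ℝ) ^ 2 := by
      rw [sum_div]
      refine sum_congr rfl fun v _ => ?_
      rw [div_pow]
      ring
    rw [g2, div_le_iff₀ (by positivity)]
    have g3 : (1 + 1 / (b : ℝ) - 1 / b * ∑ e ∈ B, Hs (hv b k h U C) e) * (b : ℝ) ^ 2 =
        (b : ℝ) ^ 2 + b - b * ∑ e ∈ B, Hs (hv b k h U C) e := by
      field_simp
    rw [g3]
    exact g1
  -- the pairs
  have q1 : ∑ f ∈ U \ B, (b : ℝ) * (Hs (hv b k h U C) f - Hs (fun v => (inc B v : ℝ) / b) f) ≤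
      ∑ e ∈ B, ∑ f ∈ U \ B, Hs (hv b k h (U \ B) (insert e C)) f := by
    rw [sum_comm]
    exact sum_le_sum fun f hf => pair_round hb H hU hUC hBU hBb hwin hf
  have q2 : 2 * ∑ f ∈ U \ B, Hs (fun v : Fin n => (inc B v : ℝ) / b) f ≤ 4 := by
    have g1 := sum_Hs_le hdiag' (φ := fun v : Fin n => (inc B v : ℝ) / b)
      (fun x => by positivity)
    rw [d4] at g1
    linarith
  have q3 : ∑ f ∈ U \ B, Hs (hv b k h U C) f + ∑ f ∈ B, Hs (hv b k h U C) f =
      ∑ f ∈ U, Hs (hv b k h U C) f := sum_sdiff hBU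
  rw [← mul_sum, sum_sub_distrib] at q1
  have hPhi : ∑ e ∈ B, Phi b k W h (U \ B) (insert e C) =
      ∑ e ∈ B, Psi b k W (U \ B) (insert e C) +
        2 / b * ∑ e ∈ B, ∑ f ∈ U \ B, Hs (hv b k h (U \ B) (insert e C)) f := by
    unfold Phi
    rw [sum_add_distrib, mul_sum]
  rw [hPhi, d1, sum_const, hBb, nsmul_eq_mul]
  set S := ∑ e ∈ B, Hs (hv b k h U C) e with hS
  set T := ∑ f ∈ U, Hs (hv b k h U C) f with hT
  set R := ∑ f ∈ U \ B, Hs (fun v : Fin n => (inc B v : ℝ) / b) f with hR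
  set X := ∑ v, (((inc B v : ℝ) / b) ^ 2 * (1 - hv b k h U C v)) with hX
  have f1 : (b : ℝ) * (Psi b k W U C + 2 - 2 * X) ≤
      ∑ v : Fin n, ∑ e ∈ B, (2 * W (rr b (U \ B) v) (k - inc (insert e C) v)
        - rr b (U \ B) v) := by
    rw [d3, d4] at d2
    exact d2
  have f2 : 2 * (T - S - 2) ≤
      2 / b * ∑ e ∈ B, ∑ f ∈ U \ B, Hs (hv b k h (U \ B) (insert e C)) f := by
    have g1 : (b : ℝ) * (T - S - 2) ≤
        ∑ e ∈ B, ∑ f ∈ U \ B, Hs (hv b k h (U \ B) (insert e C)) f := by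
      refine le_trans ?_ q1
      refine mul_le_mul_of_nonneg_left ?_ hb'.le
      linarith
    have g2 : 2 * (T - S - 2) = 2 / b * ((b : ℝ) * (T - S - 2)) := by
      field_simp
    rw [g2]
    exact mul_le_mul_of_nonneg_left g1 (by positivity)
  have f3 : (b : ℝ) * (2 * X) ≤ 2 * b + 2 - 2 * S := by
    have g1 : (b : ℝ) * (2 * X) ≤ b * (2 * (1 + 1 / b - 1 / b * S)) :=
      mul_le_mul_of_nonneg_left (by linarith) hb'.le
    have g2 : (b : ℝ) * (2 * (1 + 1 / b - 1 / b * S)) = 2 * b + 2 - 2 * S := by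
      field_simp
    linarith
  have f4 : (b : ℝ) * (Phi b k W h U C - 6 / b) = b * Psi b k W U C + 2 * T - 6 := by
    unfold Phi
    rw [← hT]
    field_simp
  rw [f4]
  have f5 : (b : ℝ) * (Psi b k W U C + 2 - 2 * X) = b * Psi b k W U C + 2 * b - b * (2 * X) := by
    ring
  linarith

theorem main_ind2 {b k : ℕ} (hb : 1 ≤ b) {W h : ℝ → ℕ → ℝ} (H : Pot k W h)
    {U C : Finset (Sym2 (Fin n))} (hw : Win b (fun C => MinDeg k (gr C)) U C) :
    (∀ e ∈ U, ¬ e.IsDiag) → Disjoint U C → Phi b k W h U C ≤ 6 / b * ((U.card : ℝ) / b) := by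
  have hb' : (0 : ℝ) < b := by exact_mod_cast hb
  induction hw with
  | @stop U C e1 e2 =>
    intro hU _
    have hm : ∀ v : Fin n, k - inc C v = 0 := by
      intro v
      have := minDeg_inc e2 v
      omega
    have h3 : Psi b k W U C = -(2 * (U.card : ℝ) / b) := by
      unfold Psi
      have g1 : ∀ v : Fin n, (2 * W (rr b U v) (k - inc C v) - rr b U v) =
          -((inc U v : ℝ) / b) := by
        intro v
        rw [hm v, H.W0]
        unfold rr
        ring
      rw [sum_congr rfl fun v _ => g1 v, sum_neg_distrib, ← sum_div]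
      have g2 : (∑ v, (inc U v : ℝ)) = 2 * U.card := by
        have := sum_inc hU
        exact_mod_cast this
      rw [g2]
    have h4 : ∑ e ∈ U, Hs (hv b k h U C) e = U.card := by
      have g1 : ∀ e ∈ U, Hs (hv b k h U C) e = 1 := by
        intro e _
        induction e with
        | _ x y =>
          rw [Hs_mk]
          unfold hv
          rw [hm x, hm y, H.h0, H.h0]
          ring
      rw [sum_congr rfl g1]
      simp
    unfold Phi
    rw [h3, h4]
    have : (0 : ℝ) ≤ 6 / b * ((U.card : ℝ) / b) := by positivity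
    have h5 : -(2 * (U.card : ℝ) / b) + 2 / b * (U.card : ℝ) = 0 := by ring
    linarith
  | @play U C B hBU hBb hwin ih =>
    intro hU hUC
    obtain ⟨e, he, hstep⟩ := step2 hb H hU hUC hBU hBb hwin
    have hU' : ∀ f ∈ U \ B, ¬ f.IsDiag := fun f hf => hU f (mem_sdiff.1 hf).1
    have hUC' : Disjoint (U \ B) (insert e C) := by
      rw [Finset.disjoint_insert_right]
      exact ⟨fun h => (mem_sdiff.1 h).2 he, hUC.mono_left sdiff_subset⟩
    have e1 := ih e he hU' hUC'
    have e2 : ((U \ B).card : ℝ) = U.card - b := by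
      have h3 : (U \ B).card + B.card = U.card := card_sdiff_add_card_eq_card hBU
      rw [hBb] at h3
      rw [← h3]
      push_cast
      ring
    rw [e2] at e1
    have h4 : ((U.card : ℝ) - b) / b = (U.card : ℝ) / b - 1 := by
      field_simp
    rw [h4] at e1
    linarith

/-- The inequality for the whole game. -/
theorem game2 {b k : ℕ} (hb : 1 ≤ b) (hn : 1 ≤ n) {W h : ℝ → ℕ → ℝ} (H : Pot k W h)
    (hw : Win b (fun C => MinDeg k (gr C)) (board n) ∅) :
    2 * W (((n : ℝ) - 1) / b) k - ((n : ℝ) - 1) / b * (1 - h (((n : ℝ) - 1) / b) k ^ 2) ≤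
      3 * (((n : ℝ) - 1) / b / b) := by
  have hn' : (0 : ℝ) < n := by exact_mod_cast hn
  have hb' : (0 : ℝ) < b := by exact_mod_cast hb
  have e1 := main_ind2 hb H hw (fun e he => (mem_filter.1 he).2) (disjoint_empty_right _)
  rw [card_board] at e1
  have hrr : ∀ v : Fin n, rr b (board n) v = ((n : ℝ) - 1) / b := by
    intro v
    unfold rr
    rw [inc_board]
  have hk0 : ∀ v : Fin n, k - inc (∅ : Finset (Sym2 (Fin n))) v = k := by
    intro v
    simp only [inc, filter_empty, card_empty, Nat.sub_zero]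
  have e2 : Psi b k W (board n) ∅ =
      n * (2 * W (((n : ℝ) - 1) / b) k - ((n : ℝ) - 1) / b) := by
    unfold Psi
    rw [sum_congr rfl fun v _ => by rw [hrr v, hk0 v], sum_const, card_univ, Fintype.card_fin,
      nsmul_eq_mul]
  have e3 : ∑ e ∈ board n, Hs (hv b k h (board n) ∅) e =
      (board n).card * h (((n : ℝ) - 1) / b) k ^ 2 := by
    have g1 : ∀ e ∈ board n, Hs (hv b k h (board n) ∅) e = h (((n : ℝ) - 1) / b) k ^ 2 := by
      intro e _
      induction e with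
      | _ x y =>
        rw [Hs_mk]
        unfold hv
        rw [hrr x, hrr y, hk0 x, hk0 y]
        ring
    rw [sum_congr rfl g1, sum_const, nsmul_eq_mul]
  unfold Phi at e1
  rw [e2, e3, card_board] at e1
  set κ := ((n : ℝ) - 1) / b with hκ
  have e4 : 6 / (b : ℝ) * ((n : ℝ) * (n - 1) / 2 / b) = n * (3 * (κ / b)) := by
    rw [hκ]; field_simp; ring
  have e5 : 2 / (b : ℝ) * ((n : ℝ) * (n - 1) / 2 * h κ k ^ 2) = n * (κ * h κ k ^ 2) := by
    rw [hκ]; field_simp
  rw [e4, e5] at e1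
  have e6 : (n : ℝ) * (2 * W κ k - κ * (1 - h κ k ^ 2)) ≤ n * (3 * (κ / b)) := by
    linarith
  exact le_of_mul_le_mul_left e6 hn'

end Pool.Agent.Helper40.WT
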