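import Pool.Agent.Helper40.WT.BorDefs

set_option autoImplicit false

namespace Pool.Agent.Helper40.WT

/-- `(1 - p) (1 - (1 + p) exp(-p)) ≥ 0`. -/
theorem lam_one {p : ℝ} (h0 : 0 ≤ p) (h1 : p ≤ 1) :
    Real.exp (-p) ≤ p ^ 2 * Real.exp (-p) + (1 - p) := by
  have h2 : (1 + p) * Real.exp (-p) ≤ 1 := by
    have h3 : 1 + p ≤ Real.exp p := by
      have := Real.add_one_le_exp p
      linarith
    have h4 : Real.exp p * Real.exp (-p) = 1 := by rw [← Real.exp_add, add_neg_cancel, Real.exp_zero]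
    calc (1 + p) * Real.exp (-p) ≤ Real.exp p * Real.exp (-p) :=
          mul_le_mul_of_nonneg_right h3 (Real.exp_pos _).le
      _ = 1 := h4
  have h5 : 0 ≤ (1 - p) * (1 - (1 + p) * Real.exp (-p)) := mul_nonneg (by linarith) (by linarith)
  nlinarith

/-- Put `E = exp(-p)`, `c = exp(-1)`, `q = 1 - p`. The difference right minus left is
`q (2 + p c) (1 - (1 + p) E) + p^2 (c - E)`, and `(1 + p) E ≤ 1 - p^2 / 2 + p^3 / 3`,
`E = c exp q ≤ c (1 + q + q^2 / 2 + 2 q^3 / 9)`; so it is at least `p^2 q` times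
`(2 + p c) (1/2 - p/3) - c (1 + q/2 + 2 q^2/9) > 0`. -/
theorem lam_two {p : ℝ} (h0 : 0 ≤ p) (h1 : p ≤ 1) :
    2 * Real.exp (-p) + p * (Real.exp (-p) * Real.exp (-1)) ≤
      p ^ 2 * (Real.exp (-p) + p * (Real.exp (-p) * Real.exp (-1))) + (1 - p) * 2 +
        p * Real.exp (-1) := by
  obtain ⟨c, hc⟩ : ∃ c, c = Real.exp (-1) := ⟨_, rfl⟩
  obtain ⟨E, hE⟩ : ∃ E, E = Real.exp (-p) := ⟨_, rfl⟩
  obtain ⟨q, hq⟩ : ∃ q, q = 1 - p := ⟨_, rfl⟩
  have hq0 : 0 ≤ q := by rw [hq]; linarith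
  have hq1 : q ≤ 1 := by rw [hq]; linarith
  have hc0 : 0 < c := by rw [hc]; exact Real.exp_pos _
  have hE0 : 0 < E := by rw [hE]; exact Real.exp_pos _
  have hc1 : c ≤ 0.3679 := by
    have := Real.exp_neg_one_lt_d9
    rw [← hc] at this
    norm_num at this ⊢
    linarith
  -- upper bound for `(1 + p) E`
  have hA : (1 + p) * E ≤ 1 - p ^ 2 / 2 + p ^ 3 / 3 := by
    have h3 := Real.sum_le_exp_of_nonneg h0 4
    simp only [Finset.sum_range_succ, Finset.sum_range_zero, Nat.factorial] at h3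
    norm_num at h3
    have h4 : Real.exp p * E = 1 := by
      rw [hE, ← Real.exp_add, add_neg_cancel, Real.exp_zero]
    have hP : 0 ≤ 1 - p ^ 2 / 2 + p ^ 3 / 3 := by
      have : p ^ 2 ≤ 1 := pow_le_one₀ h0 h1
      have : 0 ≤ p ^ 3 := by positivity
      linarith
    have h5 : 1 + p ≤ Real.exp p * (1 - p ^ 2 / 2 + p ^ 3 / 3) := by
      have h6 : (1 + p + p ^ 2 / 2 + p ^ 3 / 6) * (1 - p ^ 2 / 2 + p ^ 3 / 3) ≤
          Real.exp p * (1 - p ^ 2 / 2 + p ^ 3 / 3) :=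
        mul_le_mul_of_nonneg_right (by linarith) hP
      have h7 : (1 + p + p ^ 2 / 2 + p ^ 3 / 6) * (1 - p ^ 2 / 2 + p ^ 3 / 3) =
          1 + p + (p ^ 4 / 12 + p ^ 5 / 12 + p ^ 6 / 18) := by ring
      have h8 : 0 ≤ p ^ 4 / 12 + p ^ 5 / 12 + p ^ 6 / 18 := by positivity
      linarith
    calc (1 + p) * E ≤ (Real.exp p * (1 - p ^ 2 / 2 + p ^ 3 / 3)) * E :=
          mul_le_mul_of_nonneg_right h5 hE0.le
      _ = (Real.exp p * E) * (1 - p ^ 2 / 2 + p ^ 3 / 3) := by ring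
      _ = 1 - p ^ 2 / 2 + p ^ 3 / 3 := by rw [h4, one_mul]
  -- upper bound for `E` in terms of `c`
  have hB : E ≤ c * (1 + q + q ^ 2 / 2 + 2 * q ^ 3 / 9) := by
    have h3 := Real.exp_bound' hq0 hq1 (n := 3) (by norm_num)
    simp only [Finset.sum_range_succ, Finset.sum_range_zero, Nat.factorial] at h3
    norm_num at h3
    have h4 : E = c * Real.exp q := by
      rw [hE, hc, hq, ← Real.exp_add]
      congr 1
      ring
    rw [h4]
    refine mul_le_mul_of_nonneg_left ?_ hc0.le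
    refine h3.trans (le_of_eq ?_)
    ring
  have hD : p ^ 2 * (E + p * (E * c)) + (1 - p) * 2 + p * c - (2 * E + p * (E * c)) =
      q * (2 + p * c) * (1 - (1 + p) * E) + p ^ 2 * (c - E) := by
    rw [hq]
    ring
  have h6 : q * (2 + p * c) * (p ^ 2 / 2 - p ^ 3 / 3) ≤ q * (2 + p * c) * (1 - (1 + p) * E) :=
    mul_le_mul_of_nonneg_left (by linarith) (by positivity)
  have h7 : p ^ 2 * (c - c * (1 + q + q ^ 2 / 2 + 2 * q ^ 3 / 9)) ≤ p ^ 2 * (c - E) :=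
    mul_le_mul_of_nonneg_left (by linarith) (by positivity)
  have hF : 0 ≤ (2 + p * c) * (1 / 2 - p / 3) - c * (1 + q / 2 + 2 * q ^ 2 / 9) := by
    have e1 : (2 + p * c) * (1 / 2 - p / 3) - c * (1 + q / 2 + 2 * q ^ 2 / 9) =
        1 - 2 * p / 3 - c * (31 / 18 - 13 * p / 9 + 5 * p ^ 2 / 9) := by
      rw [hq]
      ring
    rw [e1]
    have e2 : 0 ≤ 31 / 18 - 13 * p / 9 + 5 * p ^ 2 / 9 := by nlinarith
    have e3 : c * (31 / 18 - 13 * p / 9 + 5 * p ^ 2 / 9) ≤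
        0.3679 * (31 / 18 - 13 * p / 9 + 5 * p ^ 2 / 9) := mul_le_mul_of_nonneg_right hc1 e2
    have e4 : p ^ 2 ≤ p := by nlinarith
    norm_num at e3 ⊢
    nlinarith
  have h8 : q * (2 + p * c) * (p ^ 2 / 2 - p ^ 3 / 3) +
      p ^ 2 * (c - c * (1 + q + q ^ 2 / 2 + 2 * q ^ 3 / 9)) =
      p ^ 2 * q * ((2 + p * c) * (1 / 2 - p / 3) - c * (1 + q / 2 + 2 * q ^ 2 / 9)) := by ring
  have h9 : 0 ≤ p ^ 2 * q * ((2 + p * c) * (1 / 2 - p / 3) - c * (1 + q / 2 + 2 * q ^ 2 / 9)) :=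
    mul_nonneg (by positivity) hF
  rw [← hE, ← hc]
  linarith

end Pool.Agent.Helper40.WT
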