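import Pool.Agent.Helper40.WT.BorDefs

set_option autoImplicit false

namespace Pool.Agent.Helper40.WT

open Finset

theorem exp_037 : (0.69 : ℝ) ≤ Real.exp (-0.37) := by
  have h1 : Real.exp 0.37 ≤ 1.449 := by
    have h := Real.exp_bound' (x := 0.37) (by norm_num) (by norm_num) (n := 5) (by norm_num)
    refine h.trans ?_
    norm_num [Finset.sum_range_succ, Nat.factorial]
  rw [Real.exp_neg]
  rw [le_inv_comm₀ (by norm_num) (Real.exp_pos _)]
  exact h1.trans (by norm_num)

theorem num_one {n : ℕ} (hn : 1000 ≤ n) :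
    (1.37 : ℝ) ^ 2 ≤ n * (2 * F 1 (1.37 - ((1 : ℕ) : ℝ)) - 1.37) := by
  have hn' : (1000 : ℝ) ≤ n := by exact_mod_cast hn
  have h1 : F 1 (1.37 - ((1 : ℕ) : ℝ)) = Real.exp (-0.37) := by
    unfold F
    rw [sum_range_one, g_zero]
    norm_num
  rw [h1]
  have h2 := exp_037
  nlinarith

end Pool.Agent.Helper40.WT
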