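import Pool.Agent.Helper40.WT.Ple

set_option autoImplicit false

namespace Pool.Agent.Helper40.WT

open Finset

/-- Induction on `M`. For `A ≤ a ≤ A+1` the left side is at most `M ≤ M a / A`. For `0 ≤ a ≤ A`
use `cmp` with `f a = (M+1) - F (M+1) a - a(A+1-a) - (M+1) a/A`: with the induction hypothesis at
`a+1 ≤ A+1`, `f' a + f a ≤ -(a+1)/A ≤ 0`. -/
theorem Q_bound (M : ℕ) {A a : ℝ} (hA : 0 < A) (ha : 0 ≤ a) (haA : a ≤ A + 1) :
    (M : ℝ) - F M a ≤ a * (A + 1 - a) + M * a / A := by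
  induction M generalizing a with
  | zero =>
    rw [F_zero]
    have h1 : 0 ≤ a * (A + 1 - a) := mul_nonneg ha (by linarith)
    simp only [Nat.cast_zero, zero_mul, zero_div, sub_zero, add_zero]
    exact h1
  | succ M ih =>
    have hM : (0 : ℝ) ≤ ((M + 1 : ℕ) : ℝ) := Nat.cast_nonneg _
    by_cases haA' : A ≤ a
    · have h1 : 0 ≤ a * (A + 1 - a) := mul_nonneg ha (by linarith)
      have h2 := F_nonneg (M + 1) ha
      have h3 : ((M + 1 : ℕ) : ℝ) ≤ ((M + 1 : ℕ) : ℝ) * a / A := by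
        rw [le_div_iff₀ hA]
        exact mul_le_mul_of_nonneg_left haA' hM
      linarith
    · have haA2 : a ≤ A := (not_le.1 haA').le
      have key := cmp (A := A)
        (f := fun b => ((M + 1 : ℕ) : ℝ) - F (M + 1) b - b * (A + 1 - b) -
          ((M + 1 : ℕ) : ℝ) * b / A)
        (f' := fun b => F (M + 1) b - F M (b + 1) - (A + 1 - 2 * b) - ((M + 1 : ℕ) : ℝ) / A)
        (fun b => ?_) ?_ (fun b hb hbA => ?_) a ha haA2
      · linarith
      · have h1 := F_deriv M b
        have h2 : HasDerivAt (fun b : ℝ => b * (A + 1 - b)) (1 * (A + 1 - b) + b * (0 - 1)) b :=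
          (hasDerivAt_id' b).mul ((hasDerivAt_const b (A + 1)).sub (hasDerivAt_id' b))
        have h3 : HasDerivAt (fun b : ℝ => ((M + 1 : ℕ) : ℝ) * b / A)
            (((M + 1 : ℕ) : ℝ) * 1 / A) b :=
          ((hasDerivAt_id' b).const_mul _).div_const A
        have h4 := (((hasDerivAt_const b ((M + 1 : ℕ) : ℝ)).sub h1).sub h2).sub h3
        refine h4.congr_deriv ?_
        ring
      · rw [F_at_zero]
        simp
      · have h1 := ih (a := b + 1) (by linarith) (by linarith)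
        have h2 : (M : ℝ) * (b + 1) / A = ((M + 1 : ℕ) : ℝ) / A + ((M + 1 : ℕ) : ℝ) * b / A -
            (b + 1) / A := by
          push_cast
          field_simp
          ring
        have h3 : 0 ≤ (b + 1) / A := div_nonneg (by linarith) hA.le
        rw [h2] at h1
        have h4 : ((M + 1 : ℕ) : ℝ) = (M : ℝ) + 1 := by push_cast; ring
        generalize ((M + 1 : ℕ) : ℝ) / A = u at h1 ⊢
        generalize ((M + 1 : ℕ) : ℝ) * b / A = v at h1 ⊢
        rw [h4]
        nlinarith [h1, h3]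

/-- `M (1 - P M 1) ≤ M - F M 1 ≤ A + M/A`; take `A = √M`, `M` large. -/
theorem P_one_lim {ε : ℝ} (hε : 0 < ε) : ∃ N0 : ℕ, ∀ N ≥ N0, 1 - ε ≤ P N 1 := by
  refine ⟨⌈4 / ε ^ 2⌉₊, fun N hN => ?_⟩
  have h0 : 4 / ε ^ 2 ≤ (N : ℝ) := Nat.ceil_le.1 hN
  have hε2 : 0 < ε ^ 2 := by positivity
  have hN0 : (0 : ℝ) < N := lt_of_lt_of_le (by positivity) h0
  have h1 := Q_bound N (A := 2 / ε) (a := 1) (by positivity) zero_le_one
    (by have : 0 < 2 / ε := by positivity
        linarith)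
  have h2 := F_le_mul N (a := 1) zero_le_one
  have h3 : (N : ℝ) * 1 / (2 / ε) = N * ε / 2 := by
    field_simp
  have h4 : 2 / ε ≤ N * ε / 2 := by
    rw [div_le_iff₀ hε2] at h0
    rw [div_le_iff₀ hε]
    nlinarith
  rw [h3] at h1
  have h5 : (N : ℝ) * (1 - P N 1) ≤ N * ε := by
    linarith
  have h6 := le_of_mul_le_mul_left h5 hN0
  linarith

end Pool.Agent.Helper40.WT
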